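import Pool.Agent.HS37.C4.Stm
import Pool.Agent.HS37.CV.ARIK

/-!
# Project C4, piece ARI3 (helper23), port of `CV/ARIK`
-/

set_option autoImplicit false

namespace Pool.Agent.HS37.C4

open UpperHalfPlane
open Pool.Agent.HS37.CV (arik_sq arik_one)

namespace ARI3

lemma dec1 : ∀ n₁ ∈ [44, 43, 40, 35, 28, 19, 8, 132, 123, 96, 51],
    ∀ n₂ ∈ [68, 67, 64, 59, 52, 43, 32, 19, 4, 204, 195, 168, 123, 60],
    ∀ k ∈ List.range 450, (n₁ : ℕ) * n₂ = k ^ 2 → n₁ ∈ [43, 19, 8, 51, 123] := by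
  decide +kernel

lemma dec2 : ∀ n₁ ∈ [43, 19, 8, 51, 123],
    ∀ n₃ ∈ [148, 147, 144, 139, 132, 123, 112, 99, 84, 67, 48, 27, 4, 444, 435, 408, 363, 300, 219,
      120, 3],
    ∀ k ∈ List.range 450, (n₁ : ℕ) * n₃ = k ^ 2 → n₁ = 123 := by
  decide +kernel

lemma abs22 (s : ℤ) (h : s ^ 2 < 22 ^ 2) : |s| < 22 := abs_lt_of_sq_lt_sq (by linarith) (by norm_num)

lemma l1 (t : ℤ) (n : ℕ) (hn : 0 < n)
    (h : (n : ℤ) = 44 - t ^ 2 ∨ ((n : ℤ) = 132 - t ^ 2 ∧ (3 : ℤ) ∣ t)) :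
    n ∈ [44, 43, 40, 35, 28, 19, 8, 132, 123, 96, 51] := by
  have h1 : |t| < 22 := abs22 t (by rcases h with h | ⟨h, -⟩ <;> linarith)
  obtain ⟨h2, h3⟩ := abs_lt.1 h1
  simp only [List.mem_cons, List.not_mem_nil, or_false]
  interval_cases t <;> omega

lemma l2 (t : ℤ) (n : ℕ) (hn : 0 < n)
    (h : (n : ℤ) = 68 - t ^ 2 ∨ ((n : ℤ) = 204 - t ^ 2 ∧ (3 : ℤ) ∣ t)) :
    n ∈ [68, 67, 64, 59, 52, 43, 32, 19, 4, 204, 195, 168, 123, 60] := by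
  have h1 : |t| < 22 := abs22 t (by rcases h with h | ⟨h, -⟩ <;> linarith)
  obtain ⟨h2, h3⟩ := abs_lt.1 h1
  simp only [List.mem_cons, List.not_mem_nil, or_false]
  interval_cases t <;> omega

lemma l3 (t : ℤ) (n : ℕ) (hn : 0 < n)
    (h : (n : ℤ) = 148 - t ^ 2 ∨ ((n : ℤ) = 444 - t ^ 2 ∧ (3 : ℤ) ∣ t)) :
    n ∈ [148, 147, 144, 139, 132, 123, 112, 99, 84, 67, 48, 27, 4, 444, 435, 408, 363, 300, 219,
      120, 3] := by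
  have h1 : |t| < 22 := abs22 t (by rcases h with h | ⟨h, -⟩ <;> linarith)
  obtain ⟨h2, h3⟩ := abs_lt.1 h1
  simp only [List.mem_cons, List.not_mem_nil, or_false]
  interval_cases t <;> omega

/-- what a matrix gives: the trace `t` and the natural number `n = 4 det - t² = 4 c² y²` -/
lemma two (x y : ℝ) (hy : 0 < y) (N : ℤ) (hsq : ∀ s : ℤ, s ^ 2 ≠ 4 * N ∧ s ^ 2 ≠ 12 * N)
    (A : Matrix (Fin 2) (Fin 2) ℤ)
    (h1 : A.det = N ∨ (A.det = 3 * N ∧ (3 : ℤ) ∣ A 0 0 ∧ (3 : ℤ) ∣ A 1 1))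
    (hE : (A 1 0 : ℂ) * ((x : ℂ) + (y : ℂ) * Complex.I) ^ 2 +
      ((A 1 1 : ℂ) - A 0 0) * ((x : ℂ) + (y : ℂ) * Complex.I) - A 0 1 = 0) :
    ∃ (t : ℤ) (n : ℕ), A 0 0 + A 1 1 = t ∧ 0 < n ∧ 4 * A.det = n + t ^ 2 ∧
      (n : ℝ) = ((2 * A 1 0 : ℤ) : ℝ) ^ 2 * y ^ 2 ∧ A 1 0 ≠ 0 := by
  obtain ⟨-, -, e3⟩ := arik_one x y hy (A 0 0) (A 0 1) (A 1 0) (A 1 1) hE
  have hd : A.det = A 0 0 * A 1 1 - A 0 1 * A 1 0 := Matrix.det_fin_two A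
  rw [← hd] at e3
  obtain ⟨t, ht⟩ : ∃ t : ℤ, A 0 0 + A 1 1 = t := ⟨_, rfl⟩
  rw [ht] at e3
  have e4 : ((4 * A.det - t ^ 2 : ℤ) : ℝ) = ((2 * A 1 0 : ℤ) : ℝ) ^ 2 * y ^ 2 := by
    push_cast at e3 ⊢
    linarith
  have hc : A 1 0 ≠ 0 := by
    intro h
    rw [h] at e4
    have e5 : ((4 * A.det - t ^ 2 : ℤ) : ℝ) = ((0 : ℤ) : ℝ) := by rw [e4]; push_cast; ring
    have e6 : 4 * A.det - t ^ 2 = 0 := by exact_mod_cast e5
    obtain ⟨e7, e8⟩ := hsq t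
    rcases h1 with h | ⟨h, -, -⟩
    · exact e7 (by linarith)
    · exact e8 (by linarith)
  have hc' : (A 1 0 : ℝ) ≠ 0 := by exact_mod_cast hc
  have hp : 0 < 4 * A.det - t ^ 2 := by
    have : (0 : ℝ) < ((4 * A.det - t ^ 2 : ℤ) : ℝ) := by
      rw [e4]
      push_cast
      positivity
    exact_mod_cast this
  obtain ⟨n, hn⟩ := Int.eq_ofNat_of_zero_le hp.le
  refine ⟨t, n, ht, by omega, by linarith, ?_, hc⟩
  rw [← e4, hn]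
  simp

lemma pair (m₁ m₂ : ℕ) (c₁ c₂ : ℤ) (y : ℝ) (h1 : (m₁ : ℝ) = (c₁ : ℝ) ^ 2 * y ^ 2)
    (h2 : (m₂ : ℝ) = (c₂ : ℝ) ^ 2 * y ^ 2) (hc₂ : c₂ ≠ 0) (hb : m₁ < 450) (hb2 : m₂ < 450) :
    ∃ k ∈ List.range 450, m₁ * m₂ = k ^ 2 := by
  have h3 : ((m₁ : ℤ) * m₂) * c₂ ^ 2 = ((m₂ : ℤ) * c₁) ^ 2 := by
    have : ((((m₁ : ℤ) * m₂) * c₂ ^ 2 : ℤ) : ℝ) = ((((m₂ : ℤ) * c₁) ^ 2 : ℤ) : ℝ) := by
      push_cast
      have e : (m₁ : ℝ) * (c₂ : ℝ) ^ 2 = (m₂ : ℝ) * (c₁ : ℝ) ^ 2 := by rw [h1, h2]; ring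
      calc (m₁ : ℝ) * m₂ * (c₂ : ℝ) ^ 2 = m₂ * ((m₁ : ℝ) * (c₂ : ℝ) ^ 2) := by ring
        _ = _ := by rw [e]; ring
    exact_mod_cast this
  obtain ⟨j, hj⟩ := arik_sq _ _ _ hc₂ h3
  refine ⟨j.natAbs, ?_, ?_⟩
  · rw [List.mem_range]
    have h5 : (m₁ : ℤ) * m₂ < 450 ^ 2 := by
      have : (m₁ : ℤ) < 450 := by exact_mod_cast hb
      have : (m₂ : ℤ) < 450 := by exact_mod_cast hb2
      nlinarith
    have h6 : |j| < 450 := abs_lt_of_sq_lt_sq (by linarith) (by norm_num)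
    rw [Int.abs_eq_natAbs] at h6
    omega
  · have : ((m₁ * m₂ : ℕ) : ℤ) = ((j.natAbs ^ 2 : ℕ) : ℤ) := by
      push_cast
      rw [hj, sq_abs]
    exact_mod_cast this

lemma last (e w b : ℤ) (he : e ≠ 0) (h1 : e ^ 2 ≤ 41) (h2 : w ^ 2 ≤ e ^ 2)
    (h3 : 4 * e * b = -(3 * w ^ 2 + 41)) : e ^ 2 = 1 ∧ w ^ 2 = 1 := by
  have h4 : |e| < 7 := abs_lt_of_sq_lt_sq (by linarith) (by norm_num)
  have h5 : |w| < 7 := abs_lt_of_sq_lt_sq (by linarith) (by norm_num)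
  obtain ⟨h6, h7⟩ := abs_lt.1 h4
  obtain ⟨h8, h9⟩ := abs_lt.1 h5
  interval_cases e <;> first | omega | (interval_cases w <;> omega)

lemma nsq (N : ℤ) (hN : N = 11 ∨ N = 17 ∨ N = 37) : ∀ t : ℤ, t ^ 2 ≠ 4 * N ∧ t ^ 2 ≠ 12 * N := by
  intro t
  by_cases ht : |t| < 22
  · obtain ⟨h1, h2⟩ := abs_lt.1 ht
    rcases hN with rfl | rfl | rfl <;> interval_cases t <;> norm_num
  · have h2 : 22 ^ 2 ≤ t ^ 2 := by
      rw [← sq_abs t]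
      exact pow_le_pow_left₀ (by norm_num) (not_lt.1 ht) 2
    constructor <;> intro h3 <;> omega

end ARI3

/-- **ARI3** -/
theorem t_ARI3 : S_ARI3 := by
  intro τ hlow hre h
  have hy : 0 < τ.im := τ.im_pos
  have hτ : (τ : ℂ) = ((τ.re : ℝ) : ℂ) + ((τ.im : ℝ) : ℂ) * Complex.I := by
    apply Complex.ext <;> simp
  obtain ⟨A, a1, a2, a3⟩ := h 11 (Or.inl rfl)
  obtain ⟨B, b1, b2, b3⟩ := h 17 (Or.inr (Or.inl rfl))
  obtain ⟨C, c1, c2, c3⟩ := h 37 (Or.inr (Or.inr rfl))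
  rw [hτ] at a3 b3 c3 ⊢
  generalize τ.re = x at *
  generalize τ.im = y at *
  obtain ⟨t, n₁, sA, pA, dA, mA, cA⟩ := ARI3.two x y hy 11 (ARI3.nsq 11 (by norm_num)) A
    (by exact_mod_cast a2) (by exact_mod_cast a3)
  obtain ⟨u, n₂, sB, pB, dB, mB, cB⟩ := ARI3.two x y hy 17 (ARI3.nsq 17 (by norm_num)) B
    (by exact_mod_cast b2) (by exact_mod_cast b3)
  obtain ⟨v, n₃, sC, pC, dC, mC, cC⟩ := ARI3.two x y hy 37 (ARI3.nsq 37 (by norm_num)) C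
    (by exact_mod_cast c2) (by exact_mod_cast c3)
  have hA : (n₁ : ℤ) = 44 - t ^ 2 ∨ ((n₁ : ℤ) = 132 - t ^ 2 ∧ (3 : ℤ) ∣ t) := by
    rcases a2 with h | ⟨h, h1, h2⟩
    · left; push_cast at h; linarith
    · right; push_cast at h; exact ⟨by linarith, by rw [← sA]; exact dvd_add h1 h2⟩
  have hB : (n₂ : ℤ) = 68 - u ^ 2 ∨ ((n₂ : ℤ) = 204 - u ^ 2 ∧ (3 : ℤ) ∣ u) := by
    rcases b2 with h | ⟨h, h1, h2⟩
    · left; push_cast at h; linarith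
    · right; push_cast at h; exact ⟨by linarith, by rw [← sB]; exact dvd_add h1 h2⟩
  have hC : (n₃ : ℤ) = 148 - v ^ 2 ∨ ((n₃ : ℤ) = 444 - v ^ 2 ∧ (3 : ℤ) ∣ v) := by
    rcases c2 with h | ⟨h, h1, h2⟩
    · left; push_cast at h; linarith
    · right; push_cast at h; exact ⟨by linarith, by rw [← sC]; exact dvd_add h1 h2⟩
  have bA : n₁ < 450 := by have := sq_nonneg t; omega
  have bB : n₂ < 450 := by have := sq_nonneg u; omega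
  have bC : n₃ < 450 := by have := sq_nonneg v; omega
  obtain ⟨k, hk, hk2⟩ := ARI3.pair n₁ n₂ _ _ y mA mB (by simpa using cB) bA bB
  obtain ⟨l, hl, hl2⟩ := ARI3.pair n₁ n₃ _ _ y mA mC (by simpa using cC) bA bC
  have e1 := ARI3.dec1 n₁ (ARI3.l1 t n₁ pA hA) n₂ (ARI3.l2 u n₂ pB hB) k hk hk2
  have e2 := ARI3.dec2 n₁ e1 n₃ (ARI3.l3 v n₃ pC hC) l hl hl2
  subst e2
  -- the determinant is `33`
  have h33 : (3 : ℤ) ∣ A 0 0 ∧ (3 : ℤ) ∣ A 1 1 := by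
    rcases a2 with h | ⟨h, h1, h2⟩
    · exfalso
      have := sq_nonneg t
      push_cast at h dA
      linarith
    · exact ⟨h1, h2⟩
  obtain ⟨⟨a, ha⟩, ⟨d, hd⟩⟩ := h33
  obtain ⟨e, he⟩ := a1
  obtain ⟨f1, f2, -⟩ := arik_one x y hy (A 0 0) (A 0 1) (A 1 0) (A 1 1) a3
  rw [ha, hd, he] at f1
  rw [he] at f2 mA
  push_cast at f1 f2 mA
  have g1 : 2 * (e : ℝ) * x = ((a - d : ℤ) : ℝ) := by push_cast; linarith
  have g2 : 12 * (e : ℝ) ^ 2 * y ^ 2 = 41 := by linarith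
  have g3 : 4 * (e : ℝ) ^ 2 * x ^ 2 = ((a - d : ℤ) : ℝ) ^ 2 := by rw [← g1]; ring
  have he0 : e ≠ 0 := by
    rintro rfl
    apply cA
    rw [he]; rfl
  have hx2 : x ^ 2 ≤ 1 / 4 := by
    have := pow_le_pow_left₀ (abs_nonneg x) hre 2
    rw [sq_abs] at this
    linarith
  have g4 : e ^ 2 ≤ 41 := by
    have : (e : ℝ) ^ 2 ≤ 41 := by
      rw [← g2]
      nlinarith [sq_nonneg (e : ℝ)]
    exact_mod_cast this
  have g5 : (a - d) ^ 2 ≤ e ^ 2 := by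
    have : ((a - d : ℤ) : ℝ) ^ 2 ≤ (e : ℝ) ^ 2 := by
      rw [← g3]
      nlinarith [sq_nonneg (e : ℝ)]
    exact_mod_cast this
  have g6 : 4 * e * A 0 1 = -(3 * (a - d) ^ 2 + 41) := by
    have : 4 * (e : ℝ) * (A 0 1 : ℝ) = -(3 * ((a - d : ℤ) : ℝ) ^ 2 + 41) := by
      rw [← g3, ← g2, f2]; ring
    exact_mod_cast this
  obtain ⟨i1, i2⟩ := ARI3.last e (a - d) (A 0 1) he0 g4 g5 g6
  have i3 : (e : ℝ) ^ 2 = 1 := by exact_mod_cast i1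
  have i4 : ((a - d : ℤ) : ℝ) ^ 2 = 1 := by exact_mod_cast i2
  rw [i3] at g2 g3
  rw [i4] at g3
  have j1 : y = Real.sqrt 123 / 6 := by
    have h1 : (6 * y) ^ 2 = 123 := by linarith
    have h2 : Real.sqrt 123 = 6 * y := by
      rw [← h1]
      exact Real.sqrt_sq (by linarith)
    linarith
  have j2 : (x - 1 / 2) * (x + 1 / 2) = 0 := by linarith
  rcases mul_eq_zero.1 j2 with h | h
  · left
    have : x = 1 / 2 := by linarith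
    rw [this, j1]
    push_cast
    ring
  · right
    have : x = - (1 / 2) := by linarith
    rw [this, j1]
    push_cast
    ring

end Pool.Agent.HS37.C4
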