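import Pool.Agent.HS37.C3.Stm
import Pool.Agent.HS37.CQ.Bas

/-!
# Project C4: piece BAS3 (helper69)
-/

set_option autoImplicit false

open Matrix MatrixGroups UpperHalfPlane EisensteinSeries
open Pool.Agent.HS37.SP Pool.Agent.HS37.CQ

namespace Pool.Agent.HS37.C3

noncomputable section

namespace BAS3

open HK70B (SS SS_coe SS10 SS11 E2_sl E2_holo)

lemma trp_coe (τ : ℍ) : ((trp τ : ℍ) : ℂ) = 3 * (τ : ℂ) := by
  unfold trp
  have h : 0 < (3 * (τ : ℂ)).im := by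
    have h1 := τ.im_pos
    have h2 : (3 * (τ : ℂ)).im = 3 * τ.im := by simp
    rw [h2]
    linarith
  rw [ofComplex_apply_of_im_pos h]

lemma fri3_coe (τ : ℍ) : ((fri3 τ : ℍ) : ℂ) = -1 / (3 * (τ : ℂ)) := by
  unfold fri3
  have h : 0 < (-1 / (3 * (τ : ℂ))).im := by
    have h1 : (-1 / (3 * (τ : ℂ))) = ((SS • (trp τ) : ℍ) : ℂ) := by
      rw [SS_coe, trp_coe]
    rw [h1]
    exact (SS • (trp τ) : ℍ).im_pos
  rw [ofComplex_apply_of_im_pos h]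

lemma fri3_eq (τ : ℍ) : fri3 τ = SS • (trp τ) := by
  apply UpperHalfPlane.ext
  rw [SS_coe, fri3_coe, trp_coe]

lemma trp_fri3 (τ : ℍ) : trp (fri3 τ) = SS • τ := by
  apply UpperHalfPlane.ext
  rw [SS_coe, trp_coe, fri3_coe]
  have := τ.ne_zero
  field_simp

lemma exists_third (γ : SL(2, ℤ)) (hγ : (3 : ℤ) ∣ γ 1 0) :
    ∃ γ' : SL(2, ℤ), 3 * γ' 1 0 = γ 1 0 ∧ γ' 1 1 = γ 1 1 ∧ ∀ τ : ℍ, trp (γ • τ) = γ' • trp τ := by
  obtain ⟨c, hc⟩ := hγ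
  have hdet := γ.det_coe
  rw [Matrix.det_fin_two, hc] at hdet
  refine ⟨⟨!![γ 0 0, 3 * γ 0 1; c, γ 1 1], by
    rw [Matrix.det_fin_two_of]
    linarith⟩, ?_, rfl, fun τ => ?_⟩
  · rw [hc]
    rfl
  · apply UpperHalfPlane.ext
    rw [trp_coe, sl_coe, sl_coe, trp_coe, hc]
    simp only [Matrix.of_apply, Matrix.cons_val', Matrix.cons_val_zero, Matrix.cons_val_one,
      Matrix.cons_val_fin_one]
    push_cast
    ring_nf

lemma chr_sq (γ : SL(2, ℤ)) (hγ : (3 : ℤ) ∣ γ 1 0) : chr (γ 1 1) ^ 2 = 1 := by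
  obtain ⟨c, hc⟩ := hγ
  have hdet := γ.det_coe
  rw [Matrix.det_fin_two, hc] at hdet
  unfold chr
  split_ifs with h1 h2
  · exfalso
    obtain ⟨e, he⟩ := Int.dvd_of_emod_eq_zero h1
    rw [he] at hdet
    have : (3 : ℤ) ∣ 1 := ⟨γ 0 0 * e - γ 0 1 * c, by linarith⟩
    omega
  · norm_num
  · norm_num

lemma chr_zpow (γ : SL(2, ℤ)) (hγ : (3 : ℤ) ∣ γ 1 0) (x : ℂ) (j : ℤ) :
    (chr (γ 1 1) * x) ^ (2 * j) = x ^ (2 * j) := by
  rw [_root_.zpow_mul, _root_.zpow_mul]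
  congr 1
  show (chr (γ 1 1) * x) ^ ((2 : ℕ) : ℤ) = x ^ ((2 : ℕ) : ℤ)
  rw [zpow_natCast, zpow_natCast, mul_pow, chr_sq γ hγ, one_mul]

lemma wf_sq (τ : ℍ) : wf τ ^ 2 = -3 * (τ : ℂ) ^ 2 := by
  unfold wf
  have h : ((Real.sqrt 3 : ℝ) : ℂ) ^ 2 = 3 := by
    rw [← Complex.ofReal_pow, Real.sq_sqrt (by norm_num)]
    norm_num
  rw [mul_pow, mul_pow, neg_sq, Complex.I_sq, h]
  ring

lemma wf_zpow (τ : ℍ) (j : ℤ) : wf τ ^ (2 * j) = (-3 * (τ : ℂ) ^ 2) ^ j := by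
  rw [_root_.zpow_mul]
  congr 1
  show wf τ ^ ((2 : ℕ) : ℤ) = _
  rw [zpow_natCast, wf_sq]

lemma holo_trp {g : ℍ → ℂ} (hg : DifferentiableOn ℂ (g ∘ ofComplex) {z | 0 < z.im}) :
    DifferentiableOn ℂ ((fun τ => g (trp τ)) ∘ ofComplex) {z | 0 < z.im} := by
  have h2 : DifferentiableOn ℂ (fun z : ℂ => 3 * z) {z | 0 < z.im} :=
    (differentiable_id.const_mul _).differentiableOn
  have him : ∀ z ∈ {z : ℂ | 0 < z.im}, 3 * z ∈ {z : ℂ | 0 < z.im} := by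
    intro z hz
    have h3 : (3 * z).im = 3 * z.im := by simp
    have h4 : 0 < z.im := hz
    show 0 < (3 * z).im
    rw [h3]
    linarith
  have h1 := DifferentiableOn.comp (g := g ∘ ofComplex) (t := {z | 0 < z.im}) hg h2 him
  refine h1.congr fun z hz => ?_
  show g (trp (ofComplex z)) = g (ofComplex (3 * z))
  unfold trp
  rw [ofComplex_apply_of_im_pos hz]

lemma pt_weak {j : ℤ} {g : ℍ → ℂ} (hg : IsWeak (2 * j) g) :
    Pt (2 * j) g (fun τ => (-3) ^ j * g (trp τ)) := by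
  refine ⟨fun γ τ hγ => ?_, fun γ τ hγ => ?_, fun τ => ?_, fun τ => ?_, hg.holo, ?_⟩
  · rw [chr_zpow γ hγ]
    exact hg.slash γ τ
  · obtain ⟨γ', h1, h2, h3⟩ := exists_third γ hγ
    show (-3) ^ j * g (trp (γ • τ)) = _
    rw [chr_zpow γ hγ, h3, hg.slash, h2, trp_coe, ← h1]
    push_cast
    rw [show (γ' 1 0 : ℂ) * (3 * (τ : ℂ)) = 3 * (γ' 1 0 : ℂ) * τ by ring]
    ring
  · rw [wf_zpow, fri3_eq, hg.slash, SS10, SS11, trp_coe,
      show (-3 * (τ : ℂ) ^ 2) ^ j * ((-3) ^ j * g (trp τ)) =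
      ((-3 * (τ : ℂ) ^ 2) ^ j * (-3) ^ j) * g (trp τ) by ring, ← mul_zpow, _root_.zpow_mul]
    congr 2
    push_cast
    show (1 * (3 * (τ : ℂ)) + 0) ^ ((2 : ℕ) : ℤ) = _
    rw [zpow_natCast]
    ring
  · show (-3) ^ j * g (trp (fri3 τ)) = _
    rw [wf_zpow, trp_fri3, hg.slash, SS10, SS11, ← mul_assoc, _root_.zpow_mul, ← mul_zpow]
    congr 2
    push_cast
    show -3 * (1 * (τ : ℂ) + 0) ^ ((2 : ℕ) : ℤ) = _
    rw [zpow_natCast]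
    ring
  · exact (holo_trp hg.holo).const_mul _

lemma gP_sl (γ : SL(2, ℤ)) (τ : ℍ) (hγ : (3 : ℤ) ∣ γ 1 0) :
    gP (γ • τ) = (chr (γ 1 1) * ((γ 1 0 : ℂ) * τ + (γ 1 1 : ℂ))) ^ (2 : ℤ) * gP τ := by
  have h0 := chr_zpow γ hγ ((γ 1 0 : ℂ) * τ + (γ 1 1 : ℂ)) 1
  rw [mul_one] at h0
  rw [h0]
  obtain ⟨γ', h1, h2, h3⟩ := exists_third γ hγ
  unfold gP
  rw [h3, E2_sl γ' (trp τ), E2_sl γ τ, h2, trp_coe, ← h1]
  have h4 : ∀ x : ℂ, x ^ (2 : ℤ) = x ^ 2 := fun x => rfl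
  rw [h4]
  push_cast
  ring

lemma gP_fr (τ : ℍ) : gP (fri3 τ) = wf τ ^ (2 : ℤ) * gP τ := by
  have h0 := wf_zpow τ 1
  rw [mul_one, zpow_one] at h0
  rw [h0]
  unfold gP
  rw [trp_fri3, fri3_eq, E2_sl, E2_sl, SS10, SS11, trp_coe]
  push_cast
  ring

lemma gP_holo : DifferentiableOn ℂ (gP ∘ ofComplex) {z | 0 < z.im} := by
  have h := (((holo_trp E2_holo).const_mul 3).sub E2_holo).div_const 2
  exact h

lemma pt_P : Pt 2 gP gP :=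
  ⟨gP_sl, gP_sl, gP_fr, gP_fr, gP_holo, gP_holo⟩

lemma qq_trp (τ : ℍ) : qq (trp τ) = qq τ ^ 3 := by
  unfold qq
  rw [trp_coe, ← Complex.exp_nat_mul]
  congr 1
  push_cast
  ring

lemma qexp_trp {g : ℍ → ℂ} {e : ℕ} {c : PowerSeries ℂ} (h : QExp g e c) :
    QExp (fun τ => g (trp τ)) (3 * e) (vps 3 c) := by
  intro τ
  have h1 := h (trp τ)
  rw [qq_trp] at h1
  have hinj : Function.Injective (fun n : ℕ => 3 * n) := fun a b hab => by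
    simpa using hab
  have h2 : ∀ x ∉ Set.range (fun n : ℕ => 3 * n),
      PowerSeries.coeff x (vps 3 c) * qq τ ^ x = 0 := by
    intro x hx
    rw [vps, PowerSeries.coeff_mk, if_neg, zero_mul]
    rintro ⟨y, rfl⟩
    exact hx ⟨y, rfl⟩
  rw [pow_mul]
  refine (hinj.hasSum_iff h2).1 ?_
  convert h1 using 1
  funext i
  rw [Function.comp_apply, vps, PowerSeries.coeff_mk, if_pos (dvd_mul_right 3 i),
    Nat.mul_div_cancel_left _ three_pos, pow_mul]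

end BAS3

open BAS3 in
theorem t_BAS3 : S_BAS3 :=
  ⟨fun _ _ hg => pt_weak hg, pt_P, fun _ _ _ h => qexp_trp h⟩

end

end Pool.Agent.HS37.C3
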