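import Pool.Agent.HS37.C4.Stm
import Pool.Agent.HS37.C3.Bk3a
import Pool.Agent.HS37.SP.Prod
import Pool.Agent.HS37.SP.Back

/-!
# Project C4, pieces BK3 and BK3F: split primes at CM points, the final step
-/

set_option autoImplicit false

open UpperHalfPlane ModularForm
open Pool.Agent.HS37.SP Pool.Agent.HS37.CQ Pool.Agent.HS37.C3 Pool.Agent.HS37.C3.BK3

namespace Pool.Agent.HS37.C4

noncomputable section

namespace BK3

/-- the algebra of the final step: the recurrence is run backwards -/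
lemma core {ι : Type} [DecidableEq ι] (S : Finset ι) (X x : ι → ℂ) (t : ι) (ht : t ∈ S)
    (K l lb P : ℂ) (hP : P = l * lb) (hl : IsIntegral ℤ l) (hK : IsIntegral ℤ K)
    (hx : ∀ i ∈ S, IsIntegral ℤ (x i))
    (hs : ∀ m : ℕ, ∃ w : ℂ, IsIntegral ℤ w ∧ ∑ i ∈ S, X i * x i ^ m = P ^ 2 * w)
    (hm : ∀ m : ℕ, 1 ≤ m → ∃ w : ℂ, IsIntegral ℤ w ∧ K * X t * x t ^ m = lb ^ 2 * w) :
    ∃ w : ℂ, IsIntegral ℤ w ∧ (∏ i ∈ S.erase t, x i) * (K * X t) = lb ^ 2 * w := by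
  obtain ⟨w1, iw1, e1⟩ := t_BACK ι (S.erase t) x (fun i => K * X i) (lb ^ 2) 1
    (fun i hi => hx i (Finset.mem_of_mem_erase hi)) (fun M hM => by
      obtain ⟨w, iw, e⟩ := hs M
      obtain ⟨w', iw', e'⟩ := hm M hM
      refine ⟨K * l ^ 2 * w - w', ((hK.mul (hl.pow 2)).mul iw).sub iw', ?_⟩
      have h1 := Finset.add_sum_erase S (fun i => X i * x i ^ M) ht
      have h2 : ∑ i ∈ S.erase t, K * X i * x i ^ M = K * ∑ i ∈ S.erase t, X i * x i ^ M := by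
        rw [Finset.mul_sum]
        exact Finset.sum_congr rfl fun i _ => by ring
      rw [h2]
      rw [e] at h1
      have h3 : ∑ i ∈ S.erase t, X i * x i ^ M = P ^ 2 * w - X t * x t ^ M := by
        rw [← h1]
        ring
      rw [h3, hP]
      linear_combination -e')
  obtain ⟨w0, iw0, e0⟩ := hs 0
  have hprod : IsIntegral ℤ (∏ i ∈ S.erase t, x i) :=
    IsIntegral.prod _ fun i hi => hx i (Finset.mem_of_mem_erase hi)
  refine ⟨(∏ i ∈ S.erase t, x i) * K * l ^ 2 * w0 - w1,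
    (((hprod.mul hK).mul (hl.pow 2)).mul iw0).sub iw1, ?_⟩
  have h1 := Finset.add_sum_erase S (fun i => X i * x i ^ 0) ht
  rw [e0] at h1
  simp only [pow_zero, mul_one] at h1
  rw [pow_one, ← Finset.mul_sum] at e1
  generalize (∏ i ∈ S.erase t, x i) = Q at *
  generalize (∑ i ∈ S.erase t, X i) = R at *
  rw [hP] at h1
  linear_combination (Q * K) * h1 - e1

/-- the terms of the sum over the sublattices -/
def XT (β γ₃ : ℍ → ℂ) (p δ : ℕ) (τ : ℍ) (t : ℕ × ℕ × ℕ) : ℂ :=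
  phi3 δ (gh τ) * (gs τ * (γ₃ τ)⁻¹) * val3 (-1) (fun τ => 27 * (gP τ * (β τ)⁻¹)) (mat t) τ +
    -1 * (β τ * (gh τ + 27) ^ p) * val3 (-3) (fun τ => 27 * (β τ)⁻¹) (mat t) τ

lemma prod_erase {p : ℕ} (hp : p.Prime) (τ : ℍ) {t : ℕ × ℕ × ℕ} (ht : t ∈ reps p) :
    ∃ ε : ℂ, (ε = 1 ∨ ε = -1) ∧ (∏ i ∈ (reps p).erase t, xx p i τ) * xx p t τ = ε * (p : ℂ) ^ 12 := by
  obtain ⟨ε, hε, h⟩ := t_PROD p hp.pos
  refine ⟨ε, hε, ?_⟩
  have h1 := h τ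
  have h2 : ∏ a ∈ p.divisors, ((a : ℂ) ^ (12 * (p / a))) = (p : ℂ) ^ 12 := by
    rw [Nat.Prime.divisors hp, Finset.prod_pair hp.one_lt.ne]
    rw [Nat.div_self hp.pos]
    simp
  rw [h2] at h1
  rw [← h1, mul_comm]
  exact Finset.mul_prod_erase (reps p) (fun i => xx p i τ) ht

lemma facts (hR : S_REL3) {τ : ℍ} {c : ℤ} (hy : gP τ ^ 3 = c * gD τ) :
    gh τ ≠ 0 ∧ (gh τ + 27) ^ 2 = c * gh τ ∧ gP τ * gs τ = gD τ * (gh τ + 27) ∧ gG τ = gh τ * gD τ := by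
  have r1 := hR.1 τ
  have r8 := hR.2.2.2.2.2.2.2.1 τ
  have r9 := hR.2.2.2.2.2.2.2.2.1 τ
  have hD := hR.2.2.2.2.2.2.2.2.2.2.2.2.1 τ
  have hG := hR.2.2.2.2.2.2.2.2.2.2.2.2.2.2 τ
  have hh : gG τ = gh τ * gD τ := by
    rw [gh]
    field_simp
  have h0 : gh τ ≠ 0 := by
    intro h
    rw [h, zero_mul] at hh
    exact hG hh
  have hs2 : gs τ ^ 2 = gP τ * gG τ := by
    linear_combination (-gs τ) * r1 - 27 * r8 + gP τ * r9
  refine ⟨h0, ?_, by rw [r9, hh]; ring, hh⟩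
  have h1 : gD τ ^ 2 * ((gh τ + 27) ^ 2 - c * gh τ) = 0 := by
    have e1 : gP τ * gs τ = gD τ * (gh τ + 27) := by rw [r9, hh]; ring
    have e2 : gD τ ^ 2 * (gh τ + 27) ^ 2 = (gP τ * gs τ) ^ 2 := by rw [e1]; ring
    rw [mul_sub, e2, mul_pow, hs2, hh]
    linear_combination (gh τ * gD τ) * hy
  rcases mul_eq_zero.1 h1 with h2 | h2
  · exact absurd h2 (pow_ne_zero _ hD)
  · linear_combination h2

lemma pt_disc (hB : S_BAS3) : Pt (2 * 6) discriminant (fun τ => (-3) ^ (6 : ℤ) * discriminant (trp τ)) :=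
  hB.1 6 discriminant (by
    have h := PRODP.weakΔ
    norm_num
    exact h)

lemma xx_val3 {p : ℕ} (hp : 0 < p) (h3 : ¬ 3 ∣ p) {t : ℕ × ℕ × ℕ} (ht : t ∈ reps p) (τ : ℍ) :
    xx p t τ = (p : ℂ) ^ 12 * val3 (2 * 6) discriminant (mat t) τ / discriminant τ := by
  rw [val3_even hp h3 ht]
  unfold xx
  norm_num

lemma disc_ne (hR : S_REL3) (τ : ℍ) : discriminant τ ≠ 0 := by
  rw [hR.2.2.2.2.2.2.2.2.2.2.1 τ]
  exact mul_ne_zero (hR.2.2.2.2.2.2.2.2.2.2.2.2.1 τ) (hR.2.2.2.2.2.2.2.2.2.2.2.2.2.2 τ)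

lemma eps_pow {ε : ℂ} (h : ε = 1 ∨ ε = -1) : ε ^ 2 = 1 := by
  rcases h with h | h <;> rw [h] <;> norm_num

lemma eps_int {ε : ℂ} (h : ε = 1 ∨ ε = -1) : IsIntegral ℤ ε := by
  rcases h with h | h <;> rw [h]
  · exact isIntegral_one
  · exact isIntegral_one.neg

lemma int_poly {u : ℂ} (hu : IsIntegral ℤ u) (Q : Polynomial ℤ) :
    IsIntegral ℤ (Polynomial.aeval u Q) := by
  rw [Polynomial.aeval_eq_sum_range]
  refine IsIntegral.sum _ fun i _ => ?_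
  rw [zsmul_eq_mul]
  exact (isIntegral_algebraMap (R := ℤ) (A := ℂ) (x := Q.coeff i)).mul (hu.pow i)

lemma int_cast (z : ℤ) : IsIntegral ℤ (z : ℂ) := isIntegral_algebraMap (R := ℤ) (A := ℂ) (x := z)

end BK3

open BK3 in
theorem t_BK3 (hL : S_LIN3) (hX : S_XIN3) (hO : S_ODD3) (hH : S_HYP3) (hV : S_VR3) (hR : S_REL3)
    (hRam : S_RAM3) (hPre : S_PRE3) (hC : S_CLO3) (hE : S_EXP3) (hB : S_BAS3) : S_BK3 := by
  intro p δ τ c M l hp hpδ hp3 hy hdet hM hll il e1 e2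
  obtain ⟨β, γ₃, ε₀, cβ, cγ, c0, c1, o⟩ := os_of hO hE
  have hp0 := hp.pos
  have h3 : ¬ 3 ∣ p := fun h => hp3 ((Nat.prime_dvd_prime_iff_eq Nat.prime_three hp).1 h).symm
  obtain ⟨h0, hc, hsP, hG⟩ := facts hR hy
  obtain ⟨i1, i2⟩ := int_h3 hc h0
  obtain ⟨t, ht, ε, hε, hval⟩ := hV.2.2.1 p hp0 h3 M τ l hdet hM e1 e2
  have ilb := map_isIntegral_int (starRingEnd ℂ) il
  generalize (starRingEnd ℂ) l = lb at hll ilb ⊢
  have hpC : (p : ℂ) ≠ 0 := by exact_mod_cast hp.ne_zero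
  have hl0 : l ≠ 0 := by
    intro h
    rw [h, zero_mul] at hll
    exact hpC hll.symm
  have hlb0 : lb ≠ 0 := by
    intro h
    rw [h, mul_zero] at hll
    exact hpC hll.symm
  have hε2 := eps_pow hε
  have hε0 : ε ≠ 0 := by
    intro h
    rw [h] at hε2
    norm_num at hε2
  have hxt : xx p t τ = lb ^ 12 := by
    rw [xx_val3 hp0 h3 ht, hval _ _ _ (pt_disc hB)]
    have hΔ := disc_ne hR τ
    have z1 : (ε * l) ^ (-(2 * 6 : ℤ)) = (l ^ 12)⁻¹ := by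
      rw [zpow_neg, show (2 * 6 : ℤ) = ((12 : ℕ) : ℤ) by norm_num, zpow_natCast, mul_pow,
        show (12 : ℕ) = 2 * 6 by norm_num, pow_mul ε, hε2, one_pow, one_mul]
    rw [z1, ← hll]
    field_simp
  have hβ := o.beta_ne hR τ
  have hγ := o.gamma_ne hR τ
  have hD := o.fD τ
  obtain ⟨pA0, pB0, pA1, pB1⟩ := o.pts hPre hR hC hB p δ
  have hXt : XT β γ₃ p δ τ t =
      27 * ε * l * gh τ ^ δ * (gh τ + 27) * ((MM δ c : ℂ) - c ^ δ * l ^ 2) := by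
    unfold XT
    rw [hval _ _ _ pB0, hval _ _ _ pB1, phi3_point hc]
    have z1 : (ε * l) ^ (-(-1 : ℤ)) = ε * l := by norm_num
    have z2 : (ε * l) ^ (-(-3 : ℤ)) = ε * l ^ 3 := by
      rw [show (-(-3 : ℤ)) = ((3 : ℕ) : ℤ) by norm_num, zpow_natCast, mul_pow, pow_succ ε 2, hε2, one_mul]
    have z3 : (gh τ + 27) ^ p = c ^ δ * gh τ ^ δ * (gh τ + 27) := by
      rw [hpδ, pow_succ, pow_mul, hc, mul_pow]
    rw [z1, z2, z3]
    have e3 : gh τ ^ δ * (MM δ c : ℂ) * (gs τ * (γ₃ τ)⁻¹) * (ε * l * (27 * (gP τ * (β τ)⁻¹))) =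
        27 * ε * l * gh τ ^ δ * (MM δ c : ℂ) * ((gP τ * gs τ) * (β τ * γ₃ τ)⁻¹) := by
      rw [mul_inv]
      ring
    have e4 : -1 * (β τ * (c ^ δ * gh τ ^ δ * (gh τ + 27))) * (ε * l ^ 3 * (27 * (β τ)⁻¹)) =
        - (27 * ε * l * gh τ ^ δ * (gh τ + 27) * (c ^ δ * l ^ 2)) * (β τ * (β τ)⁻¹) := by
      ring
    rw [e3, e4, hsP, hD, mul_inv_cancel₀ hβ]
    have hD0 := hR.2.2.2.2.2.2.2.2.2.2.2.2.1 τ
    field_simp
    ring
  have iK : IsIntegral ℤ ((gh τ + 27) * (729 / gh τ) ^ (δ + 1)) := by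
    have h27 : IsIntegral ℤ (27 : ℂ) := by exact_mod_cast int_cast 27
    exact (i1.add h27).mul (i2.pow _)
  have hKX : (gh τ + 27) * (729 / gh τ) ^ (δ + 1) * XT β γ₃ p δ τ t =
      27 * c * 729 ^ (δ + 1) * ε * l * ((MM δ c : ℂ) - c ^ δ * l ^ 2) := by
    rw [hXt]
    have e3 : (gh τ + 27) * (729 / gh τ) ^ (δ + 1) *
        (27 * ε * l * gh τ ^ δ * (gh τ + 27) * ((MM δ c : ℂ) - c ^ δ * l ^ 2)) =
        27 * ε * l * ((MM δ c : ℂ) - c ^ δ * l ^ 2) *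
          ((gh τ + 27) ^ 2 * (gh τ ^ δ * (729 / gh τ) ^ (δ + 1))) := by ring
    rw [e3, hc, div_pow, pow_succ (gh τ)]
    field_simp
  obtain ⟨w, iw, ew⟩ := core (reps p) (XT β γ₃ p δ τ) (fun i => xx p i τ) t ht
    ((gh τ + 27) * (729 / gh τ) ^ (δ + 1)) l lb p hll.symm il iK (hX p hp hp3 τ i1 i2)
    (fun m => by
      obtain ⟨Q₁, Q₂, key⟩ := o.lin hL hH hR hPre hE hRam hC hB hp hp3 hpδ m
      refine ⟨Polynomial.aeval (gh τ) Q₁ + Polynomial.aeval (729 / gh τ) Q₂, ?_, key τ⟩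
      exact (int_poly i1 Q₁).add (int_poly i2 Q₂))
    (fun m hm => by
      obtain ⟨j, rfl⟩ : ∃ j, m = j + 1 := ⟨m - 1, by omega⟩
      refine ⟨27 * c * 729 ^ (δ + 1) * ε * l * ((MM δ c : ℂ) - c ^ δ * l ^ 2) * (lb ^ 10 * (lb ^ 12) ^ j), ?_, ?_⟩
      · have h27 : IsIntegral ℤ (27 : ℂ) := by exact_mod_cast int_cast 27
        have h729 : IsIntegral ℤ (729 : ℂ) := by exact_mod_cast int_cast 729
        exact ((((((h27.mul (int_cast c)).mul (h729.pow _)).mul (eps_int hε)).mul il).mul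
          ((int_cast _).sub (((int_cast c).pow _).mul (il.pow _)))).mul
          ((ilb.pow _).mul ((ilb.pow _).pow _)))
      · show _ * XT β γ₃ p δ τ t * xx p t τ ^ (j + 1) = _
        rw [hKX, hxt]
        ring)
  obtain ⟨ε₁, hε₁, hpr⟩ := prod_erase hp τ ht
  have hQ : ∏ i ∈ (reps p).erase t, xx p i τ = ε₁ * l ^ 12 := by
    rw [hxt, ← hll] at hpr
    have h5 : lb ^ 12 ≠ 0 := pow_ne_zero _ hlb0
    apply mul_right_cancel₀ h5
    rw [hpr]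
    ring
  rw [hQ, hKX] at ew
  refine ⟨ε * ε₁ * w, ((eps_int hε).mul (eps_int hε₁)).mul iw, ?_⟩
  have hε₁2 := eps_pow hε₁
  have e6 : lb ^ 2 * (ε * ε₁ * w) = ε * ε₁ * (lb ^ 2 * w) := by ring
  rw [e6, ← ew]
  have e7 : ε * ε₁ * (ε₁ * l ^ 12 * (27 * c * 729 ^ (δ + 1) * ε * l * ((MM δ c : ℂ) - c ^ δ * l ^ 2))) =
      ε ^ 2 * ε₁ ^ 2 * (27 * c * 729 ^ (δ + 1) * l ^ 13 * ((MM δ c : ℂ) - c ^ δ * l ^ 2)) := by ring
  rw [e7, hε2, hε₁2]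
  ring

end

end Pool.Agent.HS37.C4
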