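import Pool.Agent.HS37.C4.Bk3

/-!
# Project C4, piece BK3F: split primes at CM points, the second type
-/

set_option autoImplicit false

open UpperHalfPlane ModularForm
open Pool.Agent.HS37.SP Pool.Agent.HS37.CQ Pool.Agent.HS37.C3 Pool.Agent.HS37.C3.BK3

namespace Pool.Agent.HS37.C4

noncomputable section

open BK3 in
theorem t_BK3F (hL : S_LIN3) (hX : S_XIN3) (hO : S_ODD3) (hH : S_HYP3) (hV : S_VR3) (hR : S_REL3)
    (hRam : S_RAM3) (hPre : S_PRE3) (hC : S_CLO3) (hE : S_EXP3) (hB : S_BAS3) : S_BK3F := by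
  intro p δ τ c M l₀ l hp hpδ hp3 hy hdet hM hl₀ hll il e1 e2
  obtain ⟨β, γ₃, ε₀, cβ, cγ, c0, c1, o⟩ := os_of hO hE
  have hp0 := hp.pos
  have h3 : ¬ 3 ∣ p := fun h => hp3 ((Nat.prime_dvd_prime_iff_eq Nat.prime_three hp).1 h).symm
  obtain ⟨h0, hc, hsP, hG⟩ := facts hR hy
  obtain ⟨i1, i2⟩ := int_h3 hc h0
  obtain ⟨t, ht, ε, hε, hval'⟩ := hV.2.2.2 p hp0 h3 M τ l₀ hdet hM e1 e2
  rw [← hl₀] at hval'
  have hval : ∀ (k : ℤ) (g g' : ℍ → ℂ), Pt k g g' → val3 k g (mat t) τ = (ε * l) ^ (-k) * g' τ := hval'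
  have ilb := map_isIntegral_int (starRingEnd ℂ) il
  generalize (starRingEnd ℂ) l = lb at hll ilb ⊢
  have hpC : (p : ℂ) ≠ 0 := by exact_mod_cast hp.ne_zero
  have hl0 : l ≠ 0 := by
    intro h
    rw [h, zero_mul] at hll
    exact hpC hll.symm
  have hlb0 : lb ≠ 0 := by
    intro h
    rw [h, mul_zero] at hll
    exact hpC hll.symm
  have hε2 := eps_pow hε
  have hε0 : ε ≠ 0 := by
    intro h
    rw [h] at hε2
    norm_num at hε2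
  have hβ := o.beta_ne hR τ
  have hγ := o.gamma_ne hR τ
  have hD := o.fD τ
  have hF := o.fF τ
  have hβ2 := o.fβ τ
  have hhγ : β τ = gh τ * γ₃ τ := by
    have h5 : γ₃ τ * β τ * (β τ - gh τ * γ₃ τ) = 0 := by
      have h6 : β τ ^ 2 = gh τ * (β τ * γ₃ τ) := by rw [hβ2, hG, hD]
      linear_combination γ₃ τ * h6
    rcases mul_eq_zero.1 h5 with h6 | h6
    · exact absurd h6 (mul_ne_zero hγ hβ)
    · exact sub_eq_zero.1 h6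
  have hxt : gh τ ^ 2 * xx p t τ = lb ^ 12 * 729 := by
    rw [xx_val3 hp0 h3 ht, hval _ _ _ (pt_disc hB)]
    have z1 : (ε * l) ^ (-(2 * 6 : ℤ)) = (l ^ 12)⁻¹ := by
      rw [zpow_neg, show (2 * 6 : ℤ) = ((12 : ℕ) : ℤ) by norm_num, zpow_natCast, mul_pow,
        show (12 : ℕ) = 2 * 6 by norm_num, pow_mul ε, hε2, one_pow, one_mul]
    have z2 : ((-3 : ℂ)) ^ (6 : ℤ) = 729 := by norm_num
    rw [z1, z2, ← hll, hR.2.2.2.2.2.2.2.2.2.2.1 τ, hR.2.2.2.2.2.2.2.2.2.2.2.1 τ, ← hF, ← hβ2, ← hD, hhγ]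
    field_simp
  obtain ⟨pA0, pB0, pA1, pB1⟩ := o.pts hPre hR hC hB p δ
  have hε₀2 := eps_pow o.he
  have hε₀0 : ε₀ ≠ 0 := by
    intro h
    rw [h] at hε₀2
    norm_num at hε₀2
  have hε₀i : ε₀⁻¹ = ε₀ := o.eps_inv
  have hXt : XT β γ₃ p δ τ t =
      ε * ε₀ * l * gh τ * gh τ ^ δ * (gh τ + 27) * ((MM δ c : ℂ) - c ^ δ * l ^ 2) := by
    unfold XT
    rw [hval _ _ _ pB0, hval _ _ _ pB1, phi3_point hc]
    have z1 : (ε * l) ^ (-(-1 : ℤ)) = ε * l := by norm_num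
    have z2 : (ε * l) ^ (-(-3 : ℤ)) = ε * l ^ 3 := by
      rw [show (-(-3 : ℤ)) = ((3 : ℕ) : ℤ) by norm_num, zpow_natCast, mul_pow, pow_succ ε 2, hε2, one_mul]
    have z3 : (gh τ + 27) ^ p = c ^ δ * gh τ ^ δ * (gh τ + 27) := by
      rw [hpδ, pow_succ, pow_mul, hc, mul_pow]
    have z4 : (27 * ε₀ * γ₃ τ)⁻¹ = ε₀ * (27 * γ₃ τ)⁻¹ := by
      rw [mul_assoc, mul_comm ε₀, ← mul_assoc, mul_inv, hε₀i, mul_comm]
    rw [z1, z2, z3]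
    simp only [z4]
    have e3 : gh τ ^ δ * (MM δ c : ℂ) * (gs τ * (γ₃ τ)⁻¹) * (ε * l * (27 * (gP τ * (ε₀ * (27 * γ₃ τ)⁻¹)))) =
        ε * ε₀ * l * gh τ ^ δ * (MM δ c : ℂ) * ((gP τ * gs τ) * (γ₃ τ * γ₃ τ)⁻¹) := by
      field_simp
    have e4 : -1 * (β τ * (c ^ δ * gh τ ^ δ * (gh τ + 27))) * (ε * l ^ 3 * (27 * (ε₀ * (27 * γ₃ τ)⁻¹))) =
        - (ε * ε₀ * l * gh τ ^ δ * (gh τ + 27) * (c ^ δ * l ^ 2)) * (β τ * (γ₃ τ)⁻¹) := by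
      field_simp
    rw [e3, e4, hsP, ← hD, hhγ]
    field_simp
    ring
  have h27 : IsIntegral ℤ (27 : ℂ) := by exact_mod_cast int_cast 27
  have h729 : IsIntegral ℤ (729 : ℂ) := by exact_mod_cast int_cast 729
  have iK : IsIntegral ℤ (729 * (gh τ + 27) * (729 / gh τ) ^ (δ + 1)) :=
    (h729.mul (i1.add h27)).mul (i2.pow _)
  have hKX : 729 * (gh τ + 27) * (729 / gh τ) ^ (δ + 1) * XT β γ₃ p δ τ t =
      729 * c * gh τ * 729 ^ (δ + 1) * ε * ε₀ * l * ((MM δ c : ℂ) - c ^ δ * l ^ 2) := by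
    rw [hXt]
    have e3 : 729 * (gh τ + 27) * (729 / gh τ) ^ (δ + 1) *
        (ε * ε₀ * l * gh τ * gh τ ^ δ * (gh τ + 27) * ((MM δ c : ℂ) - c ^ δ * l ^ 2)) =
        729 * ε * ε₀ * l * ((MM δ c : ℂ) - c ^ δ * l ^ 2) *
          ((gh τ + 27) ^ 2 * (gh τ * gh τ ^ δ * (729 / gh τ) ^ (δ + 1))) := by ring
    rw [e3, hc, div_pow, pow_succ (gh τ)]
    field_simp
  have hxi := hX p hp hp3 τ i1 i2
  have iN : IsIntegral ℤ ((MM δ c : ℂ) - c ^ δ * l ^ 2) :=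
    (int_cast _).sub (((int_cast c).pow _).mul (il.pow _))
  obtain ⟨w, iw, ew⟩ := core (reps p) (XT β γ₃ p δ τ) (fun i => xx p i τ) t ht
    (729 * (gh τ + 27) * (729 / gh τ) ^ (δ + 1)) l lb p hll.symm il iK hxi
    (fun m => by
      obtain ⟨Q₁, Q₂, key⟩ := o.lin hL hH hR hPre hE hRam hC hB hp hp3 hpδ m
      refine ⟨Polynomial.aeval (gh τ) Q₁ + Polynomial.aeval (729 / gh τ) Q₂, ?_, key τ⟩
      exact (int_poly i1 Q₁).add (int_poly i2 Q₂))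
    (fun m hm => by
      obtain ⟨j, rfl⟩ : ∃ j, m = j + 1 := ⟨m - 1, by omega⟩
      refine ⟨c * gh τ * 729 ^ (δ + 1) * ε * ε₀ * l * ((MM δ c : ℂ) - c ^ δ * l ^ 2) *
        (lb ^ 10 * (729 / gh τ) ^ 2 * xx p t τ ^ j), ?_, ?_⟩
      · exact ((((((((int_cast c).mul i1).mul (h729.pow _)).mul (eps_int hε)).mul (eps_int o.he)).mul il).mul
          iN).mul (((ilb.pow _).mul (i2.pow _)).mul ((hxi t ht).pow _)))
      · show _ * XT β γ₃ p δ τ t * xx p t τ ^ (j + 1) = _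
        rw [hKX]
        have e3 : 729 * xx p t τ = lb ^ 12 * (729 / gh τ) ^ 2 := by
          have h5 : gh τ ^ 2 ≠ 0 := pow_ne_zero _ h0
          apply mul_left_cancel₀ h5
          have e4 : gh τ ^ 2 * (729 * xx p t τ) = 729 * (gh τ ^ 2 * xx p t τ) := by ring
          rw [e4, hxt]
          field_simp
          try ring
        have e5 : 729 * c * gh τ * 729 ^ (δ + 1) * ε * ε₀ * l * ((MM δ c : ℂ) - c ^ δ * l ^ 2) *
            xx p t τ ^ (j + 1) =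
            c * gh τ * 729 ^ (δ + 1) * ε * ε₀ * l * ((MM δ c : ℂ) - c ^ δ * l ^ 2) *
              (729 * xx p t τ) * xx p t τ ^ j := by ring
        rw [e5, e3]
        ring)
  obtain ⟨ε₁, hε₁, hpr⟩ := prod_erase hp τ ht
  have hQ : 729 * ∏ i ∈ (reps p).erase t, xx p i τ = ε₁ * l ^ 12 * gh τ ^ 2 := by
    rw [← hll] at hpr
    have h5 : lb ^ 12 ≠ 0 := pow_ne_zero _ hlb0
    apply mul_right_cancel₀ h5
    have e3 : 729 * (∏ i ∈ (reps p).erase t, xx p i τ) * lb ^ 12 =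
        (∏ i ∈ (reps p).erase t, xx p i τ) * (lb ^ 12 * 729) := by ring
    rw [e3, ← hxt]
    have e4 : (∏ i ∈ (reps p).erase t, xx p i τ) * (gh τ ^ 2 * xx p t τ) =
        gh τ ^ 2 * ((∏ i ∈ (reps p).erase t, xx p i τ) * xx p t τ) := by ring
    rw [e4, hpr]
    ring
  rw [hKX] at ew
  refine ⟨ε * ε₀ * ε₁ * (27 * w * (729 / gh τ) ^ 3), ((((eps_int hε).mul (eps_int o.he)).mul
    (eps_int hε₁)).mul ((h27.mul iw).mul (i2.pow _))), ?_⟩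
  have hε₁2 := eps_pow hε₁
  have e6 : lb ^ 2 * (ε * ε₀ * ε₁ * (27 * w * (729 / gh τ) ^ 3)) =
      ε * ε₀ * ε₁ * 27 * (729 / gh τ) ^ 3 * (lb ^ 2 * w) := by ring
  rw [e6, ← ew]
  have e7 : ε * ε₀ * ε₁ * 27 * (729 / gh τ) ^ 3 * ((∏ i ∈ (reps p).erase t, xx p i τ) *
      (729 * c * gh τ * 729 ^ (δ + 1) * ε * ε₀ * l * ((MM δ c : ℂ) - c ^ δ * l ^ 2))) =
      ε * ε₀ * ε₁ * 27 * (729 / gh τ) ^ 3 * ((729 * ∏ i ∈ (reps p).erase t, xx p i τ) *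
      (c * gh τ * 729 ^ (δ + 1) * ε * ε₀ * l * ((MM δ c : ℂ) - c ^ δ * l ^ 2))) := by ring
  rw [e7, hQ]
  have e8 : ε * ε₀ * ε₁ * 27 * (729 / gh τ) ^ 3 * (ε₁ * l ^ 12 * gh τ ^ 2 *
      (c * gh τ * 729 ^ (δ + 1) * ε * ε₀ * l * ((MM δ c : ℂ) - c ^ δ * l ^ 2))) =
      ε ^ 2 * ε₀ ^ 2 * ε₁ ^ 2 * (27 * c * 729 ^ (δ + 1) * l ^ 13 * ((MM δ c : ℂ) - c ^ δ * l ^ 2)) *
        ((729 / gh τ) ^ 3 * gh τ ^ 3) := by ring
  have e9 : (729 / gh τ) ^ 3 * gh τ ^ 3 = 729 ^ 3 := by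
    rw [← mul_pow, div_mul_cancel₀ _ h0]
  rw [e8, e9, hε2, hε₁2, hε₀2]
  ring

end

end Pool.Agent.HS37.C4
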