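import Pool.Agent.HS37.C3.Stm

set_option autoImplicit false

/-! Piece EXP3 of project C3 / C4: expansions of `e`, `s`, `P`, `F`, `G`, `D` (port of `CQ/EXP`). -/

open UpperHalfPlane ModularForm ModularFormClass MatrixGroups EisensteinSeries Complex
open Pool.Agent.HS37.SP Pool.Agent.HS37.CQ

namespace Pool.Agent.HS37.C3

namespace Exp3Piece

lemma bern4 : bernoulli 4 = -1 / 30 := by
  rw [bernoulli_eq_bernoulli'_of_ne_one (by norm_num), bernoulli'_four]

lemma bern2 : bernoulli 2 = 1 / 6 := by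
  rw [bernoulli_eq_bernoulli'_of_ne_one (by norm_num), bernoulli'_two]

lemma bern6 : bernoulli 6 = 1 / 42 := by decide +kernel

lemma eis4 (n : ℕ) : PowerSeries.coeff n (eis 4) =
    if n = 0 then 1 else 240 * (ArithmeticFunction.sigma 3 n : ℂ) := by
  rw [eis, PowerSeries.coeff_mk]
  split_ifs with h
  · rfl
  · rw [bern4]
    push_cast
    norm_num

lemma eis2 (n : ℕ) : PowerSeries.coeff n (eis 2) =
    if n = 0 then 1 else -24 * (ArithmeticFunction.sigma 1 n : ℂ) := by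
  rw [eis, PowerSeries.coeff_mk]
  split_ifs with h
  · rfl
  · rw [bern2]
    push_cast
    norm_num

lemma eis6 (n : ℕ) : PowerSeries.coeff n (eis 6) =
    if n = 0 then 1 else -504 * (ArithmeticFunction.sigma 5 n : ℂ) := by
  rw [eis, PowerSeries.coeff_mk]
  split_ifs with h
  · rfl
  · rw [bern6]
    push_cast
    norm_num

lemma sig_one (k : ℕ) : (ArithmeticFunction.sigma k 1 : ℂ) = 1 := by simp

lemma sig_two (k : ℕ) : (ArithmeticFunction.sigma k 2 : ℂ) = 1 + 2 ^ k := by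
  rw [ArithmeticFunction.sigma_apply, show Nat.divisors 2 = {1, 2} by decide]
  simp

lemma vps_coeff (c : PowerSeries ℂ) (n : ℕ) : PowerSeries.coeff n (vps 3 c) =
    if 3 ∣ n then PowerSeries.coeff (n / 3) c else 0 := by
  rw [vps, PowerSeries.coeff_mk]

lemma congr {g h : ℍ → ℂ} {c d : PowerSeries ℂ} {e f : ℕ} (hg : QExp g e c) (h1 : ∀ τ, g τ = h τ)
    (h2 : c = d) (h3 : e = f) : QExp h f d := by
  have : g = h := funext h1
  rw [← this, ← h2, ← h3]
  exact hg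

lemma ofNatC (n : ℕ) [n.AtLeastTwo] : (OfNat.ofNat n : PowerSeries ℂ) =
    PowerSeries.C (OfNat.ofNat n : ℂ) := (map_ofNat PowerSeries.C n).symm

lemma de_coeff' (n : ℕ) : PowerSeries.coeff n de = 1 / 240 * (PowerSeries.coeff n (eis 4) -
      PowerSeries.coeff n (vps 3 (eis 4))) := by
  rw [de, PowerSeries.coeff_C_mul, map_sub]

lemma ds_coeff' (n : ℕ) : PowerSeries.coeff n ds = 1 / 80 * (81 * PowerSeries.coeff n (vps 3 (eis 4)) -
      PowerSeries.coeff n (eis 4)) := by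
  rw [ds, PowerSeries.coeff_C_mul, map_sub, ofNatC, PowerSeries.coeff_C_mul]

lemma dP_coeff' (n : ℕ) : PowerSeries.coeff n dP = 1 / 2 * (3 * PowerSeries.coeff n (vps 3 (eis 2)) -
      PowerSeries.coeff n (eis 2)) := by
  rw [dP, PowerSeries.coeff_C_mul, map_sub, ofNatC, PowerSeries.coeff_C_mul]

lemma de_coeff (n : ℕ) : ∃ z : ℤ, PowerSeries.coeff n de = z := by
  rw [de_coeff', vps_coeff, eis4, eis4]
  by_cases hn : n = 0
  · subst hn
    exact ⟨0, by simp⟩
  · by_cases h2 : 3 ∣ n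
    · have h5 : n / 3 ≠ 0 := by omega
      rw [if_neg hn, if_pos h2, if_neg h5]
      exact ⟨(ArithmeticFunction.sigma 3 n : ℤ) - (ArithmeticFunction.sigma 3 (n / 3) : ℤ), by
        push_cast; ring⟩
    · rw [if_neg hn, if_neg h2]
      exact ⟨(ArithmeticFunction.sigma 3 n : ℤ), by push_cast; ring⟩

lemma ds_coeff (n : ℕ) : ∃ z : ℤ, PowerSeries.coeff n ds = z := by
  rw [ds_coeff', vps_coeff, eis4, eis4]
  by_cases hn : n = 0
  · subst hn
    exact ⟨1, by simp; norm_num⟩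
  · by_cases h2 : 3 ∣ n
    · have h5 : n / 3 ≠ 0 := by omega
      rw [if_neg hn, if_pos h2, if_neg h5]
      exact ⟨243 * (ArithmeticFunction.sigma 3 (n / 3) : ℤ) -
        3 * (ArithmeticFunction.sigma 3 n : ℤ), by push_cast; ring⟩
    · rw [if_neg hn, if_neg h2]
      exact ⟨-3 * (ArithmeticFunction.sigma 3 n : ℤ), by push_cast; ring⟩

/-- the coefficients of `(P - 1) / 12` -/
lemma dP_coeff12 (n : ℕ) : ∃ z : ℤ, PowerSeries.coeff n dP = (if n = 0 then 1 else 0) + 12 * z := by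
  rw [dP_coeff', vps_coeff, eis2, eis2]
  by_cases hn : n = 0
  · subst hn
    exact ⟨0, by simp; norm_num⟩
  · by_cases h2 : 3 ∣ n
    · have h5 : n / 3 ≠ 0 := by omega
      rw [if_neg hn, if_pos h2, if_neg h5, if_neg hn]
      exact ⟨(ArithmeticFunction.sigma 1 n : ℤ) -
        3 * (ArithmeticFunction.sigma 1 (n / 3) : ℤ), by push_cast; ring⟩
    · rw [if_neg hn, if_neg h2, if_neg hn]
      exact ⟨(ArithmeticFunction.sigma 1 n : ℤ), by push_cast; ring⟩

lemma dP_int (n : ℕ) : ∃ z : ℤ, PowerSeries.coeff n dP = z := by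
  obtain ⟨z, hz⟩ := dP_coeff12 n
  rw [hz]
  split_ifs
  · exact ⟨1 + 12 * z, by push_cast; ring⟩
  · exact ⟨12 * z, by push_cast; ring⟩

lemma dP12_int (n : ℕ) : ∃ z : ℤ, PowerSeries.coeff n (PowerSeries.C (1 / 12 : ℂ) * (dP - 1)) = (z : ℂ) := by
  obtain ⟨z, hz⟩ := dP_coeff12 n
  refine ⟨z, ?_⟩
  rw [PowerSeries.coeff_C_mul, map_sub, hz, PowerSeries.coeff_one]
  split_ifs <;> ring

lemma mul0 (a b : PowerSeries ℂ) : PowerSeries.coeff 0 (a * b) =
    PowerSeries.coeff 0 a * PowerSeries.coeff 0 b := by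
  rw [PowerSeries.coeff_mul]
  simp

lemma mul1 (a b : PowerSeries ℂ) : PowerSeries.coeff 1 (a * b) =
    PowerSeries.coeff 0 a * PowerSeries.coeff 1 b + PowerSeries.coeff 1 a * PowerSeries.coeff 0 b := by
  rw [PowerSeries.coeff_mul, Finset.Nat.antidiagonal_succ]
  simp

lemma mul2 (a b : PowerSeries ℂ) : PowerSeries.coeff 2 (a * b) =
    PowerSeries.coeff 0 a * PowerSeries.coeff 2 b + PowerSeries.coeff 1 a * PowerSeries.coeff 1 b +
      PowerSeries.coeff 2 a * PowerSeries.coeff 0 b := by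
  rw [PowerSeries.coeff_mul, Finset.Nat.sum_antidiagonal_eq_sum_range_succ_mk]
  simp [Finset.sum_range_succ]

lemma e0 : PowerSeries.coeff 0 de = 0 := by
  rw [de_coeff', vps_coeff, eis4]; simp

lemma e1 : PowerSeries.coeff 1 de = 1 := by
  rw [de_coeff', vps_coeff, eis4]; norm_num

lemma e2 : PowerSeries.coeff 2 de = 9 := by
  rw [de_coeff', vps_coeff, eis4, if_neg (by norm_num), if_neg (by norm_num), sig_two]; norm_num

lemma P0 : PowerSeries.coeff 0 dP = 1 := by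
  rw [dP_coeff', vps_coeff, eis2]; norm_num

lemma P1 : PowerSeries.coeff 1 dP = 12 := by
  rw [dP_coeff', vps_coeff, if_neg (by norm_num), eis2, if_neg (by norm_num), sig_one]; norm_num

lemma P2 : PowerSeries.coeff 2 dP = 36 := by
  rw [dP_coeff', vps_coeff, if_neg (by norm_num), eis2, if_neg (by norm_num), sig_two]; norm_num

lemma s0 : PowerSeries.coeff 0 (eis 6) = 1 := by rw [eis6]; simp

lemma s1 : PowerSeries.coeff 1 (eis 6) = -504 := by rw [eis6]; norm_num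

lemma s2 : PowerSeries.coeff 2 (eis 6) = -16632 := by
  rw [eis6, if_neg (by norm_num), sig_two]; norm_num

lemma dF_coeff' (n : ℕ) : PowerSeries.coeff n dF = 1 / 5832 * (PowerSeries.coeff n (dP * dP * dP) -
      540 * PowerSeries.coeff n (de * dP) - PowerSeries.coeff n (eis 6)) := by
  have h : (dP ^ 3 - 540 * de * dP - eis 6 : PowerSeries ℂ) =
      dP * dP * dP - PowerSeries.C (540 : ℂ) * (de * dP) - eis 6 := by
    rw [← ofNatC]; ring
  rw [dF, PowerSeries.coeff_C_mul, h, map_sub, map_sub, PowerSeries.coeff_C_mul]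

lemma F0 : PowerSeries.coeff 0 dF = 0 := by
  rw [dF_coeff', mul0, mul0, mul0, P0, e0, s0]; norm_num

lemma F1 : PowerSeries.coeff 1 dF = 0 := by
  rw [dF_coeff', mul1, mul1, mul0, mul1, P0, P1, e0, e1, s1]; norm_num

lemma F2 : PowerSeries.coeff 2 dF = 1 := by
  rw [dF_coeff', mul2, mul2, mul1, mul0, mul2, P0, P1, P2, e0, e1, e2, s2]; norm_num

end Exp3Piece

open Exp3Piece

theorem t_EXP3 (h3 : S_BAS3) (hb : Pool.Agent.HS37.CQ.S_BAS) (he : S_EIS) (hq : S_QMUL) : S_EXP3 := by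
  obtain ⟨-, -, htr⟩ := h3
  obtain ⟨-, -, -, hE2⟩ := hb
  obtain ⟨⟨-, hE4, -⟩, ⟨-, hE6, -⟩, -⟩ := he
  obtain ⟨hmul, hadd, -, hsc, -, -⟩ := hq
  have hE4d : QExp (fun τ => E₄ (trp τ)) 0 (vps 3 (eis 4)) := htr _ 0 _ hE4
  have hE2d : QExp (fun τ => E2 (trp τ)) 0 (vps 3 (eis 2)) := htr _ 0 _ hE2
  have qe : QExp ge 0 de := by
    refine congr (hsc _ 0 _ (1 / 240) (hadd _ _ 0 _ _ hE4 (hsc _ 0 _ (-1) hE4d))) ?_ ?_ rfl
    · intro τ
      rw [ge]
      ring
    · rw [de, show PowerSeries.C (-1 : ℂ) = -1 by simp]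
      ring
  have qs : QExp gs 0 ds := by
    refine congr (hsc _ 0 _ (1 / 80) (hadd _ _ 0 _ _ (hsc _ 0 _ 81 hE4d) (hsc _ 0 _ (-1) hE4)))
      ?_ ?_ rfl
    · intro τ
      rw [gs]
      ring
    · rw [ds, show PowerSeries.C (-1 : ℂ) = -1 by simp, ← ofNatC]
      ring
  have qP : QExp gP 0 dP := by
    refine congr (hsc _ 0 _ (1 / 2) (hadd _ _ 0 _ _ (hsc _ 0 _ 3 hE2d) (hsc _ 0 _ (-1) hE2)))
      ?_ ?_ rfl
    · intro τ
      rw [gP]
      ring
    · rw [dP, show PowerSeries.C (-1 : ℂ) = -1 by simp, ← ofNatC]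
      ring
  have qP3 : QExp (fun τ => gP τ * gP τ * gP τ) 0 (dP * dP * dP) := hmul _ _ 0 0 _ _ (hmul _ _ 0 0 _ _ qP qP) qP
  have qeP : QExp (fun τ => ge τ * gP τ) 0 (de * dP) := hmul _ _ 0 0 _ _ qe qP
  have qF : QExp gF 0 dF := by
    refine congr (hsc _ 0 _ (1 / 5832) (hadd _ _ 0 _ _ (hadd _ _ 0 _ _ qP3 (hsc _ 0 _ (-540) qeP))
      (hsc _ 0 _ (-1) hE6))) ?_ ?_ rfl
    · intro τ
      rw [gF]
      ring
    · rw [dF, show PowerSeries.C (-1 : ℂ) = -1 by simp, show PowerSeries.C (-540 : ℂ) = -540 by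
        rw [map_neg, ← ofNatC]]
      ring
  have qG : QExp gG 0 dG := by
    refine congr (hadd _ _ 0 _ _ (hadd _ _ 0 _ _ qP3 (hsc _ 0 _ (-54) qeP))
      (hsc _ 0 _ 729 qF)) ?_ ?_ rfl
    · intro τ
      rw [gG]
      ring
    · rw [dG, ← ofNatC, show PowerSeries.C (-54 : ℂ) = -54 by
        rw [map_neg, ← ofNatC]]
      ring
  have qD : QExp gD 0 dD := by
    refine congr (hadd _ _ 0 _ _ qeP (hsc _ 0 _ (-27) qF)) ?_ ?_ rfl
    · intro τ
      rw [gD]
      ring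
    · rw [dD, show PowerSeries.C (-27 : ℂ) = -27 by
        rw [map_neg, ← ofNatC]]
      ring
  refine ⟨qe, qs, qP, qF, qG, qD, de_coeff, ds_coeff, dP_int, dP12_int, e0, e1, e2, ?_, P0, P1, P2,
    F0, F1, F2, ?_, ?_, ?_⟩
  · rw [ds_coeff', vps_coeff, eis4]
    norm_num
  · have h : (dG : PowerSeries ℂ) = dP * dP * dP - PowerSeries.C (54 : ℂ) * (de * dP) +
        PowerSeries.C (729 : ℂ) * dF := by
      rw [dG, ← ofNatC, ← ofNatC]; ring
    rw [h, map_add, map_sub, PowerSeries.coeff_C_mul, PowerSeries.coeff_C_mul, mul0, mul0, mul0,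
      P0, e0, F0]
    norm_num
  · have h : (dD : PowerSeries ℂ) = de * dP - PowerSeries.C (27 : ℂ) * dF := by
      rw [dD, ← ofNatC]
    rw [h, map_sub, PowerSeries.coeff_C_mul, mul0, P0, e0, F0]
    norm_num
  · have h : (dD : PowerSeries ℂ) = de * dP - PowerSeries.C (27 : ℂ) * dF := by
      rw [dD, ← ofNatC]
    rw [h, map_sub, PowerSeries.coeff_C_mul, mul1, P0, P1, e0, e1, F1]
    norm_num

end Pool.Agent.HS37.C3
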