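import Pool.Agent.HS37.C4.Stm
import Pool.Agent.HS37.CV.Fn

/-!
# Project C4, piece FN3: the modular polynomial on the diagonal, level 3
-/

set_option autoImplicit false

open UpperHalfPlane Filter
open scoped Topology
open Pool.Agent.HS37.SP Pool.Agent.HS37.CQ Pool.Agent.HS37.C3 Pool.Agent.HS37.CV
open Pool.Agent.HS37.CV.FNP

namespace Pool.Agent.HS37.C4

noncomputable section

namespace FN3P

theorem val3_zero (g : ℍ → ℂ) (A : Matrix (Fin 2) (Fin 2) ℤ) (τ : ℍ) :
    val3 0 g A τ = val 0 g A τ := by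
  unfold val3 val
  rw [neg_zero, zpow_zero, zpow_zero]

theorem hsum3_zero (N : ℕ) (g : ℍ → ℂ) : hsum3 0 N g = hsum 0 N g := by
  funext τ
  unfold hsum3 hsum
  exact Finset.sum_congr rfl fun t _ => val3_zero g _ τ

theorem hecke_pow (hSYM : S_SYM3) (hHK : S_HK3) (hPRY : S_PRY) (hCLO : S_CLO3)
    {N : ℕ} (hN : 0 < N) (hn3 : ¬ 3 ∣ N) (j : ℕ) : ∃ Q : Polynomial ℤ, ∀ τ : ℍ,
      ∑ t ∈ reps N, val 0 gy (mat t) τ ^ j = Polynomial.aeval (gy τ) Q := by
  obtain ⟨cy, h1, h2, -⟩ := hPRY.2.1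
  have h3 := GEX.qexp_pow h1 j
  have h4 : IsInt (cy ^ j) := by
    rw [isInt_iff] at *
    exact pow_mem h2 j
  obtain ⟨d, hd1, hd2⟩ := hq_int hN h3 h4
  have h5 : Pt 0 (fun τ => gy τ ^ j) (fun τ => gy τ ^ j) := by
    have := hCLO.2.2.2.2.1 0 _ _ j hPRY.1
    rwa [mul_zero] at this
  have h6 := hHK 0 _ _ N hN hn3 h5
  simp only [hsum3_zero, zpow_zero, one_mul] at h6
  obtain ⟨Q, hQ⟩ := hSYM _ _ _ h6 hd1 hd2
  refine ⟨Q, fun τ => ?_⟩
  rw [← hQ τ, hsum]
  refine Finset.sum_congr rfl fun t _ => ?_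
  have h7 := val_pow (κ := 0) gy (A := mat t) τ j
  rw [mul_zero] at h7
  exact h7.symm

theorem power (hSYM : S_SYM3) (hHK : S_HK3) (hPRY : S_PRY) (hCLO : S_CLO3)
    {N : ℕ} (hN : 0 < N) (hn3 : ¬ 3 ∣ N) (m : ℕ) : ∃ Q : Polynomial ℤ, ∀ τ : ℍ,
      ∑ t ∈ reps N, (gy τ - val 0 gy (mat t) τ) ^ m = Polynomial.aeval (gy τ) Q := by
  choose Q hQ using hecke_pow hSYM hHK hPRY hCLO hN hn3
  refine ⟨∑ j ∈ Finset.range (m + 1), Polynomial.X ^ j * ((-1) ^ (m - j) * Q (m - j)) *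
    (m.choose j : Polynomial ℤ), fun τ => ?_⟩
  have h1 : ∀ t ∈ reps N, (gy τ - val 0 gy (mat t) τ) ^ m = ∑ j ∈ Finset.range (m + 1),
      gy τ ^ j * ((-1) ^ (m - j) * val 0 gy (mat t) τ ^ (m - j)) * (m.choose j : ℂ) := by
    intro t _
    rw [sub_eq_add_neg, add_pow]
    refine Finset.sum_congr rfl fun j _ => ?_
    rw [neg_pow]
  rw [Finset.sum_congr rfl h1, Finset.sum_comm, map_sum]
  refine Finset.sum_congr rfl fun j _ => ?_
  rw [map_mul, map_mul, map_mul, map_pow, map_pow, map_neg, map_one, Polynomial.aeval_X,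
    map_natCast, ← hQ (m - j) τ, ← Finset.sum_mul, ← Finset.mul_sum, ← Finset.mul_sum]

theorem term_tendsto (hPRY : S_PRY) {N : ℕ} (hp : N.Prime)
    {t : ℕ × ℕ × ℕ} (ht : t ∈ reps N) :
    Tendsto (fun τ : ℍ => (gy τ - val 0 gy (mat t) τ) * qq τ ^ (if t.1 = 1 then 1 else N))
      atImInfty (𝓝 (if t.1 = 1 then 1 else -1)) := by
  obtain ⟨cy, h1, -, h3⟩ := hPRY.2.1
  have h2 : QExp (fun τ : ℍ => qq τ * gy τ) 0 cy := by
    intro τ
    have := h1 τ
    rw [pow_one] at this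
    rwa [pow_zero, one_mul]
  have h4 := tendsto_of_qexp h2
  rw [h3] at h4
  have h5 := h4.comp (PRODP.sg_tendsto hp.pos ht)
  have h6 : Tendsto (fun τ : ℍ => qq (PRODP.sg t τ)) atImInfty (𝓝 0) :=
    qq_tendsto.comp (PRODP.sg_tendsto hp.pos ht)
  have hm := (mem_reps hp.pos).mp ht
  have hN2 := hp.two_le
  by_cases h : t.1 = 1
  · rw [if_pos h, if_pos h]
    have hd : t.2.2 = N := by
      have := hm.1
      rw [h, one_mul] at this
      exact this
    have h7 := h4.sub (h5.mul (h6.pow (N - 1)))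
    rw [zero_pow (by omega), mul_zero, sub_zero] at h7
    refine h7.congr fun τ => ?_
    have h8 := qq_sg hp.pos ht τ
    rw [hd, h, pow_one] at h8
    rw [val_zero, pow_one, ← h8]
    simp only [Function.comp_apply]
    obtain ⟨n, rfl⟩ : ∃ n, N = n + 1 := ⟨N - 1, by omega⟩
    rw [Nat.add_sub_cancel, h8]
    have h9 : qq τ = qq (PRODP.sg t τ) ^ n * qq (PRODP.sg t τ) := by rw [← pow_succ, h8]
    linear_combination (gy (PRODP.sg t τ)) * h9
  · rw [if_neg h, if_neg h]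
    have ha : t.1 = N := by
      rcases (Nat.dvd_prime hp).mp (Dvd.intro _ hm.1) with h' | h'
      · exact absurd h' h
      · exact h'
    have hd : t.2.2 = 1 := by
      have := hm.1
      rw [ha] at this
      exact Nat.eq_of_mul_eq_mul_left hp.pos (by rw [this, mul_one])
    have h7 := (h4.mul (qq_tendsto.pow (N - 1))).sub h5
    rw [zero_pow (by omega), mul_zero, zero_sub] at h7
    refine h7.congr fun τ => ?_
    have h8 := qq_sg hp.pos ht τ
    rw [hd, ha, pow_one] at h8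
    rw [val_zero]
    simp only [Function.comp_apply]
    rw [h8]
    obtain ⟨n, rfl⟩ : ∃ n, N = n + 1 := ⟨N - 1, by omega⟩
    rw [Nat.add_sub_cancel]
    ring

theorem prod_tendsto (hPRY : S_PRY) {N : ℕ} (hp : N.Prime) :
    Tendsto (fun τ : ℍ => (∏ t ∈ reps N, (gy τ - val 0 gy (mat t) τ)) * qq τ ^ (2 * N))
      atImInfty (𝓝 (-1)) := by
  have h1 := tendsto_finsetProd (reps N) (fun t ht => term_tendsto hPRY hp ht)
  have h2 : (∏ t ∈ reps N, (if t.1 = 1 then (1 : ℂ) else -1)) = -1 := by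
    rw [Finset.prod_ite, Finset.prod_const_one, one_mul, Finset.prod_const, card_not_one hp,
      pow_one]
  have h3 : ∑ t ∈ reps N, (if t.1 = 1 then 1 else N) = 2 * N := by
    rw [Finset.sum_ite, Finset.sum_const, Finset.sum_const, card_one hp, card_not_one hp]
    simp
    ring
  rw [h2] at h1
  refine h1.congr fun τ => ?_
  rw [Finset.prod_mul_distrib, Finset.prod_pow_eq_pow_sum, h3]

theorem poly_tendsto (hPRY : S_PRY) (F : Polynomial ℚ) :
    Tendsto (fun τ : ℍ => Polynomial.aeval (gy τ) F * qq τ ^ F.natDegree) atImInfty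
      (𝓝 (F.leadingCoeff : ℂ)) := by
  obtain ⟨cy, h1, -, h3⟩ := hPRY.2.1
  have h2 : QExp (fun τ : ℍ => qq τ * gy τ) 0 cy := by
    intro τ
    have := h1 τ
    rw [pow_one] at this
    rwa [pow_zero, one_mul]
  have h4 := tendsto_of_qexp h2
  rw [h3] at h4
  have h5 : Tendsto (fun τ : ℍ => ∑ i ∈ Finset.range (F.natDegree + 1),
      (F.coeff i : ℂ) * ((qq τ * gy τ) ^ i * qq τ ^ (F.natDegree - i))) atImInfty
      (𝓝 (∑ i ∈ Finset.range (F.natDegree + 1),
        (F.coeff i : ℂ) * ((1 : ℂ) ^ i * (0 : ℂ) ^ (F.natDegree - i)))) :=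
    tendsto_finsetSum _ fun i _ => ((h4.pow i).mul (qq_tendsto.pow _)).const_mul _
  have h6 : ∑ i ∈ Finset.range (F.natDegree + 1),
      (F.coeff i : ℂ) * ((1 : ℂ) ^ i * (0 : ℂ) ^ (F.natDegree - i)) = (F.leadingCoeff : ℂ) := by
    rw [Finset.sum_range_succ, Finset.sum_eq_zero, zero_add, Nat.sub_self, pow_zero, one_pow,
      mul_one, mul_one]
    · rfl
    · intro i hi
      rw [Finset.mem_range] at hi
      rw [zero_pow (by omega), mul_zero, mul_zero]
  rw [h6] at h5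
  refine h5.congr fun τ => ?_
  rw [Polynomial.aeval_eq_sum_range, Finset.sum_mul]
  refine Finset.sum_congr rfl fun i hi => ?_
  rw [Finset.mem_range] at hi
  have h7 : qq τ ^ F.natDegree = qq τ ^ i * qq τ ^ (F.natDegree - i) := by
    rw [← pow_add]
    congr 1
    omega
  rw [h7, mul_pow, Algebra.smul_def]
  simp only [eq_ratCast]
  ring

end FN3P

open FN3P

theorem t_FN3 (hSYM : S_SYM3) (hHK : S_HK3) (hPRY : S_PRY) (hCLO : S_CLO3) :
    S_FN3 := by
  intro N hp h2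
  have hn3 : ¬ 3 ∣ N := fun h => h2 ((Nat.prime_dvd_prime_iff_eq Nat.prime_three hp).mp h).symm
  have hpow := power hSYM hHK hPRY hCLO hp.pos hn3
  obtain ⟨F, hF⟩ := newton (T := {t // t ∈ reps N}) gy
    (fun t τ => gy τ - val 0 gy (mat t.1) τ) (fun m => by
      obtain ⟨Q, hQ⟩ := hpow m
      refine ⟨Q, fun τ => ?_⟩
      rw [← hQ τ]
      exact Finset.sum_coe_sort (reps N) (fun t => (gy τ - val 0 gy (mat t) τ) ^ m))
    (Fintype.card {t // t ∈ reps N})
  have hF' : ∀ τ : ℍ, Polynomial.aeval (gy τ) F =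
      ∏ t ∈ reps N, (gy τ - val 0 gy (mat t) τ) := by
    intro τ
    rw [← hF τ, esymm_card]
    exact Finset.prod_coe_sort (reps N) (fun t => gy τ - val 0 gy (mat t) τ)
  have k1 := prod_tendsto hPRY hp
  have k2 := poly_tendsto hPRY F
  simp only [← hF'] at k1
  have hdeg : F.natDegree = 2 * N := by
    rcases lt_trichotomy F.natDegree (2 * N) with h | h | h
    · exfalso
      have k3 := k2.mul (qq_tendsto.pow (2 * N - F.natDegree))
      rw [zero_pow (by omega), mul_zero] at k3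
      have k4 := tendsto_nhds_unique (k1.congr fun τ => by
        show _ = Polynomial.aeval (gy τ) F * qq τ ^ F.natDegree * qq τ ^ (2 * N - F.natDegree)
        rw [mul_assoc, ← pow_add, Nat.add_sub_cancel' h.le]) k3
      norm_num at k4
    · exact h
    · exfalso
      have k3 := k1.mul (qq_tendsto.pow (F.natDegree - 2 * N))
      rw [zero_pow (by omega), mul_zero] at k3
      have k4 := tendsto_nhds_unique (k2.congr fun τ => by
        show _ = Polynomial.aeval (gy τ) F * qq τ ^ (2 * N) * qq τ ^ (F.natDegree - 2 * N)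
        rw [mul_assoc, ← pow_add, Nat.add_sub_cancel' h.le]) k3
      have k5 : F.leadingCoeff = 0 := by exact_mod_cast k4
      rw [Polynomial.leadingCoeff_eq_zero] at k5
      rw [k5, Polynomial.natDegree_zero] at h
      omega
  refine ⟨F, hdeg, ?_, hF', hpow⟩
  rw [hdeg] at k2
  have k4 := tendsto_nhds_unique k2 k1
  exact_mod_cast k4

end

end Pool.Agent.HS37.C4
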