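import Pool.Agent.HS37.C4.Stm

/-!
Piece FD3 of project C4 (helper28): port of `CV/FDK` (helper45).
-/

set_option autoImplicit false

open UpperHalfPlane ModularForm ModularFormClass MatrixGroups EisensteinSeries Complex
open Pool.Agent.HS37.SP Pool.Agent.HS37.CQ Pool.Agent.HS37.C3

namespace Pool.Agent.HS37.C4

noncomputable section

/-- `w / 3` -/
def fd3Third (w : ℍ) : ℍ := ofComplex ((w : ℂ) / 3)

theorem fd3Third_coe (w : ℍ) : ((fd3Third w : ℍ) : ℂ) = (w : ℂ) / 3 := by
  have h : 0 < ((w : ℂ) / 3).im := by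
    have e : ((w : ℂ) / 3).im = w.im / 3 := by
      rw [show (w : ℂ) / 3 = (w : ℂ) / ((3 : ℝ) : ℂ) by norm_num, Complex.div_ofReal_im]
      rfl
    rw [e]
    exact div_pos w.im_pos (by norm_num)
  rw [fd3Third, ofComplex_apply_of_im_pos h]

theorem fd3Third_im (w : ℍ) : (fd3Third w).im = w.im / 3 := by
  have h := congrArg Complex.im (fd3Third_coe w)
  rw [show (w : ℂ) / 3 = (w : ℂ) / ((3 : ℝ) : ℂ) by norm_num, Complex.div_ofReal_im] at h
  exact h

theorem fd3Third_re (w : ℍ) : (fd3Third w).re = w.re / 3 := by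
  have h := congrArg Complex.re (fd3Third_coe w)
  rw [show (w : ℂ) / 3 = (w : ℂ) / ((3 : ℝ) : ℂ) by norm_num, Complex.div_ofReal_re] at h
  exact h

theorem fri3_fd3Third (w : ℍ) : fri3 (fd3Third w) = ModularGroup.S • w := by
  rw [fri3, fd3Third_coe, modular_S_smul]
  have e : -1 / (3 * ((w : ℂ) / 3)) = (-(w : ℂ))⁻¹ := by
    rw [mul_div_cancel₀ _ (three_ne_zero), neg_div, one_div, inv_neg]
  rw [e, ofComplex_apply_of_im_pos]

theorem t_FD3 (hP : S_PRY) : S_FD3 := by
  have hy := hP.1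
  have h1 : ∀ (γ : SL(2, ℤ)) (τ : ℍ), (3 : ℤ) ∣ γ 1 0 → gy (γ • τ) = gy τ := by
    intro γ τ h
    have := hy.sl γ τ h
    rw [zpow_zero, one_mul] at this
    exact this
  have h2 : ∀ τ : ℍ, gy (fri3 τ) = gy τ := by
    intro τ
    have := hy.fr τ
    rw [zpow_zero, one_mul] at this
    exact this
  have h3 : ∀ (γ : SL(2, ℤ)) (w : ℍ), (3 : ℤ) ∣ γ 1 1 → gy (γ • w) = gy (fd3Third w) := by
    intro γ w h
    have hδ : (γ * ModularGroup.S⁻¹) * ModularGroup.S = γ := by group
    have e : (3 : ℤ) ∣ (γ * ModularGroup.S⁻¹) 1 0 := by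
      have h4 := congrArg (fun m : SL(2, ℤ) => m 1 1) hδ
      simp only [Matrix.SpecialLinearGroup.coe_mul, ModularGroup.coe_S, Matrix.mul_apply, Fin.sum_univ_two] at h4
      simp only [Matrix.of_apply, Matrix.cons_val', Matrix.cons_val_zero, Matrix.cons_val_one,
        Matrix.cons_val_fin_one] at h4
      rw [← h4] at h
      simp only [mul_neg, mul_one, mul_zero, add_zero, dvd_neg] at h
      simpa only [Matrix.SpecialLinearGroup.coe_mul, Matrix.mul_apply, Fin.sum_univ_two] using h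
    have h5 := h1 _ (ModularGroup.S • w) e
    rw [← mul_smul, hδ, ← fri3_fd3Third, h2] at h5
    exact h5
  intro τ
  obtain ⟨g, hg⟩ := ModularGroup.exists_smul_mem_fd τ
  have him := ModularGroup.three_le_four_mul_im_sq_of_mem_fd hg
  have hre := hg.2
  set z : ℍ := g • τ with hz
  have hτ : g⁻¹ • z = τ := by rw [hz, inv_smul_smul]
  by_cases hc : (3 : ℤ) ∣ (g⁻¹ : SL(2, ℤ)) 1 0
  · refine ⟨z, ?_, by linarith, by linarith⟩
    rw [← hτ, h1 _ _ hc]
  · by_cases hd : (3 : ℤ) ∣ (g⁻¹ : SL(2, ℤ)) 1 1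
    · refine ⟨fd3Third z, ?_, ?_, ?_⟩
      · rw [← hτ, h3 _ _ hd]
      · rw [fd3Third_im]
        nlinarith
      · rw [fd3Third_re, abs_div, abs_of_pos (by norm_num : (0 : ℝ) < 3)]
        linarith [abs_nonneg z.re]
    · by_cases hd2 : (3 : ℤ) ∣ (g⁻¹ : SL(2, ℤ)) 1 1 - (g⁻¹ : SL(2, ℤ)) 1 0
      · have hδ : (g⁻¹ * ModularGroup.T⁻¹) * ModularGroup.T = g⁻¹ := by group
        have e : (3 : ℤ) ∣ (g⁻¹ * ModularGroup.T⁻¹ : SL(2, ℤ)) 1 1 := by
          have h4 := congrArg (fun m : SL(2, ℤ) => m 1 1) hδ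
          have h5 := congrArg (fun m : SL(2, ℤ) => m 1 0) hδ
          simp only [Matrix.SpecialLinearGroup.coe_mul (g⁻¹ * ModularGroup.T⁻¹), ModularGroup.coe_T, Matrix.mul_apply,
            Fin.sum_univ_two] at h4 h5
          simp only [Matrix.of_apply, Matrix.cons_val', Matrix.cons_val_zero, Matrix.cons_val_one,
            Matrix.cons_val_fin_one, mul_one, mul_zero, add_zero] at h4 h5
          generalize (g⁻¹ * ModularGroup.T⁻¹ : SL(2, ℤ)) = δ at h4 h5 ⊢
          omega
        refine ⟨fd3Third (ModularGroup.T • z), ?_, ?_, ?_⟩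
        · have h5 := h3 _ (ModularGroup.T • z) e
          rw [← mul_smul, hδ, hτ] at h5
          exact h5.symm
        · rw [fd3Third_im, modular_T_smul, vadd_im]
          nlinarith
        · rw [fd3Third_re, modular_T_smul, vadd_re, abs_div, abs_of_pos (by norm_num : (0 : ℝ) < 3)]
          have := abs_add_le 1 z.re
          rw [abs_one] at this
          linarith
      · have hδ : (g⁻¹ * ModularGroup.T) * ModularGroup.T⁻¹ = g⁻¹ := by group
        have e : (3 : ℤ) ∣ (g⁻¹ * ModularGroup.T : SL(2, ℤ)) 1 1 := by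
          have h4 : (g⁻¹ * ModularGroup.T : SL(2, ℤ)) 1 1 = (g⁻¹ : SL(2, ℤ)) 1 0 + (g⁻¹ : SL(2, ℤ)) 1 1 := by
            simp only [Matrix.SpecialLinearGroup.coe_mul, ModularGroup.coe_T, Matrix.mul_apply, Fin.sum_univ_two]
            simp only [Matrix.of_apply, Matrix.cons_val', Matrix.cons_val_zero, Matrix.cons_val_one,
              Matrix.cons_val_fin_one, mul_one]
          rw [h4]
          generalize (g⁻¹ : SL(2, ℤ)) 1 1 = d at hd hd2 ⊢
          generalize (g⁻¹ : SL(2, ℤ)) 1 0 = c at hc hd2 ⊢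
          have hc' : c % 3 = 1 ∨ c % 3 = 2 := by omega
          have hd' : d % 3 = 1 ∨ d % 3 = 2 := by omega
          rcases hc' with hc' | hc' <;> rcases hd' with hd' | hd' <;> omega
        refine ⟨fd3Third (ModularGroup.T⁻¹ • z), ?_, ?_, ?_⟩
        · have h5 := h3 _ (ModularGroup.T⁻¹ • z) e
          rw [← mul_smul, hδ, hτ] at h5
          exact h5.symm
        · rw [fd3Third_im, ModularGroup.im_T_inv_smul]
          nlinarith
        · rw [fd3Third_re, ModularGroup.re_T_inv_smul, abs_div, abs_of_pos (by norm_num : (0 : ℝ) < 3)]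
          have := abs_sub z.re 1
          rw [abs_one] at this
          linarith

end

end Pool.Agent.HS37.C4
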