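import Pool.Agent.HS37.C4.Stm

/-!
# Project C4: assembly
-/

set_option autoImplicit false

open UpperHalfPlane ModularForm ModularFormClass MatrixGroups EisensteinSeries Complex
open Pool.Agent.HS37.SP Pool.Agent.HS37.CQ Pool.Agent.HS37.C3

namespace Pool.Agent.HS37.C4

/-- `c = -48³` -/
def cL : ℤ := -110592

lemma cL_eq : cL = - (2 ^ 12 * 3 ^ 3) := by
  unfold cL
  norm_num

lemma coe_tauL : ((tauL : ℍ) : ℂ) = (3 + Complex.I * ((Real.sqrt 123 : ℝ) : ℂ)) / 6 := by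
  unfold tauL
  rw [ofComplex_apply_of_im_pos]
  have h : ((3 + Complex.I * ((Real.sqrt 123 : ℝ) : ℂ)) / 6).im = Real.sqrt 123 / 6 := by
    rw [show (6 : ℂ) = ((6 : ℝ) : ℂ) by norm_num, Complex.div_ofReal_im]
    simp
  rw [h]
  positivity

/-- `s = √-123` -/
noncomputable def sL : ℂ := Complex.I * ((Real.sqrt 123 : ℝ) : ℂ)

lemma sL_sq : sL ^ 2 = -123 := by
  unfold sL
  rw [mul_pow, Complex.I_sq]
  have h : ((Real.sqrt 123 : ℝ) : ℂ) ^ 2 = 123 := by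
    have := Real.sq_sqrt (show (0 : ℝ) ≤ 123 by norm_num)
    exact_mod_cast congrArg (fun x : ℝ => (x : ℂ)) this
  rw [h]
  ring

lemma sL_conj : (starRingEnd ℂ) sL = - sL := by
  unfold sL
  rw [map_mul, Complex.conj_I, Complex.conj_ofReal]
  ring

lemma tauL_eq : ((tauL : ℍ) : ℂ) = (3 + sL) / 6 := coe_tauL

/-- `√3` -/
noncomputable def rr : ℂ := ((Real.sqrt 3 : ℝ) : ℂ)

lemma rr_sq : rr ^ 2 = 3 := by
  unfold rr
  have := Real.sq_sqrt (show (0 : ℝ) ≤ 3 by norm_num)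
  exact_mod_cast congrArg (fun x : ℝ => (x : ℂ)) this

lemma rr_conj : (starRingEnd ℂ) rr = rr := Complex.conj_ofReal _

/-- the full sum -/
def SL (p : ℕ) (c : ℤ) : ℤ := ∑ k ∈ Finset.range p, (vv k : ℤ) * c ^ (p - 1 - k)

lemma SL_half (hU : S_UDV3) {p δ : ℕ} (hp : p.Prime) (hpδ : p = 2 * δ + 1) (c : ℤ) :
    (p : ℤ) ^ 2 ∣ SL p c - c ^ δ * MM δ c := by
  have h2 : p ≠ 2 := by omega
  have hsub : Finset.range (δ + 1) ⊆ Finset.range p := by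
    intro i hi
    rw [Finset.mem_range] at hi ⊢
    omega
  unfold SL MM
  rw [← Finset.sum_sdiff hsub, Finset.mul_sum]
  have e : ∑ n ∈ Finset.range (δ + 1), c ^ δ * ((vv n : ℤ) * c ^ (δ - n)) =
      ∑ k ∈ Finset.range (δ + 1), (vv k : ℤ) * c ^ (p - 1 - k) := by
    apply Finset.sum_congr rfl
    intro n hn
    rw [Finset.mem_range] at hn
    have : p - 1 - n = δ + (δ - n) := by omega
    rw [this, pow_add]
    ring
  rw [e, add_sub_cancel_right]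
  apply Finset.dvd_sum
  intro k hk
  rw [Finset.mem_sdiff, Finset.mem_range, Finset.mem_range] at hk
  apply Dvd.dvd.mul_right
  have := hU.1 p k hp h2 hk.1 (by omega)
  exact_mod_cast this

lemma SL_third (hU : S_UDV3) {p : ℕ} (hp : p.Prime) (h3 : 3 < p) (c : ℤ)
    (h : (p : ℤ) ∣ MM (p / 3) c) : (p : ℤ) ∣ SL p c := by
  have hsub : Finset.range (p / 3 + 1) ⊆ Finset.range p := by
    intro i hi
    rw [Finset.mem_range] at hi ⊢
    omega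
  have hn3 : p % 3 ≠ 0 := by
    intro h0
    have h4 : 3 ∣ p := Nat.dvd_of_mod_eq_zero h0
    have h5 := (Nat.prime_dvd_prime_iff_eq Nat.prime_three hp).1 h4
    omega
  unfold SL
  rw [← Finset.sum_sdiff hsub]
  apply dvd_add
  · apply Finset.dvd_sum
    intro k hk
    rw [Finset.mem_sdiff, Finset.mem_range, Finset.mem_range] at hk
    apply Dvd.dvd.mul_right
    have := hU.2.1 p k hp h3 hk.1 (by omega)
    exact_mod_cast this
  · have e : ∑ k ∈ Finset.range (p / 3 + 1), (vv k : ℤ) * c ^ (p - 1 - k) =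
        c ^ (p - 1 - p / 3) * MM (p / 3) c := by
      unfold MM
      rw [Finset.mul_sum]
      apply Finset.sum_congr rfl
      intro n hn
      rw [Finset.mem_range] at hn
      have : p - 1 - n = (p - 1 - p / 3) + (p / 3 - n) := by omega
      rw [this, pow_add]
      ring
    rw [e]
    exact Dvd.dvd.mul_left h _

lemma full_of_half (hU : S_UDV3) {p δ : ℕ} (hp : p.Prime) (hpδ : p = 2 * δ + 1) {c T : ℤ}
    (h : (p : ℤ) ^ 2 ∣ MM δ c - c ^ δ * T) : (p : ℤ) ^ 2 ∣ SL p c - c ^ (p - 1) * T := by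
  have h1 := SL_half hU hp hpδ c
  have e : SL p c - c ^ (p - 1) * T = (SL p c - c ^ δ * MM δ c) + c ^ δ * (MM δ c - c ^ δ * T) := by
    have : p - 1 = δ + δ := by omega
    rw [this, pow_add]
    ring
  rw [e]
  exact dvd_add h1 (Dvd.dvd.mul_left h _)

lemma prime_ndvd {p : ℕ} (hp : p.Prime) {q : ℕ} (hq : q.Prime) (hne : p ≠ q) : ¬ (p : ℤ) ∣ (q : ℤ) := by
  intro h
  have h1 : p ∣ q := by exact_mod_cast h
  exact hne ((Nat.prime_dvd_prime_iff_eq hp hq).1 h1)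

lemma ndvd2 {p : ℕ} (hp : p.Prime) (hp3 : 3 < p) : ¬ (p : ℤ) ∣ 2 := by
  have := prime_ndvd hp (q := 2) Nat.prime_two (by omega)
  exact_mod_cast this

lemma ndvd3 {p : ℕ} (hp : p.Prime) (hp3 : 3 < p) : ¬ (p : ℤ) ∣ 3 := by
  have := prime_ndvd hp (q := 3) Nat.prime_three (by omega)
  exact_mod_cast this

lemma ndvd5 {p : ℕ} (hp : p.Prime) (hp5 : p ≠ 5) : ¬ (p : ℤ) ∣ 5 := by
  have := prime_ndvd hp (q := 5) (by norm_num) hp5
  exact_mod_cast this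

lemma ndvd23 {p : ℕ} (hp : p.Prime) (hp5 : p ≠ 23) : ¬ (p : ℤ) ∣ 23 := by
  have := prime_ndvd hp (q := 23) (by norm_num) hp5
  exact_mod_cast this

lemma ndvd41 {p : ℕ} (hp : p.Prime) (hp5 : p ≠ 41) : ¬ (p : ℤ) ∣ 41 := by
  have := prime_ndvd hp (q := 41) (by norm_num) hp5
  exact_mod_cast this

lemma cL_unit {p : ℕ} (hp : p.Prime) (hp3 : 3 < p) : ¬ (p : ℤ) ∣ cL := by
  have hpZ : Prime (p : ℤ) := Nat.prime_iff_prime_int.1 hp
  have h2 : ¬ (p : ℤ) ∣ 2 := ndvd2 hp hp3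
  have h3 : ¬ (p : ℤ) ∣ 3 := ndvd3 hp hp3
  intro h
  rw [cL_eq, dvd_neg] at h
  rcases hpZ.dvd_or_dvd h with h4 | h4
  · exact h2 (hpZ.dvd_of_dvd_pow h4)
  · exact h3 (hpZ.dvd_of_dvd_pow h4)

lemma K_unit {p : ℕ} (hp : p.Prime) (hp3 : 3 < p) (m : ℕ) : ¬ (p : ℤ) ∣ 27 * cL * 729 ^ m := by
  have hpZ : Prime (p : ℤ) := Nat.prime_iff_prime_int.1 hp
  have h3 : ¬ (p : ℤ) ∣ 3 := ndvd3 hp hp3
  intro h
  rcases hpZ.dvd_or_dvd h with h4 | h4
  · rcases hpZ.dvd_or_dvd h4 with h5 | h5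
    · have : (27 : ℤ) = 3 ^ 3 := by norm_num
      rw [this] at h5
      exact h3 (hpZ.dvd_of_dvd_pow h5)
    · exact cL_unit hp hp3 h5
  · have h5 := hpZ.dvd_of_dvd_pow h4
    have : (729 : ℤ) = 3 ^ 6 := by norm_num
    rw [this] at h5
    exact h3 (hpZ.dvd_of_dvd_pow h5)

lemma parity {x y : ℤ} (h : (x ^ 2 + 3 * y ^ 2) % 4 = 0 ∨ (3 * x ^ 2 + y ^ 2) % 4 = 0) : x % 2 = y % 2 := by
  rcases Int.even_or_odd' x with ⟨a, rfl | rfl⟩ <;> rcases Int.even_or_odd' y with ⟨b, rfl | rfl⟩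
  · omega
  · exfalso
    ring_nf at h
    omega
  · exfalso
    ring_nf at h
    omega
  · omega

/-- type one: `4 p = x² + 123 y²` -/
lemma type_oneL (hB : S_BK3) (hX : S_EXT3) (hE : gP tauL ^ 3 = (cL : ℂ) * gD tauL) {p δ : ℕ}
    (hp : p.Prime) (hpδ : p = 2 * δ + 1) (hp3 : 3 < p) (hp41 : p ≠ 41) {x y : ℤ}
    (hxy : x ^ 2 + 123 * y ^ 2 = 4 * p) :
    (p : ℤ) ^ 2 ∣ MM δ cL - cL ^ δ * (x ^ 2 - 2 * p) := by
  have hpZ : Prime (p : ℤ) := Nat.prime_iff_prime_int.1 hp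
  have h2 : ¬ (p : ℤ) ∣ 2 := ndvd2 hp hp3
  have h3 : ¬ (p : ℤ) ∣ 3 := ndvd3 hp hp3
  have h41 : ¬ (p : ℤ) ∣ 41 := ndvd41 hp hp41
  have hs := sL_sq
  obtain ⟨d, hd⟩ : ∃ d : ℤ, x - 3 * y = 2 * d := by
    have h1 : x % 2 = y % 2 := parity (Or.inl (by omega))
    exact ⟨(x - 3 * y) / 2, by omega⟩
  obtain ⟨l, hl⟩ : ∃ l : ℂ, l = (x + y * sL) / 2 := ⟨_, rfl⟩
  have hlc : (starRingEnd ℂ) l = (x - y * sL) / 2 := by
    rw [hl]
    simp only [map_add, map_mul, map_intCast, sL_conj, map_div₀]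
    have h2 : (starRingEnd ℂ) (2 : ℂ) = 2 := by
      have := Complex.conj_ofReal 2
      exact_mod_cast this
    rw [h2]
    ring
  have hxyC : (x : ℂ) ^ 2 + 123 * y ^ 2 = 4 * p := by exact_mod_cast hxy
  have hdC : (x : ℂ) - 3 * y = 2 * d := by exact_mod_cast hd
  have hll : l * (starRingEnd ℂ) l = p := by
    rw [hlc, hl]
    linear_combination (1 / 4 : ℂ) * hxyC - (1 / 4 : ℂ) * (y : ℂ) ^ 2 * hs
  have hli : IsIntegral ℤ l := by
    refine ⟨Polynomial.X ^ 2 + Polynomial.C (-x) * Polynomial.X + Polynomial.C (p : ℤ), ?_, ?_⟩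
    · monicity!
    · simp only [Polynomial.eval₂_add, Polynomial.eval₂_mul, Polynomial.eval₂_pow,
        Polynomial.eval₂_X, Polynomial.eval₂_C]
      simp
      rw [hl]
      linear_combination (-1 / 4 : ℂ) * hxyC + (1 / 4 : ℂ) * (y : ℂ) ^ 2 * hs
  have hdet : (d + 3 * y) * d - -(11 * y) * (3 * y) = p := by
    have : 4 * ((d + 3 * y) * d - -(11 * y) * (3 * y)) = 4 * (p : ℤ) := by
      linear_combination hxy + (-(x + 3 * y) - 2 * d) * hd + (-6 * y) * hd + 6 * y * hd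
    linarith
  obtain ⟨w, hw, hww⟩ := hB p δ tauL cL !![d + 3 * y, -(11 * y); 3 * y, d] l hp hpδ (by omega) hE
    (by rw [Matrix.det_fin_two_of]; exact hdet) (by simp) hll hli
    (by simp; rw [tauL_eq, hl]; linear_combination (-(y : ℂ) / 12) * hs - (1 / 2 : ℂ) * ((3 + sL) / 6) * hdC)
    (by simp; rw [tauL_eq, hl]; linear_combination (-(1 / 2) : ℂ) * hdC)
  refine hX p 13 (MM δ cL) (x ^ 2 - 2 * p) (27 * cL * 729 ^ (δ + 1)) (cL ^ δ) l w hp hw hli ?_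
    (K_unit hp hp3 _) ?_ hll ?_
  · intro h
    have h4 : (p : ℤ) ∣ x ^ 2 := by
      have : x ^ 2 = (x ^ 2 - 2 * p) + p * 2 := by ring
      rw [this]
      exact dvd_add h (Dvd.intro _ rfl)
    have h5 : (p : ℤ) ∣ x := hpZ.dvd_of_dvd_pow h4
    obtain ⟨x', rfl⟩ := h5
    have h6 : (p : ℤ) ∣ 3 * (41 * y ^ 2) := ⟨4 - p * x' ^ 2, by linear_combination hxy⟩
    have h7 : (p : ℤ) ∣ y := by
      rcases hpZ.dvd_or_dvd h6 with h8 | h8
      · exact absurd h8 h3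
      · rcases hpZ.dvd_or_dvd h8 with h9 | h9
        · exact absurd h9 h41
        · exact hpZ.dvd_of_dvd_pow h9
    obtain ⟨b', rfl⟩ := h7
    have h8 : (p : ℤ) * (p * (x' ^ 2 + 123 * b' ^ 2)) = p * 2 ^ 2 := by linear_combination hxy
    have h9 := mul_left_cancel₀ hpZ.ne_zero h8
    exact h2 (hpZ.dvd_of_dvd_pow ⟨_, h9.symm⟩)
  · rw [hlc, hl]
    push_cast
    linear_combination (1 / 2 * (y : ℂ) ^ 2) * hs - (1 / 2 : ℂ) * hxyC
  · rw [← hww]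
    push_cast
    ring

/-- type two: `4 p = 3 x² + 41 y²` -/
lemma type_twoL (hB : S_BK3F) (hX : S_EXT3) (hE : gP tauL ^ 3 = (cL : ℂ) * gD tauL) {p δ : ℕ}
    (hp : p.Prime) (hpδ : p = 2 * δ + 1) (hp3 : 3 < p) (hp41 : p ≠ 41) {x y : ℤ}
    (hxy : 3 * x ^ 2 + 41 * y ^ 2 = 4 * p) :
    (p : ℤ) ^ 2 ∣ MM δ cL - cL ^ δ * (2 * p - 3 * x ^ 2) := by
  have hpZ : Prime (p : ℤ) := Nat.prime_iff_prime_int.1 hp
  have h2 : ¬ (p : ℤ) ∣ 2 := ndvd2 hp hp3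
  have h3 : ¬ (p : ℤ) ∣ 3 := ndvd3 hp hp3
  have h41 : ¬ (p : ℤ) ∣ 41 := ndvd41 hp hp41
  have hs := sL_sq
  have hr := rr_sq
  have hI2 : Complex.I ^ 2 = -1 := Complex.I_sq
  obtain ⟨d, hd⟩ : ∃ d : ℤ, x - y = 2 * d := by
    have h1 : x % 2 = y % 2 := parity (Or.inr (by omega))
    exact ⟨(x - y) / 2, by omega⟩
  obtain ⟨l, hl⟩ : ∃ l : ℂ, l = -(3 * x + y * sL) / 6 := ⟨_, rfl⟩
  obtain ⟨μ, hμ⟩ : ∃ μ : ℂ, μ = Complex.I * rr * l := ⟨_, rfl⟩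
  have hlc : (starRingEnd ℂ) l = -(3 * x - y * sL) / 6 := by
    rw [hl]
    simp only [map_add, map_mul, map_neg, map_intCast, sL_conj, map_div₀]
    have h3 : (starRingEnd ℂ) (3 : ℂ) = 3 := by
      have := Complex.conj_ofReal 3
      exact_mod_cast this
    have h6 : (starRingEnd ℂ) (6 : ℂ) = 6 := by
      have := Complex.conj_ofReal 6
      exact_mod_cast this
    rw [h3, h6]
    ring
  have hμc : (starRingEnd ℂ) μ = - (Complex.I * rr * (-(3 * x - y * sL) / 6)) := by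
    rw [hμ, map_mul, map_mul, Complex.conj_I, rr_conj, hlc]
    ring
  have hxyC : 3 * (x : ℂ) ^ 2 + 41 * y ^ 2 = 4 * p := by exact_mod_cast hxy
  have hdC : (x : ℂ) - y = 2 * d := by exact_mod_cast hd
  have hIr : (Complex.I * rr) ^ 2 = -3 := by
    rw [mul_pow, hI2, hr]
    ring
  have hll : μ * (starRingEnd ℂ) μ = p := by
    rw [hμc, hμ, hl]
    linear_combination (1 / 4 : ℂ) * hxyC - (1 / 12 : ℂ) * (y : ℂ) ^ 2 * hs -
      (9 * (x : ℂ) ^ 2 - y ^ 2 * sL ^ 2) / 36 * hIr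
  have hT : μ ^ 2 + (starRingEnd ℂ) μ ^ 2 = 2 * p - 3 * x ^ 2 := by
    rw [hμc, hμ, hl]
    linear_combination (1 / 2 : ℂ) * hxyC - (1 / 6 : ℂ) * (y : ℂ) ^ 2 * hs +
      (9 * (x : ℂ) ^ 2 + y ^ 2 * sL ^ 2) / 18 * hIr
  have hμi : IsIntegral ℤ μ := by
    refine IsIntegral.of_pow (n := 2) (by norm_num) ?_
    refine ⟨Polynomial.X ^ 2 + Polynomial.C (-(2 * p - 3 * x ^ 2)) * Polynomial.X + Polynomial.C ((p : ℤ) ^ 2), ?_, ?_⟩
    · monicity!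
    · simp only [Polynomial.eval₂_add, Polynomial.eval₂_mul, Polynomial.eval₂_pow,
        Polynomial.eval₂_X, Polynomial.eval₂_C]
      simp
      linear_combination (μ ^ 2) * hT - (μ * (starRingEnd ℂ) μ + p) * hll
  have hdet : y * (11 * y) - d * (-(3 * (y + d))) = p := by
    have : 4 * (y * (11 * y) - d * (-(3 * (y + d)))) = 4 * (p : ℤ) := by
      linear_combination hxy + (-3 * (x + y) - 6 * d) * hd + (-6 * y) * hd + 6 * y * hd
    linarith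
  obtain ⟨w, hw, hww⟩ := hB p δ tauL cL !![y, d; -(3 * (y + d)), 11 * y] l μ hp hpδ (by omega) hE
    (by rw [Matrix.det_fin_two_of]; exact hdet)
    (by simp) hμ hll hμi
    (by simp; rw [tauL_eq, hl]; linear_combination (-(1 / 2) : ℂ) * hdC)
    (by simp; rw [tauL_eq, hl]; linear_combination (y / 12 : ℂ) * hs + (3 / 2 : ℂ) * ((3 + sL) / 6) * hdC)
  refine hX p 13 (MM δ cL) (2 * p - 3 * x ^ 2) (27 * cL * 729 ^ (δ + 4)) (cL ^ δ) μ w hp hw hμi ?_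
    (K_unit hp hp3 _) ?_ hll ?_
  · intro h
    have h4 : (p : ℤ) ∣ 3 * x ^ 2 := by
      have : 3 * x ^ 2 = p * 2 - (2 * p - 3 * x ^ 2) := by ring
      rw [this]
      exact dvd_sub (Dvd.intro _ rfl) h
    have h5 : (p : ℤ) ∣ x := by
      rcases hpZ.dvd_or_dvd h4 with h6 | h6
      · exact absurd h6 h3
      · exact hpZ.dvd_of_dvd_pow h6
    obtain ⟨x', rfl⟩ := h5
    have h6 : (p : ℤ) ∣ 41 * y ^ 2 := ⟨4 - 3 * p * x' ^ 2, by linear_combination hxy⟩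
    have h7 : (p : ℤ) ∣ y := by
      rcases hpZ.dvd_or_dvd h6 with h8 | h8
      · exact absurd h8 h41
      · exact hpZ.dvd_of_dvd_pow h8
    obtain ⟨b', rfl⟩ := h7
    have h8 : (p : ℤ) * (p * (3 * x' ^ 2 + 41 * b' ^ 2)) = p * 2 ^ 2 := by linear_combination hxy
    have h9 := mul_left_cancel₀ hpZ.ne_zero h8
    exact h2 (hpZ.dvd_of_dvd_pow ⟨_, h9.symm⟩)
  · rw [hT]
    push_cast
    ring
  · rw [← hww]
    push_cast
    ring

/-- the inert case modulo `p`, with one auxiliary prime -/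
lemma inert_aux (hL : S_INL3) (hI : S_INE3) (hE : gP tauL ^ 3 = (cL : ℂ) * gD tauL) {p ℓ : ℕ}
    {a : ℤ} (hp : p.Prime) (hp3 : 3 < p) (M : Matrix (Fin 2) (Fin 2) ℤ) (hℓ : ℓ.Prime) (hℓp : ℓ ≠ p)
    (hℓ3 : ℓ ≠ 3) (hM : M.det = ℓ) (h3 : (3 : ℤ) ∣ M 1 0) (hll : (a : ℤ) ^ 2 + 123 = 4 * ℓ)
    (e1 : (M 0 0 : ℂ) * tauL + (M 0 1 : ℂ) = (a + sL) / 2 * tauL)
    (e2 : (M 1 0 : ℂ) * tauL + (M 1 1 : ℂ) = (a + sL) / 2)
    (hin : ¬ ∃ z : ℤ, (p : ℤ) ∣ -123 - z ^ 2) (hn : ¬ (p : ℤ) ∣ a * (a ^ 2 - ℓ) * (a ^ 2 - 3 * ℓ)) :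
    (p : ℤ) ∣ MM (p / 3) cL := by
  have hpZ : Prime (p : ℤ) := Nat.prime_iff_prime_int.1 hp
  have hs := sL_sq
  have hllC : (a : ℂ) ^ 2 + 123 = 4 * ℓ := by exact_mod_cast hll
  obtain ⟨w, hw, hww⟩ := hL p ℓ tauL cL M ((a + sL) / 2) ((a - sL) / 2) hp hp3 hℓ hℓp hℓ3 hE hM h3
    (by linear_combination (1 / 4 : ℂ) * hllC - (1 / 4 : ℂ) * hs) e1 e2
  have h1 := hI p a ℓ (cL ^ ((p - 1) % 3) * MM (p / 3) cL ^ 3) ((a - sL) / 2) w hp (by omega)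
    (by push_cast; linear_combination (1 / 4 : ℂ) * hs - (1 / 4 : ℂ) * hllC) hw
    (by
      rintro ⟨z, hz⟩
      apply hin
      refine ⟨z, ?_⟩
      have : (-123 - z ^ 2 : ℤ) = a ^ 2 - 4 * ℓ - z ^ 2 := by linear_combination -hll
      rw [this]
      exact hz)
    (prime_ndvd hp hℓ (fun h => hℓp h.symm)) hn
    (by
      rw [← hww]
      push_cast
      ring)
  rcases hpZ.dvd_or_dvd h1 with h2 | h2
  · exact absurd (hpZ.dvd_of_dvd_pow h2) (cL_unit hp hp3)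
  · exact hpZ.dvd_of_dvd_pow h2

lemma inertL (hL : S_INL3) (hI : S_INE3) (hE : gP tauL ^ 3 = (cL : ℂ) * gD tauL) {p : ℕ}
    (hp : p.Prime) (hp3 : 3 < p) (hp5 : p ≠ 5) (hin : ¬ ∃ z : ℤ, (p : ℤ) ∣ -123 - z ^ 2) :
    (p : ℤ) ∣ MM (p / 3) cL := by
  have hpZ : Prime (p : ℤ) := Nat.prime_iff_prime_int.1 hp
  have hs := sL_sq
  have h2 : ¬ (p : ℤ) ∣ 2 := ndvd2 hp hp3
  have h3 : ¬ (p : ℤ) ∣ 3 := ndvd3 hp hp3
  have h5 : ¬ (p : ℤ) ∣ 5 := ndvd5 hp hp5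
  have hp31 : (31 : ℕ) ≠ p := by
    rintro rfl
    exact hin ⟨1, ⟨-4, by norm_num⟩⟩
  have hp37 : (37 : ℕ) ≠ p := by
    rintro rfl
    exact hin ⟨5, ⟨-4, by norm_num⟩⟩
  by_cases hp23 : p = 23
  · refine inert_aux hL hI hE (ℓ := 37) (a := 5) hp hp3 !![4, -11; 3, 1] (by norm_num) hp37 (by norm_num)
      (by rw [Matrix.det_fin_two_of]; norm_num) (by simp) (by norm_num)
      (by simp; rw [tauL_eq]; linear_combination (-(1 : ℂ) / 12) * hs)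
      (by simp; rw [tauL_eq]; ring) hin ?_
    rw [hp23]
    norm_num
  · refine inert_aux hL hI hE (ℓ := 31) (a := 1) hp hp3 !![2, -11; 3, -1] (by norm_num) hp31 (by norm_num)
      (by rw [Matrix.det_fin_two_of]; norm_num) (by simp) (by norm_num)
      (by simp; rw [tauL_eq]; linear_combination (-(1 : ℂ) / 12) * hs)
      (by simp; rw [tauL_eq]; ring) hin ?_
    intro h
    have h23 : ¬ (p : ℤ) ∣ 23 := ndvd23 hp hp23
    have : ((1 : ℤ) * (1 ^ 2 - ((31 : ℕ) : ℤ)) * (1 ^ 2 - 3 * ((31 : ℕ) : ℤ))) = 2 ^ 3 * (3 * (5 * 23)) := by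
      norm_num
    rw [this] at h
    rcases hpZ.dvd_or_dvd h with h6 | h6
    · exact h2 (hpZ.dvd_of_dvd_pow h6)
    · rcases hpZ.dvd_or_dvd h6 with h7 | h7
      · exact h3 h7
      · rcases hpZ.dvd_or_dvd h7 with h8 | h8
        · exact h5 h8
        · exact h23 h8

lemma five : (5 : ℤ) ^ 2 ∣ SL 5 cL := by
  have e : SL 5 cL = 1 * cL ^ 4 + 12 * cL ^ 3 + 540 * cL ^ 2 + 33600 * cL + 2425500 := by
    unfold SL
    simp only [Finset.sum_range_succ, Finset.sum_range_zero]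
    have h0 : vv 0 = 1 := by decide
    have h1 : vv 1 = 12 := by decide
    have h2 : vv 2 = 540 := by decide
    have h3 : vv 3 = 33600 := by unfold vv; norm_num [Nat.choose]
    have h4 : vv 4 = 2425500 := by unfold vv; norm_num [Nat.choose]
    rw [h0, h1, h2, h3, h4]
    norm_num
  rw [e]
  unfold cL
  norm_num

theorem main (hB : S_BK3) (hBF : S_BK3F) (hX : S_EXT3) (hU : S_UDV3) (h2 : S_INR23) (hL : S_INL3)
    (hI : S_INE3) (hE : gP tauL ^ 3 = (cL : ℂ) * gD tauL) {p : ℕ} (hp : p.Prime) (hp3 : 3 < p) :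
    (∀ x y : ℤ, p ≠ 41 → x ^ 2 + 123 * y ^ 2 = 4 * p →
      (p : ℤ) ^ 2 ∣ SL p cL - cL ^ (p - 1) * (x ^ 2 - 2 * p)) ∧
    (∀ x y : ℤ, p ≠ 41 → 3 * x ^ 2 + 41 * y ^ 2 = 4 * p →
      (p : ℤ) ^ 2 ∣ SL p cL - cL ^ (p - 1) * (2 * p - 3 * x ^ 2)) ∧
    ((¬ ∃ z : ℤ, (p : ℤ) ∣ -123 - z ^ 2) → (p : ℤ) ^ 2 ∣ SL p cL) := by
  have hpZ : Prime (p : ℤ) := Nat.prime_iff_prime_int.1 hp
  have hp2' : p ≠ 2 := by omega
  have hodd : p % 2 = 1 := by
    rcases hp.eq_two_or_odd with h | h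
    · exact absurd h hp2'
    · exact h
  obtain ⟨δ, hδ⟩ : ∃ δ, p = 2 * δ + 1 := ⟨p / 2, by omega⟩
  have hp2 : ¬ (p : ℤ) ∣ 2 := ndvd2 hp hp3
  refine ⟨fun x y h41 hxy => full_of_half hU hp hδ (type_oneL hB hX hE hp hδ hp3 h41 hxy),
    fun x y h41 hxy => full_of_half hU hp hδ (type_twoL hBF hX hE hp hδ hp3 h41 hxy),
    fun hin => ?_⟩
  by_cases hp5 : p = 5
  · subst hp5
    exact five
  refine h2 p cL 32 5 41 hp hp3 (by unfold cL; norm_num) (cL_unit hp hp3) ?_ ?_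
      (SL_third hU hp hp3 _ (inertL hL hI hE hp hp3 hp5 hin))
  · intro h
    have : (32 : ℤ) = 2 ^ 5 := by norm_num
    rw [this] at h
    exact hp2 (hpZ.dvd_of_dvd_pow h)
  · intro h
    have h41 : p = 41 := by
      by_contra h5
      exact ndvd41 hp h5 h
    apply hin
    exact ⟨0, by rw [h41]; exact ⟨-3, by norm_num⟩⟩

theorem value (hz : S_RAT3) (hn : S_NUM3) (hR : S_REL3) : gP tauL ^ 3 = (cL : ℂ) * gD tauL := by
  obtain ⟨z, hz⟩ := hz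
  unfold S_NUM3 at hn
  rw [hz] at hn
  have h1 : ‖((z + 110592 : ℤ) : ℂ)‖ < 1 := by
    push_cast
    exact hn
  rw [Complex.norm_intCast] at h1
  have h2 : |z + 110592| < 1 := by exact_mod_cast h1
  have h3 : z = cL := by
    unfold cL
    rw [abs_lt] at h2
    omega
  have hD : gD tauL ≠ 0 := hR.2.2.2.2.2.2.2.2.2.2.2.2.1 _
  have h4 : gP tauL ^ 3 / gD tauL = (cL : ℂ) := by
    rw [← h3]
    exact hz
  rw [div_eq_iff hD] at h4
  exact h4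

end Pool.Agent.HS37.C4
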