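import Pool.Agent.HS37.C4.Stm

/-!
# Project C4, piece INJ3 (helper77): `y` is injective modulo `Γ₀(3)+` (port of `CV/INJ`)
-/

set_option autoImplicit false

open UpperHalfPlane ModularForm ModularFormClass MatrixGroups EisensteinSeries Complex
open Pool.Agent.HS37.SP Pool.Agent.HS37.CQ Pool.Agent.HS37.C3

namespace Pool.Agent.HS37.C4

noncomputable section

namespace INJ3

theorem coe_trp (τ : ℍ) : (trp τ : ℂ) = 3 * (τ : ℂ) := by
  have h : 0 < (3 * (τ : ℂ)).im := by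
    have h1 : (3 * (τ : ℂ)).im = 3 * (τ : ℂ).im := by simp
    rw [h1]
    have h2 : 0 < (τ : ℂ).im := τ.im_pos
    linarith
  rw [trp, ofComplex_apply_of_im_pos h]

theorem lin (τ : ℍ) (x y : ℤ) (h : (x : ℂ) * τ + y = 0) : x = 0 := by
  have h1 := congrArg Complex.im h
  simp at h1
  rcases h1 with h1 | h1
  · exact_mod_cast h1
  · exact absurd h1 τ.im_ne_zero

theorem core (hLU : CV.S_LU) (hREL : S_REL3) (hPRY : S_PRY) (τ τ₂ : ℍ) (h : gh τ₂ = gh τ) :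
    ∃ γ : SL(2, ℤ), (3 : ℤ) ∣ γ 1 0 ∧ τ₂ = γ • τ := by
  obtain ⟨-, r2, r3, r4, r5, r6, r7, -, -, r10, -, -, nD, nF, nG⟩ := hREL
  obtain ⟨-, -, nh, hy⟩ := hPRY
  have hD := nD τ
  have hyy : gy τ₂ = gy τ := by
    have h1 := hy τ
    have h2 := hy τ₂
    rw [h, ← h1] at h2
    exact mul_right_cancel₀ (nh τ) h2
  obtain ⟨l0, hl0⟩ := IsAlgClosed.exists_pow_nat_eq (gD τ₂ / gD τ) (n := 6) (by norm_num)
  have hP3 : gP τ₂ ^ 3 = (l0 ^ 2 * gP τ) ^ 3 := by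
    have h1 : gP τ₂ ^ 3 = gy τ₂ * gD τ₂ := by
      rw [gy]
      have := nD τ₂
      field_simp
    have h2 : gP τ ^ 3 = gy τ * gD τ := by
      rw [gy]
      field_simp
    have h3 : gD τ₂ = l0 ^ 6 * gD τ := by
      rw [hl0]
      field_simp
    rw [h1, hyy, h3, mul_pow, h2]
    ring
  have hP : ∃ l : ℂ, l ^ 6 = gD τ₂ / gD τ ∧ gP τ₂ = l ^ 2 * gP τ := by
    by_cases h0 : l0 ^ 2 * gP τ = 0
    · refine ⟨l0, hl0, ?_⟩
      rw [h0] at hP3 ⊢
      rw [zero_pow (by norm_num)] at hP3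
      exact (pow_eq_zero_iff (by norm_num)).1 hP3
    · obtain ⟨w, hw⟩ : ∃ w, w = gP τ₂ / (l0 ^ 2 * gP τ) := ⟨_, rfl⟩
      have hw3 : w ^ 3 = 1 := by
        rw [hw, div_pow, hP3, div_self (pow_ne_zero 3 h0)]
      have hw1 : gP τ₂ = w * (l0 ^ 2 * gP τ) := by
        rw [hw, div_mul_cancel₀ _ h0]
      refine ⟨w ^ 2 * l0, ?_, ?_⟩
      · rw [← hl0]
        calc (w ^ 2 * l0) ^ 6 = (w ^ 3) ^ 4 * l0 ^ 6 := by ring
          _ = l0 ^ 6 := by rw [hw3]; ring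
      · rw [hw1]
        calc w * (l0 ^ 2 * gP τ) = w ^ 3 * (w * (l0 ^ 2 * gP τ)) := by rw [hw3, one_mul]
          _ = (w ^ 2 * l0) ^ 2 * gP τ := by ring
  obtain ⟨l, hl, hPl⟩ := hP
  have hl0' : l ≠ 0 := by
    rintro rfl
    rw [zero_pow (by norm_num)] at hl
    exact div_ne_zero (nD τ₂) hD hl.symm
  have hDl : gD τ₂ = l ^ 6 * gD τ := by
    rw [hl]
    field_simp
  have hGl : gG τ₂ = l ^ 6 * gG τ := by
    have h1 : gG τ₂ = gh τ₂ * gD τ₂ := by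
      rw [gh]
      have := nD τ₂
      field_simp
    have h2 : gG τ = gh τ * gD τ := by
      rw [gh]
      field_simp
    rw [h1, h2, h, hDl]
    ring
  have hFl : gF τ₂ = l ^ 6 * gF τ := by
    have h1 := r7 τ
    have h2 := r7 τ₂
    rw [hDl, hGl] at h2
    have h3 : (gF τ₂ - l ^ 6 * gF τ) * (l ^ 6 * gG τ) = 0 := by
      linear_combination -h2 + l ^ 12 * h1
    rcases mul_eq_zero.1 h3 with h4 | h4
    · linear_combination h4
    · exact absurd h4 (mul_ne_zero (pow_ne_zero 6 hl0') (nG τ))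
  have hel : ge τ₂ = l ^ 4 * ge τ := by
    by_cases h0 : gP τ = 0
    · have h1 := r6 τ
      have h2 := r6 τ₂
      rw [hPl, h0, mul_zero, zero_mul] at h2
      rw [h0, zero_mul] at h1
      rw [pow_eq_zero_iff (by norm_num)] at h1 h2
      rw [h1, h2, mul_zero]
    · have h1 := r10 τ
      have h2 := r10 τ₂
      rw [hPl, hDl, hFl] at h2
      have h3 : (ge τ₂ - l ^ 4 * ge τ) * (l ^ 2 * gP τ) = 0 := by
        linear_combination h2 - l ^ 6 * h1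
      rcases mul_eq_zero.1 h3 with h4 | h4
      · linear_combination h4
      · exact absurd h4 (mul_ne_zero (pow_ne_zero 2 hl0') h0)
  obtain ⟨γ, g1, g2⟩ := hLU τ τ₂ l hl0' (by rw [r2, r2, hPl, hel]; ring)
    (by rw [r4, r4, hPl, hel, hFl]; ring)
  obtain ⟨γ', g1', -⟩ := hLU (trp τ) (trp τ₂) l hl0' (by rw [r3, r3, hPl, hel]; ring)
    (by rw [r5, r5, hPl, hel, hFl]; ring)
  refine ⟨γ, ?_, ?_⟩
  · rw [coe_trp] at g1'
    have h3 := lin τ (γ 1 0 - 3 * γ' 1 0) (γ 1 1 - γ' 1 1) (by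
      push_cast
      linear_combination g1 - g1')
    exact ⟨γ' 1 0, by linarith⟩
  · apply UpperHalfPlane.ext
    rw [UpperHalfPlane.coe_specialLinearGroup_apply]
    have h3 : ((γ 1 0 : ℤ) : ℂ) * (τ : ℂ) + ((γ 1 1 : ℤ) : ℂ) ≠ 0 := by rw [g1]; exact hl0'
    simp only [algebraMap_int_eq, eq_intCast, Complex.ofReal_intCast]
    rw [eq_div_iff (by simpa using h3)]
    simp only [g1]
    rw [g2]
    ring

end INJ3

open INJ3 in
theorem t_INJ3 (hLU : CV.S_LU) (hREL : S_REL3) (hPRE : S_PRE3) (hPRY : S_PRY) : S_INJ3 := by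
  intro τ₁ τ₂ h
  obtain ⟨-, -, -, -, -, hh, -⟩ := hPRE
  have hPRY' := hPRY
  obtain ⟨-, -, nh, hy⟩ := hPRY'
  have hf : gh (fri3 τ₁) = 729 / gh τ₁ := by
    have h1 := hh.fr τ₁
    rw [zpow_zero, one_mul] at h1
    exact h1
  have hk : (gh τ₁ - gh τ₂) * (gh τ₁ * gh τ₂ - 729) = 0 := by
    have h1 := hy τ₁
    have h2 := hy τ₂
    rw [h] at h1
    linear_combination h1 * gh τ₂ * (-1) + h2 * gh τ₁
  rcases mul_eq_zero.1 hk with h1 | h1
  · obtain ⟨γ, g1, g2⟩ := core hLU hREL hPRY τ₁ τ₂ (by linear_combination -h1)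
    exact ⟨γ, g1, Or.inl g2⟩
  · obtain ⟨γ, g1, g2⟩ := core hLU hREL hPRY (fri3 τ₁) τ₂ (by
      rw [hf, eq_div_iff (nh τ₁)]
      linear_combination h1)
    exact ⟨γ, g1, Or.inr g2⟩

end

end Pool.Agent.HS37.C4
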