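import Pool.Agent.HS37.C3.Stm
import Pool.Agent.HS37.CV.Inl

/-!
# Project C4, piece INL3 (helper76): inert primes, level three, a Hecke argument with power sums

Port of `CV/Inl.lean` (the lemmas on power series of that file are used).
-/

set_option autoImplicit false

open UpperHalfPlane ModularForm ModularFormClass MatrixGroups EisensteinSeries Complex
open Pool.Agent.HS37.SP Pool.Agent.HS37.CQ Pool.Agent.HS37.C3

namespace Pool.Agent.HS37.C4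

namespace INL3P

open Pool.Agent.HS37.CV.INLP (ups int_ups int_vps series_key)

lemma chr_sq {d : ℤ} (h : ¬ (3 : ℤ) ∣ d) : chr d = 1 ∨ chr d = -1 := by
  unfold chr
  rw [if_neg (by omega)]
  split_ifs
  · exact Or.inl rfl
  · exact Or.inr rfl

lemma chr_even {d : ℤ} (h : ¬ (3 : ℤ) ∣ d) {k : ℤ} (hk : Even k) : chr d ^ k = 1 := by
  obtain ⟨j, rfl⟩ := hk
  rw [← two_mul, _root_.zpow_mul]
  have : chr d ^ (2 : ℤ) = 1 := by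
    rcases chr_sq h with h1 | h1 <;> rw [h1] <;> norm_num
  rw [this, one_zpow]

lemma ptsum (hCLO : S_CLO3) (k : ℤ) (f f' : ℕ → ℍ → ℂ) (N : ℕ)
    (h : ∀ n ≤ N, Pt k (f n) (f' n)) :
    Pt k (fun τ => ∑ n ∈ Finset.range (N + 1), f n τ)
      (fun τ => ∑ n ∈ Finset.range (N + 1), f' n τ) := by
  induction N with
  | zero => simpa using h 0 le_rfl
  | succ N ih =>
    have h1 := hCLO.2.1 k _ _ _ _ (ih fun n hn => h n (by omega)) (h (N + 1) le_rfl)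
    simp only [Finset.sum_range_succ _ (N + 1)]
    exact h1

/-- the form `K` -/
noncomputable def Kf (p : ℕ) (τ : ℍ) : ℂ :=
  ∑ n ∈ Finset.range (p / 3 + 1), (vv n : ℂ) * (gD τ ^ n * gP τ ^ (p - 1 - 3 * n))

lemma Kf_pt (hCLO : S_CLO3) (hPRE : S_PRE3) (hBAS : S_BAS3) {p : ℕ} (hp1 : 1 ≤ p)
    (hp3 : p % 3 ≠ 0) : Pt (2 * ((p - 1 : ℕ) : ℤ)) (Kf p) (Kf p) := by
  refine ptsum hCLO _ (fun n τ => (vv n : ℂ) * (gD τ ^ n * gP τ ^ (p - 1 - 3 * n)))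
    (fun n τ => (vv n : ℂ) * (gD τ ^ n * gP τ ^ (p - 1 - 3 * n))) (p / 3) ?_
  intro n hn
  refine hCLO.2.2.1 _ _ _ _ ?_
  have h1 := hCLO.2.2.2.2.1 _ _ _ n hPRE.2.2.2.2.1
  have h2 := hCLO.2.2.2.2.1 _ _ _ (p - 1 - 3 * n) hBAS.2.1
  have h3 := hCLO.1 _ _ _ _ _ _ h1 h2
  have h4 : (n : ℤ) * 6 + ((p - 1 - 3 * n : ℕ) : ℤ) * 2 = 2 * ((p - 1 : ℕ) : ℤ) := by
    have h5 : 3 * n + (p - 1 - 3 * n) = p - 1 := by omega
    have h6 : ((3 * n + (p - 1 - 3 * n) : ℕ) : ℤ) = ((p - 1 : ℕ) : ℤ) := by rw [h5]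
    rw [Nat.cast_add] at h6
    push_cast at h6 ⊢
    linarith
  rw [h4] at h3
  exact h3

lemma Kf_q (hLUC : S_LUC3) (hEXP : S_EXP3) {p : ℕ} (hp : p.Prime) (hp3 : 3 < p) :
    ∃ W : PowerSeries ℂ, IsInt W ∧ QExp (Kf p) 0 (1 + PowerSeries.C (p : ℂ) * W) := by
  obtain ⟨W, hW, h1⟩ := hLUC _ hp hp3
  refine ⟨W, hW, ?_⟩
  rw [← h1]
  refine qsum (Finset.range (p / 3 + 1)) (fun n τ => (vv n : ℂ) *
    (gD τ ^ n * gP τ ^ (p - 1 - 3 * n))) 0 _ ?_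
  intro n hn
  rw [mul_assoc]
  refine t_QMUL.2.2.2.1 _ _ _ _ ?_
  have h5 := t_QMUL.1 _ _ _ _ _ _ (qpow hEXP.2.2.2.2.2.1 n) (qpow hEXP.2.2.1 (p - 1 - 3 * n))
  rw [mul_zero, mul_zero] at h5
  exact h5

lemma Kf_val {p : ℕ} (hp1 : 1 ≤ p) (hp3 : p % 3 ≠ 0) {τ : ℍ} {c : ℤ}
    (h : gP τ ^ 3 = c * gD τ) :
    Kf p τ ^ 3 = (c : ℂ) ^ ((p - 1) % 3) * gD τ ^ (p - 1) * (MM (p / 3) c : ℂ) ^ 3 := by
  obtain ⟨m, r, hr, hδ⟩ : ∃ m r, r < 2 ∧ p - 1 = 3 * m + r :=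
    ⟨(p - 1) / 3, (p - 1) % 3, by omega, by omega⟩
  have hm : p / 3 = m := by omega
  have hr2 : (p - 1) % 3 = r := by omega
  rw [hr2, hm]
  have h1 : Kf p τ = gP τ ^ r * gD τ ^ m * (MM m c : ℂ) := by
    unfold Kf MM
    rw [hm, Int.cast_sum, Finset.mul_sum]
    refine Finset.sum_congr rfl fun n hn => ?_
    rw [Finset.mem_range] at hn
    obtain ⟨j, rfl⟩ : ∃ j, m = n + j := ⟨m - n, by omega⟩
    have h2 : n + j - n = j := by omega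
    have h0 : p - 1 - 3 * n = 3 * j + r := by omega
    rw [h2, h0]
    have h3 : gP τ ^ (3 * j + r) = (c * gD τ) ^ j * gP τ ^ r := by
      rw [← h]
      ring
    rw [h3]
    push_cast
    ring
  rw [h1]
  have h4 : (gP τ ^ r * gD τ ^ m * (MM m c : ℂ)) ^ 3 =
      (gP τ ^ 3) ^ r * gD τ ^ (3 * m) * (MM m c : ℂ) ^ 3 := by
    ring
  rw [h4, h, hδ]
  ring

/-- the values of powers -/
lemma val3_pow (κ : ℤ) (g : ℍ → ℂ) (A : Matrix (Fin 2) (Fin 2) ℤ) (τ : ℍ) (j : ℕ) :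
    val3 ((j : ℤ) * κ) (fun z => g z ^ j) A τ = val3 κ g A τ ^ j := by
  unfold val3
  rw [mul_pow, ← zpow_natCast ((chr (A 1 1) * (((A 1 0 : ℤ) : ℂ) * τ + ((A 1 1 : ℤ) : ℂ))) ^ (-κ)) j,
    ← _root_.zpow_mul]
  congr 2
  ring

/-- no character for even weights -/
lemma hsum3_even {k : ℤ} (hk : Even k) {N : ℕ} (hN : ¬ 3 ∣ N) (g : ℍ → ℂ) (τ : ℍ) :
    hsum3 k N g τ = hsum k N g τ := by
  unfold hsum3 hsum
  refine Finset.sum_congr rfl fun t ht => ?_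
  have h3 : ¬ (3 : ℤ) ∣ mat t 1 1 := by
    intro h
    have h' : (3 : ℤ) ∣ (t.2.2 : ℤ) := h
    have h1 : t.1 * t.2.2 = N := by
      unfold reps at ht
      exact (Finset.mem_filter.1 ht).2.1
    apply hN
    rw [← h1]
    have h2 : 3 ∣ t.2.2 := by exact_mod_cast h'
    exact h2.mul_left _
  unfold val3 val
  rw [mul_zpow, chr_even h3 hk.neg, one_mul]

/-- the power sums of the `L val3 Q - L Q` -/
noncomputable def Fm (m : ℕ) (κ : ℤ) (ℓ : ℕ) (L : ℂ) (Q : ℍ → ℂ) (τ : ℍ) : ℂ :=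
  ∑ j ∈ Finset.range (m + 1), (m.choose j : ℂ) * ((-L * Q τ) ^ (m - j) *
    (L ^ j * hsum3 ((j : ℤ) * κ) ℓ (fun z => Q z ^ j) τ))

lemma Fm_eq (m : ℕ) (κ : ℤ) (ℓ : ℕ) (L : ℂ) (Q : ℍ → ℂ) (τ : ℍ) :
    Fm m κ ℓ L Q τ = ∑ t ∈ reps ℓ, (L * val3 κ Q (mat t) τ - L * Q τ) ^ m := by
  have h1 : ∀ t ∈ reps ℓ, (L * val3 κ Q (mat t) τ - L * Q τ) ^ m =
      ∑ j ∈ Finset.range (m + 1), (m.choose j : ℂ) * ((-L * Q τ) ^ (m - j) *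
        (L ^ j * val3 ((j : ℤ) * κ) (fun z => Q z ^ j) (mat t) τ)) := by
    intro t _
    have h2 : L * val3 κ Q (mat t) τ - L * Q τ = L * val3 κ Q (mat t) τ + -L * Q τ := by
      ring
    rw [h2, add_pow]
    refine Finset.sum_congr rfl fun j _ => ?_
    rw [val3_pow, mul_pow]
    ring
  rw [Finset.sum_congr rfl h1, Finset.sum_comm, Fm]
  refine Finset.sum_congr rfl fun j _ => ?_
  rw [← Finset.mul_sum, ← Finset.mul_sum, ← Finset.mul_sum]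
  rfl

lemma Fm_pt (hCLO : S_CLO3) (hHK : S_HK3) (m : ℕ) {κ : ℤ} (hκ : Even κ) {ℓ : ℕ} (hℓ : 0 < ℓ)
    (hℓ3 : ¬ 3 ∣ ℓ) (L : ℂ) {Q : ℍ → ℂ} (hQ : Pt κ Q Q) :
    Pt ((m : ℤ) * κ) (Fm m κ ℓ L Q) (Fm m κ ℓ L Q) := by
  refine ptsum hCLO _ (fun j τ => (m.choose j : ℂ) * ((-L * Q τ) ^ (m - j) *
    (L ^ j * hsum3 ((j : ℤ) * κ) ℓ (fun z => Q z ^ j) τ)))
    (fun j τ => (m.choose j : ℂ) * ((-L * Q τ) ^ (m - j) *
    (L ^ j * hsum3 ((j : ℤ) * κ) ℓ (fun z => Q z ^ j) τ))) m ?_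
  intro j hj
  refine hCLO.2.2.1 _ _ _ _ ?_
  have h1 := hCLO.2.2.2.2.1 _ _ _ (m - j) (hCLO.2.2.1 _ _ _ (-L) hQ)
  have h2 := hHK _ _ _ ℓ hℓ hℓ3 (hCLO.2.2.2.2.1 _ _ _ j hQ)
  have h5 : chr (ℓ : ℤ) ^ ((j : ℤ) * κ) = 1 := by
    refine chr_even ?_ (hκ.mul_left _)
    exact_mod_cast hℓ3
  rw [h5] at h2
  simp only [one_mul] at h2
  have h3 := hCLO.1 _ _ _ _ _ _ h1 (hCLO.2.2.1 _ _ _ (L ^ j) h2)
  have h4 : ((m - j : ℕ) : ℤ) * κ + (j : ℤ) * κ = (m : ℤ) * κ := by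
    push_cast [Nat.cast_sub hj]
    ring
  rw [h4] at h3
  exact h3

lemma Fm_q {ℓ : ℕ} (hℓ : ℓ.Prime) (hℓ3 : ¬ 3 ∣ ℓ) (m : ℕ) (N : ℕ) (hN : Even N) {κ : ℤ}
    (hκ : κ = N) {L : ℂ}
    (hL : L = (ℓ : ℂ) ^ N) {Q : ℍ → ℂ} {q w : PowerSeries ℂ} (hQ : QExp Q 0 q) {pc z0 : ℂ}
    (hq : q = 1 + PowerSeries.C pc * w) (hz : 1 - L = pc * z0) :
    QExp (Fm m κ ℓ L Q) 0 (PowerSeries.C (pc ^ m) * ((PowerSeries.C L * (vps ℓ w - w)) ^ m +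
      PowerSeries.C (ℓ : ℂ) * ups ℓ ((PowerSeries.C z0 + w - PowerSeries.C L * vps ℓ w) ^ m))) := by
  have hℓ0 : (ℓ : ℂ) ≠ 0 := by exact_mod_cast hℓ.ne_zero
  rw [← series_key hℓ.pos m q w pc L z0 hq hz]
  refine qsum (Finset.range (m + 1)) (fun j τ => (m.choose j : ℂ) * ((-L * Q τ) ^ (m - j) *
    (L ^ j * hsum3 ((j : ℤ) * κ) ℓ (fun z => Q z ^ j) τ))) 0 _ ?_
  intro j _
  refine t_QMUL.2.2.2.1 _ _ _ _ ?_
  have h1 := qpow (t_QMUL.2.2.2.1 _ _ _ (-L) hQ) (m - j)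
  rw [mul_zero] at h1
  have h0 := qpow hQ j
  rw [mul_zero] at h0
  have hev : Even ((j : ℤ) * κ) := by
    rw [hκ]
    exact (by exact_mod_cast hN : Even (N : ℤ)).mul_left _
  have h6 : (fun τ => hsum3 ((j : ℤ) * κ) ℓ (fun z => Q z ^ j) τ) =
      hsum ((j : ℤ) * κ) ℓ (fun z => Q z ^ j) := by
    funext τ
    exact hsum3_even hev hℓ3 _ _
  have h7 := hq_prime0 hℓ ((j : ℤ) * κ) _ _ h0
  rw [← h6] at h7
  have h2 := t_QMUL.2.2.2.1 _ _ _ (L ^ j) h7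
  have h3 := t_QMUL.1 _ _ _ _ _ _ h1 h2
  rw [add_zero] at h3
  refine INTLP.qx_cast h3 rfl ?_
  congr 1
  have h4 : L ^ j * (ℓ : ℂ) ^ (1 - (j : ℤ) * κ) = ℓ := by
    have h5 : (1 : ℤ) - (j : ℤ) * κ = 1 - ((N * j : ℕ) : ℤ) := by
      push_cast
      rw [hκ]
      ring
    rw [h5, hL, ← pow_mul, zpow_sub₀ hℓ0, zpow_one, zpow_natCast]
    field_simp
  rw [mul_add, ← mul_assoc (PowerSeries.C (L ^ j)) (PowerSeries.C ((ℓ : ℂ) ^ _)), ← map_mul, h4]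
  rfl

lemma int_h {c : ℤ} {h : ℂ} (hc : (h + 27) ^ 2 = c * h) (h0 : h ≠ 0) :
    IsIntegral ℤ h ∧ IsIntegral ℤ (729 / h) := by
  have key : ∀ x : ℂ, x ^ 2 + (54 - c) * x + 729 = 0 → IsIntegral ℤ x := by
    intro x hx
    refine ⟨Polynomial.X ^ 2 + Polynomial.C (54 - c) * Polynomial.X + Polynomial.C 729, ?_, ?_⟩
    · monicity!
    · simp only [Polynomial.eval₂_add, Polynomial.eval₂_mul, Polynomial.eval₂_pow,
        Polynomial.eval₂_X, Polynomial.eval₂_C]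
      simp
      linear_combination hx
  refine ⟨key _ (by linear_combination hc), key _ ?_⟩
  field_simp
  linear_combination 729 * hc

end INL3P

open INL3P in
open Pool.Agent.HS37.CV.INLP (ups int_ups int_vps series_key) in
/-- **Piece INL3.** -/
theorem t_INL3 (hLUC : S_LUC3) (hHK : S_HK3) (hV : S_VR3) (hPR2 : S_PR23) (hPS : S_PSM)
    (hPRE : S_PRE3) (hEXP : S_EXP3) (hCLO : S_CLO3) (hBAS : S_BAS3) (hREL : S_REL3) : S_INL3 := by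
  intro p ℓ τ c M l l' hp hp3 hℓ hℓp hℓ3 hy hdet hM hll e1 e2
  have hp1 : 1 ≤ p := hp.one_lt.le
  have hpm : p % 3 ≠ 0 := by
    intro h
    have h1 : 3 ∣ p := Nat.dvd_of_mod_eq_zero h
    have h2 := (Nat.prime_dvd_prime_iff_eq Nat.prime_three hp).1 h1
    omega
  have hℓm : ¬ 3 ∣ ℓ := by
    intro h
    exact hℓ3 ((Nat.prime_dvd_prime_iff_eq Nat.prime_three hℓ).1 h).symm
  have hp0 : (p : ℂ) ≠ 0 := by exact_mod_cast hp.ne_zero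
  have hℓ0 : (ℓ : ℂ) ≠ 0 := by exact_mod_cast hℓ.ne_zero
  have hD0 : ∀ τ, gD τ ≠ 0 := hREL.2.2.2.2.2.2.2.2.2.2.2.2.1
  have hF0 : ∀ τ, gF τ ≠ 0 := hREL.2.2.2.2.2.2.2.2.2.2.2.2.2.1
  have hG0 : ∀ τ, gG τ ≠ 0 := hREL.2.2.2.2.2.2.2.2.2.2.2.2.2.2
  -- the numbers
  obtain ⟨L, hL⟩ : ∃ L : ℂ, L = (ℓ : ℂ) ^ (6 * (p - 1)) := ⟨_, rfl⟩
  obtain ⟨z0, hz0⟩ : ∃ z : ℤ, (1 : ℂ) - L = p * z := by
    have h1 : (p : ℤ) ∣ 1 - (ℓ : ℤ) ^ (6 * (p - 1)) := by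
      have h2 : (ℓ : ℤ) ^ (p - 1) ≡ 1 [ZMOD (p : ℤ)] := by
        refine Int.ModEq.pow_card_sub_one_eq_one hp ?_
        rw [Int.isCoprime_iff_gcd_eq_one]
        have h3 : Nat.Coprime ℓ p := by
          rw [Nat.coprime_primes hℓ hp]
          exact hℓp
        exact_mod_cast h3
      have h3 : (ℓ : ℤ) ^ (6 * (p - 1)) ≡ 1 [ZMOD (p : ℤ)] := by
        rw [mul_comm, pow_mul]
        simpa using h2.pow 6
      exact h3.dvd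
    obtain ⟨z, hz⟩ := h1
    refine ⟨z, ?_⟩
    rw [hL]
    have := congrArg (Int.cast : ℤ → ℂ) hz
    push_cast at this ⊢
    exact this
  -- the form Q
  obtain ⟨W, hW, hK⟩ := Kf_q hLUC hEXP hp hp3
  have hKp := Kf_pt hCLO hPRE hBAS hp1 hpm
  obtain ⟨Q, hQ⟩ : ∃ Q : ℍ → ℂ, Q = fun τ => Kf p τ ^ 3 := ⟨_, rfl⟩
  have hQq := qpow hK 3
  rw [mul_zero] at hQq
  have hQp := hCLO.2.2.2.2.1 _ _ _ 3 hKp
  rw [← hQ] at hQq hQp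
  obtain ⟨κ, hκ⟩ : ∃ κ : ℤ, κ = ((3 : ℕ) : ℤ) * (2 * ((p - 1 : ℕ) : ℤ)) := ⟨_, rfl⟩
  rw [← hκ] at hQp
  have hκN : κ = ((6 * (p - 1) : ℕ) : ℤ) := by
    rw [hκ]
    push_cast
    ring
  have hNe : Even (6 * (p - 1)) := ⟨3 * (p - 1), by ring⟩
  have hκe : Even κ := by
    rw [hκN]
    exact_mod_cast hNe
  obtain ⟨w, hw⟩ : ∃ w : PowerSeries ℂ, w = 3 * W + 3 * PowerSeries.C (p : ℂ) * W ^ 2 +
    PowerSeries.C (p : ℂ) ^ 2 * W ^ 3 := ⟨_, rfl⟩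
  have hpi : PowerSeries.C (p : ℂ) ∈ intR := by
    have := isInt_C (p : ℤ)
    rwa [Int.cast_natCast] at this
  have hℓi : PowerSeries.C (ℓ : ℂ) ∈ intR := by
    have := isInt_C (ℓ : ℤ)
    rwa [Int.cast_natCast] at this
  have hLi : PowerSeries.C L ∈ intR := by
    rw [hL, map_pow]
    exact pow_mem hℓi _
  have hWi := isInt_iff.1 hW
  have hwi : w ∈ intR := by
    rw [hw]
    exact add_mem (add_mem (mul_mem (ofNat_mem intR 3) hWi)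
      (mul_mem (mul_mem (ofNat_mem intR 3) hpi) (pow_mem hWi 2)))
      (mul_mem (pow_mem hpi 2) (pow_mem hWi 3))
  have hqw : (1 + PowerSeries.C (p : ℂ) * W) ^ 3 = 1 + PowerSeries.C (p : ℂ) * w := by
    rw [hw]
    ring
  -- the inverse of `D`
  obtain ⟨c1, hDq, hc1i, -, -⟩ := hPRE.2.2.2.2.2.2.2.2.2.1
  have hDp : Pt (-6) (fun τ => (gD τ)⁻¹) (fun τ => (gD τ)⁻¹) :=
    hCLO.2.2.2.2.2.1 _ _ _ hPRE.2.2.2.2.1 hD0 hD0
  -- the power sums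
  have key : ∀ m : ℕ, 1 ≤ m → ∃ Q₁ Q₂ : Polynomial ℤ,
      ∑ t ∈ reps ℓ, ((L * val3 κ Q (mat t) τ - L * Q τ) / (p * gD τ ^ (p - 1))) ^ m =
        Polynomial.aeval (gh τ) Q₁ + Polynomial.aeval (729 / gh τ) Q₂ := by
    intro m _
    have h1 := Fm_q hℓ hℓm m (6 * (p - 1)) hNe hκN hL hQq hqw hz0
    obtain ⟨R, hR⟩ : ∃ R : PowerSeries ℂ, R = (PowerSeries.C L * (vps ℓ w - w)) ^ m +
      PowerSeries.C (ℓ : ℂ) * ups ℓ ((PowerSeries.C (z0 : ℂ) + w -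
        PowerSeries.C L * vps ℓ w) ^ m) := ⟨_, rfl⟩
    have hRi : R ∈ intR := by
      rw [hR]
      refine add_mem (pow_mem (mul_mem hLi (sub_mem (int_vps hwi) hwi)) m) (mul_mem hℓi
        (int_ups (pow_mem (sub_mem (add_mem (isInt_C z0) hwi) (mul_mem hLi (int_vps hwi))) m)))
    rw [← hR] at h1
    have h2 := t_QMUL.2.2.2.1 _ _ _ (((p : ℂ) ^ m)⁻¹) h1
    rw [← mul_assoc, ← map_mul, inv_mul_cancel₀ (pow_ne_zero m hp0), map_one, one_mul] at h2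
    have h3 := t_QMUL.1 _ _ _ _ _ _ h2 (qpow hDq (m * (p - 1)))
    have h4 := hCLO.1 _ _ _ _ _ _ (hCLO.2.2.1 _ _ _ (((p : ℂ) ^ m)⁻¹)
      (Fm_pt hCLO hHK m hκe hℓ.pos hℓm L hQp)) (hCLO.2.2.2.2.1 _ _ _ (m * (p - 1)) hDp)
    have h5 : (m : ℤ) * κ + ((m * (p - 1) : ℕ) : ℤ) * -6 = 0 := by
      rw [hκN]
      push_cast
      ring
    rw [h5] at h4
    have hint : IsInt (R * c1 ^ (m * (p - 1))) :=
      isInt_iff.2 (mul_mem hRi (pow_mem (isInt_iff.1 hc1i) _))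
    obtain ⟨Q₁, Q₂, hQQ⟩ := hPR2 _ _ _ _ _ _ h4 h3 h3 (fun i _ => hint i) (fun i _ => hint i)
    refine ⟨Q₁, Q₂, ?_⟩
    rw [← hQQ τ, Fm_eq, Finset.mul_sum, Finset.sum_mul]
    refine Finset.sum_congr rfl fun t _ => ?_
    have hDτ := hD0 τ
    rw [div_pow, mul_pow, ← pow_mul, inv_pow, mul_comm (p - 1) m, div_eq_mul_inv, mul_inv]
    ring
  -- integrality of `h`
  have hDτ := hD0 τ
  have hFτ := hF0 τ
  have hGτ := hG0 τ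
  have r1 := hREL.2.2.2.2.2.1 τ
  have r2 := hREL.2.2.2.2.2.2.1 τ
  have r3 := hREL.2.2.2.2.2.2.2.1 τ
  have r4 := hREL.2.2.2.2.2.2.2.2.1 τ
  obtain ⟨h, hh⟩ : ∃ h, h = gh τ := ⟨_, rfl⟩
  have hse : gG τ = h * gD τ := by
    rw [hh, gh]
    field_simp
  have h0 : h ≠ 0 := by
    intro h1
    rw [h1, zero_mul] at hse
    exact hGτ hse
  have hPs : (gP τ * gs τ) ^ 2 = gP τ ^ 3 * gG τ := by
    have h1 : gF τ * ((gP τ * gs τ) ^ 2 - gP τ ^ 3 * gG τ) = 0 := by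
      linear_combination (-gP τ * gs τ ^ 2) * r1 + gP τ * (ge τ * gs τ + gP τ * gD τ) * r3 +
        gP τ ^ 3 * r2
    rcases mul_eq_zero.1 h1 with h2 | h2
    · exact absurd h2 hFτ
    · linear_combination h2
  have hc : (h + 27) ^ 2 = c * h := by
    have h1 : gD τ ^ 2 * ((h + 27) ^ 2 - c * h) = 0 := by
      have h2 : (gG τ + 27 * gD τ) ^ 2 = gP τ ^ 3 * gG τ := by
        rw [← r4]
        exact hPs
      rw [hy, hse] at h2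
      linear_combination h2
    rcases mul_eq_zero.1 h1 with h2 | h2
    · exact absurd h2 (pow_ne_zero _ hDτ)
    · linear_combination h2
  obtain ⟨i1, i2⟩ := int_h hc h0
  rw [hh] at i1 i2
  -- the sublattice of the endomorphism
  obtain ⟨t, ht, ε, hε, hval⟩ := hV.2.2.1 ℓ hℓ.pos hℓm M τ l hdet hM e1 e2
  have hint := hPS (reps ℓ) (fun t => (L * val3 κ Q (mat t) τ - L * Q τ) / (p * gD τ ^ (p - 1)))
    _ _ i1 i2 key t ht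
  refine ⟨_, hint, ?_⟩
  have hl0 : l ≠ 0 := by
    intro h1
    rw [h1, zero_mul] at hll
    exact hℓ0 hll.symm
  have hQτ : Q τ = (c : ℂ) ^ ((p - 1) % 3) * gD τ ^ (p - 1) * (MM (p / 3) c : ℂ) ^ 3 := by
    rw [hQ]
    exact Kf_val hp1 hpm hy
  have hε6 : ε ^ (6 * (p - 1)) = 1 := by
    rw [mul_assoc 2 3 (p - 1) |>.symm.trans (by ring : 2 * 3 * (p - 1) = 6 * (p - 1)) |>.symm,
      pow_mul]
    rcases hε with h1 | h1 <;> rw [h1] <;> norm_num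
  have hvt : L * val3 κ Q (mat t) τ = l' ^ (6 * (p - 1)) * Q τ := by
    rw [hval _ _ _ hQp, hκN, _root_.zpow_neg, zpow_natCast, hL, ← hll, mul_pow, mul_pow ε, hε6,
      one_mul]
    have : l ^ (6 * (p - 1)) ≠ 0 := pow_ne_zero _ hl0
    field_simp
  rw [hvt, hL, hQτ]
  have hDδ : gD τ ^ (p - 1) ≠ 0 := pow_ne_zero _ hDτ
  field_simp

end Pool.Agent.HS37.C4
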