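import Pool.Agent.HS37.C3.Stm
import Pool.Agent.HS37.CQ.Luc

set_option autoImplicit false

open Pool.Agent.HS37.SP Pool.Agent.HS37.CQ

namespace Pool.Agent.HS37.C3

open HYP LUC in
theorem t_LUC3 (hP : S_PAR3) (hU : S_UDV3) (hE : S_EXP3) (hR : S_PRE3) : S_LUC3 := by
  intro p hp hp3
  obtain ⟨-, -, -, -, -, -, -, -, h6, -, -, -, -, -, h10, -⟩ := hE
  obtain ⟨-, -, -, -, -, -, -, -, h4, -⟩ := hR
  rw [isInt_iff] at h6 h4
  have hct : dt ∈ intR := by
    unfold dt
    refine mul_mem h4 (inv_mem (pow_mem h6 3) ?_)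
    rw [PowerSeries.coeff_zero_eq_constantCoeff_apply] at h10
    rw [map_pow, h10, one_pow]
  obtain ⟨-, hU2, hU3, -⟩ := hU
  haveI : Fact p.Prime := ⟨hp⟩
  have h10' : PowerSeries.constantCoeff dP = 1 := by
    rw [← PowerSeries.coeff_zero_eq_constantCoeff_apply]
    exact h10
  obtain ⟨T, hT⟩ := hct
  obtain ⟨P, hPz⟩ := h6
  have hinj : Function.Injective (Int.castRingHom ℂ) := Int.cast_injective
  -- over the integers
  have hint : ∀ N : ℕ, PowerSeries.X ^ N ∣ P - ∑ n ∈ Finset.range N, PowerSeries.C ((vv n : ℕ) : ℤ) * T ^ n := by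
    intro N
    have h1 := hP N
    rw [PowerSeries.X_pow_dvd_iff] at h1 ⊢
    intro m hm
    have h2 := h1 m hm
    have h3 : dP - ∑ n ∈ Finset.range N, PowerSeries.C (vv n : ℂ) * dt ^ n =
        PowerSeries.map (Int.castRingHom ℂ) (P - ∑ n ∈ Finset.range N, PowerSeries.C ((vv n : ℕ) : ℤ) * T ^ n) := by
      rw [map_sub, map_sum, hPz]
      congr 1
      refine Finset.sum_congr rfl fun n _ => ?_
      rw [map_mul, map_pow, hT, PowerSeries.map_C]
      simp
    rw [h3, PowerSeries.coeff_map] at h2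
    exact hinj (by rw [h2, map_zero])
  set φ := PowerSeries.map (Int.castRingHom (ZMod p)) with hφ
  have hmod : ∀ N : ℕ, PowerSeries.X ^ N ∣ φ P - ∑ n ∈ Finset.range N, PowerSeries.C ((vv n : ℕ) : ZMod p) * (φ T) ^ n := by
    intro N
    have h1 := map_dvd φ (hint N)
    rw [map_pow, map_sub, map_sum] at h1
    have h2 : φ (PowerSeries.X : PowerSeries ℤ) = PowerSeries.X := by
      rw [hφ, PowerSeries.map_X]
    rw [h2] at h1
    convert h1 using 2
    refine Finset.sum_congr rfl fun n _ => ?_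
    rw [map_mul, map_pow, hφ, PowerSeries.map_C]
    simp
  have hPc : PowerSeries.constantCoeff P = 1 := by
    have h1 : PowerSeries.coeff 0 dP = (PowerSeries.coeff 0 P : ℤ) := by
      rw [← hPz, PowerSeries.coeff_map]
      rfl
    rw [h10] at h1
    rw [← PowerSeries.coeff_zero_eq_constantCoeff_apply]
    exact_mod_cast h1.symm
  have hP0 : φ P ≠ 0 := by
    intro h
    have h1 : PowerSeries.coeff 0 (φ P) = 1 := by
      rw [hφ, PowerSeries.coeff_map, PowerSeries.coeff_zero_eq_constantCoeff_apply, hPc, map_one]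
    rw [h, map_zero] at h1
    exact zero_ne_one h1
  have hk := key p vv (φ P) (φ T) (fun a b hab => by
    have h1 := hU3 p a b hp hp3 hab
    have h2 := (ZMod.natCast_eq_natCast_iff _ _ _).2 h1
    rw [h2, Nat.cast_mul]) hmod hP0
  -- only the terms with 3 a < p
  have hA : ∑ a ∈ Finset.range p, PowerSeries.C ((vv a : ℕ) : ZMod p) * (φ T) ^ a =
      ∑ a ∈ Finset.range (p / 3 + 1), PowerSeries.C ((vv a : ℕ) : ZMod p) * (φ T) ^ a := by
    have hle : p / 3 + 1 ≤ p := by
      have := hp.two_le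
      omega
    rw [← Finset.sum_range_add_sum_Ico _ hle]
    rw [add_eq_left]
    refine Finset.sum_eq_zero fun a ha => ?_
    rw [Finset.mem_Ico] at ha
    have h1 := hU2 p a hp hp3 ha.2 (by omega)
    rw [(ZMod.natCast_eq_zero_iff _ _).2 h1, map_zero, zero_mul]
  rw [hA] at hk
  -- divisibility over the integers
  set G : PowerSeries ℤ := (∑ a ∈ Finset.range (p / 3 + 1), PowerSeries.C ((vv a : ℕ) : ℤ) * T ^ a) * P ^ (p - 1) - 1
    with hG
  have hGφ : φ G = 0 := by
    rw [hG, map_sub, map_mul, map_pow, map_one, map_sum, sub_eq_zero, ← hk]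
    congr 1
    refine Finset.sum_congr rfl fun n _ => ?_
    rw [map_mul, map_pow, hφ, PowerSeries.map_C]
    simp
  have hGd : ∀ n, (p : ℤ) ∣ PowerSeries.coeff n G := by
    intro n
    have h1 : PowerSeries.coeff n (φ G) = 0 := by rw [hGφ, map_zero]
    rw [hφ, PowerSeries.coeff_map] at h1
    exact (ZMod.intCast_zmod_eq_zero_iff_dvd _ _).1 (by simpa using h1)
  choose w hw using hGd
  refine ⟨PowerSeries.map (Int.castRingHom ℂ) (PowerSeries.mk w), ?_, ?_⟩
  · intro n
    exact ⟨w n, by simp⟩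
  · have hGw : G = PowerSeries.C (p : ℤ) * PowerSeries.mk w := by
      ext n
      rw [PowerSeries.coeff_C_mul, PowerSeries.coeff_mk, hw n]
    have h1 : PowerSeries.map (Int.castRingHom ℂ) G =
        (∑ a ∈ Finset.range (p / 3 + 1), PowerSeries.C (vv a : ℂ) * dt ^ a) * dP ^ (p - 1) - 1 := by
      rw [hG, map_sub, map_mul, map_pow, map_one, map_sum, hPz]
      congr 2
      refine Finset.sum_congr rfl fun n _ => ?_
      rw [map_mul, map_pow, hT, PowerSeries.map_C]
      simp
    have h2 : PowerSeries.map (Int.castRingHom ℂ) G = PowerSeries.C (p : ℂ) *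
        PowerSeries.map (Int.castRingHom ℂ) (PowerSeries.mk w) := by
      rw [hGw, map_mul, PowerSeries.map_C]
      simp
    rw [← h2, h1, add_sub_cancel, Finset.sum_mul]
    refine Finset.sum_congr rfl fun n hn => ?_
    rw [Finset.mem_range] at hn
    have h3 : 3 * n ≤ p - 1 := by
      have h4 : 3 * n ≤ p := by omega
      have h5 : ¬ 3 ∣ p := by
        intro h
        have := (Nat.prime_dvd_prime_iff_eq Nat.prime_three hp).1 h
        omega
      omega
    have h4 : dt * dP ^ 3 = dD := by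
      unfold dt
      rw [mul_assoc, PowerSeries.inv_mul_cancel, mul_one]
      rw [map_pow, h10', one_pow]
      exact one_ne_zero
    obtain ⟨m, hm⟩ := Nat.exists_eq_add_of_le h3
    rw [hm, Nat.add_sub_cancel_left, pow_add, pow_mul, ← h4, mul_pow]
    ring

end Pool.Agent.HS37.C3
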