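import Pool.Agent.HS37.C4.Stm
import Pool.Agent.HS37.CV.NUMK

/-!
# Project C4, piece NUM3 (helper61): the numerical value of `y(τ_L)`
-/

set_option autoImplicit false

open UpperHalfPlane ModularForm ModularFormClass MatrixGroups EisensteinSeries Complex
open Pool.Agent.HS37.SP Pool.Agent.HS37.CQ Pool.Agent.HS37.C3
open Pool.Agent.HS37.CV.NumK (eis4 eis2 eis4_zero eis2_zero pow_bd sig_bd eis4_bd eis2_bd tail coef_bd sig3_2)

namespace Pool.Agent.HS37.C4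

namespace Num3

theorem eis6 (n : ℕ) (hn : n ≠ 0) :
    PowerSeries.coeff n (eis 6) = -504 * (ArithmeticFunction.sigma 5 n : ℂ) := by
  unfold eis
  rw [PowerSeries.coeff_mk, if_neg hn, show bernoulli 6 = 1 / 42 by decide +kernel]
  push_cast
  ring

theorem eis6_zero : PowerSeries.coeff 0 (eis 6) = 1 := by
  unfold eis
  rw [PowerSeries.coeff_mk, if_pos rfl]

theorem eis6_bd (n : ℕ) : ‖PowerSeries.coeff n (eis 6)‖ ≤ 504 * (64 : ℝ) ^ n := by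
  rcases Nat.eq_zero_or_pos n with rfl | hn
  · rw [eis6_zero]; norm_num
  · rw [eis6 n hn.ne', norm_mul]
    have h := sig_bd 5 n
    have h504 : ‖(-504 : ℂ)‖ = 504 := by norm_num
    rw [h504]
    norm_num at h ⊢
    linarith

theorem dde (n : ℕ) : PowerSeries.coeff n de =
    1 / 240 * (PowerSeries.coeff n (eis 4) -
      (if 3 ∣ n then PowerSeries.coeff (n / 3) (eis 4) else 0)) := by
  unfold de vps
  rw [PowerSeries.coeff_C_mul, map_sub, PowerSeries.coeff_mk]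

theorem ddP (n : ℕ) : PowerSeries.coeff n dP =
    1 / 2 * (3 * (if 3 ∣ n then PowerSeries.coeff (n / 3) (eis 2) else 0) -
      PowerSeries.coeff n (eis 2)) := by
  unfold dP vps
  have h3 : (3 : PowerSeries ℂ) = PowerSeries.C (3 : ℂ) := by
    rw [map_ofNat]
  rw [PowerSeries.coeff_C_mul, map_sub, h3, PowerSeries.coeff_C_mul, PowerSeries.coeff_mk]

theorem third_bd (c : ℕ → ℂ) (M x : ℝ) (hM : 0 ≤ M) (hx : 1 ≤ x) (hc : ∀ n, ‖c n‖ ≤ M * x ^ n)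
    (n : ℕ) : ‖(if 3 ∣ n then c (n / 3) else 0 : ℂ)‖ ≤ M * x ^ n := by
  split_ifs with h
  · refine (hc _).trans (mul_le_mul_of_nonneg_left ?_ hM)
    exact pow_le_pow_right₀ hx (Nat.div_le_self n 3)
  · rw [norm_zero]; positivity

theorem de_bd (n : ℕ) : ‖PowerSeries.coeff n de‖ ≤ 2 * (16 : ℝ) ^ n := by
  rw [dde, norm_mul]
  have h1 := eis4_bd n
  have h2 := third_bd (fun n => PowerSeries.coeff n (eis 4)) 240 16 (by norm_num) (by norm_num)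
    eis4_bd n
  have h3 := norm_sub_le (PowerSeries.coeff n (eis 4))
    (if 3 ∣ n then PowerSeries.coeff (n / 3) (eis 4) else 0)
  have h4 : ‖(1 / 240 : ℂ)‖ = 1 / 240 := by norm_num
  rw [h4]
  linarith

theorem dP_bd (n : ℕ) : ‖PowerSeries.coeff n dP‖ ≤ 48 * (4 : ℝ) ^ n := by
  rw [ddP, norm_mul]
  have h1 := eis2_bd n
  have h2 := third_bd (fun n => PowerSeries.coeff n (eis 2)) 24 4 (by norm_num) (by norm_num)
    eis2_bd n
  have h3 := norm_sub_le (3 * (if 3 ∣ n then PowerSeries.coeff (n / 3) (eis 2) else 0))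
    (PowerSeries.coeff n (eis 2))
  have h5 : ‖3 * (if 3 ∣ n then PowerSeries.coeff (n / 3) (eis 2) else 0 : ℂ)‖ =
      3 * ‖(if 3 ∣ n then PowerSeries.coeff (n / 3) (eis 2) else 0 : ℂ)‖ := by
    rw [norm_mul]; norm_num
  have h4 : ‖(1 / 2 : ℂ)‖ = 1 / 2 := by norm_num
  rw [h4]
  linarith

theorem sig3_3 : ArithmeticFunction.sigma 3 3 = 28 := by decide
theorem sig1_2 : ArithmeticFunction.sigma 1 2 = 3 := by decide
theorem sig1_3 : ArithmeticFunction.sigma 1 3 = 4 := by decide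
theorem sig5_2 : ArithmeticFunction.sigma 5 2 = 33 := by decide
theorem sig5_3 : ArithmeticFunction.sigma 5 3 = 244 := by decide

theorem de0 : PowerSeries.coeff 0 de = 0 := by
  rw [dde, eis4_zero]; norm_num [eis4_zero]

theorem de1 : PowerSeries.coeff 1 de = 1 := by
  rw [dde, eis4 1 (by norm_num)]; norm_num

theorem de2 : PowerSeries.coeff 2 de = 9 := by
  rw [dde, eis4 2 (by norm_num), sig3_2]; norm_num

theorem de3 : PowerSeries.coeff 3 de = 27 := by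
  rw [dde, eis4 3 (by norm_num), sig3_3]
  have : PowerSeries.coeff (3 / 3) (eis 4) = 240 := by
    norm_num
    rw [eis4 1 (by norm_num)]; norm_num
  rw [if_pos (dvd_refl 3), this]
  norm_num

theorem dP0 : PowerSeries.coeff 0 dP = 1 := by
  rw [ddP, eis2_zero]; norm_num [eis2_zero]

theorem dP1 : PowerSeries.coeff 1 dP = 12 := by
  rw [ddP, eis2 1 (by norm_num)]; norm_num

theorem dP2 : PowerSeries.coeff 2 dP = 36 := by
  rw [ddP, eis2 2 (by norm_num), sig1_2]; norm_num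

theorem dP3 : PowerSeries.coeff 3 dP = 12 := by
  rw [ddP, eis2 3 (by norm_num), sig1_3]
  have : PowerSeries.coeff (3 / 3) (eis 2) = -24 := by
    norm_num
    rw [eis2 1 (by norm_num)]; norm_num
  rw [if_pos (dvd_refl 3), this]
  norm_num

theorem ei1 : PowerSeries.coeff 1 (eis 6) = -504 := by
  rw [eis6 1 (by norm_num)]; norm_num

theorem ei2 : PowerSeries.coeff 2 (eis 6) = -16632 := by
  rw [eis6 2 (by norm_num), sig5_2]; norm_num

theorem ei3 : PowerSeries.coeff 3 (eis 6) = -122976 := by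
  rw [eis6 3 (by norm_num), sig5_3]; norm_num

/-- `q` at `τ_L` -/
theorem qq_tauL : qq (tauL : ℂ) = -((Real.exp (Real.pi * Real.sqrt 123 / 3) : ℝ) : ℂ)⁻¹ := by
  have him : 0 < (((3 + Complex.I * ((Real.sqrt 123 : ℝ) : ℂ)) / 6 : ℂ)).im := by
    have h : (((3 + Complex.I * ((Real.sqrt 123 : ℝ) : ℂ)) / 6 : ℂ)).im = Real.sqrt 123 / 6 := by
      rw [show ((3 + Complex.I * ((Real.sqrt 123 : ℝ) : ℂ)) / 6 : ℂ) =
        (3 + Complex.I * ((Real.sqrt 123 : ℝ) : ℂ)) / ((6 : ℝ) : ℂ) by norm_num,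
        Complex.div_ofReal_im]
      simp
    rw [h]
    positivity
  have hc : ((tauL : ℍ) : ℂ) = (3 + Complex.I * ((Real.sqrt 123 : ℝ) : ℂ)) / 6 := by
    unfold tauL
    rw [ofComplex_apply_of_im_pos him]
  unfold qq
  rw [hc]
  have h1 : 2 * (Real.pi : ℂ) * Complex.I * ((3 + Complex.I * ((Real.sqrt 123 : ℝ) : ℂ)) / 6) =
      (Real.pi : ℂ) * Complex.I + (((-(Real.pi * Real.sqrt 123 / 3) : ℝ)) : ℂ) := by
    push_cast
    have := Complex.I_mul_I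
    linear_combination (1 / 3 : ℂ) * (Real.pi : ℂ) * ((Real.sqrt 123 : ℝ) : ℂ) * this
  rw [h1, Complex.exp_add, Complex.exp_pi_mul_I, ← Complex.ofReal_exp, Real.exp_neg]
  push_cast
  ring

theorem sqrt123_gt : (11.0905365064 : ℝ) < Real.sqrt 123 := by
  rw [Real.lt_sqrt (by norm_num)]
  norm_num

theorem sqrt123_lt : Real.sqrt 123 < (11.0905365065 : ℝ) := by
  rw [Real.sqrt_lt' (by norm_num)]
  norm_num

theorem exp_lower : (110633.9 : ℝ) < Real.exp (Real.pi * Real.sqrt 123 / 3) := by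
  have hs := sqrt123_gt
  have hp := Real.pi_gt_d20
  have h1 : (11 : ℝ) + 0.6139826709 ≤ Real.pi * Real.sqrt 123 / 3 := by
    have h := mul_le_mul hp.le hs.le (by norm_num) Real.pi_pos.le
    have h2 : (3 : ℝ) * (11 + 0.6139826709) ≤ 3.14159265358979323846 * 11.0905365064 := by norm_num
    linarith
  refine lt_of_lt_of_le ?_ (Real.exp_le_exp.2 h1)
  rw [Real.exp_add]
  have h2 : Real.exp 11 = Real.exp 1 ^ 11 := by
    rw [← Real.exp_nat_mul]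
    norm_num
  have h3 : (2.7182818283 : ℝ) ^ 11 ≤ Real.exp 1 ^ 11 :=
    pow_le_pow_left₀ (by norm_num) Real.exp_one_gt_d9.le 11
  have h4 : ∑ i ∈ Finset.range 9, (0.6139826709 : ℝ) ^ i / i.factorial ≤
      Real.exp 0.6139826709 := Real.sum_le_exp_of_nonneg (by norm_num) 9
  have h5 : (1.84777580 : ℝ) ≤
      ∑ i ∈ Finset.range 9, (0.6139826709 : ℝ) ^ i / i.factorial := by
    simp only [Finset.sum_range_succ, Finset.sum_range_zero, Nat.factorial]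
    norm_num
  rw [h2]
  refine lt_of_lt_of_le ?_ (mul_le_mul h3 (h5.trans h4) (by norm_num) (by positivity))
  norm_num

theorem exp_upper : Real.exp (Real.pi * Real.sqrt 123 / 3) < (110634.1 : ℝ) := by
  have hs := sqrt123_lt
  have hp := Real.pi_lt_d20
  have h1 : Real.pi * Real.sqrt 123 / 3 ≤ (11 : ℝ) + 0.6139826711 := by
    have h := mul_le_mul hp.le hs.le (Real.sqrt_nonneg _) (by norm_num)
    have h2 : (3.14159265358979323847 : ℝ) * 11.0905365065 ≤ 3 * (11 + 0.6139826711) := by norm_num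
    linarith
  refine lt_of_le_of_lt (Real.exp_le_exp.2 h1) ?_
  rw [Real.exp_add]
  have h2 : Real.exp 11 = Real.exp 1 ^ 11 := by
    rw [← Real.exp_nat_mul]
    norm_num
  have h3 : Real.exp 1 ^ 11 ≤ (2.7182818286 : ℝ) ^ 11 :=
    pow_le_pow_left₀ (Real.exp_pos 1).le Real.exp_one_lt_d9.le 11
  have h4 : Real.exp 0.6139826711 ≤
      ∑ i ∈ Finset.range 9, (0.6139826711 : ℝ) ^ i / i.factorial +
        (0.6139826711 : ℝ) ^ 9 * ((9 : ℕ) + 1) / (Nat.factorial 9 * (9 : ℕ)) :=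
    Real.exp_bound' (by norm_num) (by norm_num) (by norm_num)
  have h5 : ∑ i ∈ Finset.range 9, (0.6139826711 : ℝ) ^ i / i.factorial +
        (0.6139826711 : ℝ) ^ 9 * ((9 : ℕ) + 1) / (Nat.factorial 9 * (9 : ℕ)) ≤ (1.84777586 : ℝ) := by
    simp only [Finset.sum_range_succ, Finset.sum_range_zero, Nat.factorial]
    norm_num
  rw [h2]
  refine lt_of_le_of_lt (mul_le_mul h3 (h4.trans h5) (Real.exp_pos _).le (by norm_num)) ?_
  norm_num

/-- the estimate of `D` -/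
theorem D_bd (q P e E D : ℂ) (r : ℝ) (hr0 : 0 < r) (hr : r ≤ 1 / 10 ^ 5) (hq : ‖q‖ = r)
    (hP : ‖P - (1 + 12 * q + 36 * q ^ 2 + 12 * q ^ 3)‖ ≤ 24576 * r ^ 4)
    (he : ‖e - (q + 9 * q ^ 2 + 27 * q ^ 3)‖ ≤ 262144 * r ^ 4)
    (hE : ‖E - (1 + -504 * q + -16632 * q ^ 2 + -122976 * q ^ 3)‖ ≤ 16911433728 * r ^ 4)
    (hD : D = 7 / 2 * (e * P) - (P ^ 3 - E) / 216) :
    ‖P - 1 - 12 * q - 36 * q ^ 2‖ ≤ 13 * r ^ 3 ∧ ‖D - q + 6 * q ^ 2‖ ≤ 2100 * r ^ 3 := by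
  obtain ⟨u₃, hu3⟩ : ∃ x, x = P - 1 - 12 * q - 36 * q ^ 2 := ⟨_, rfl⟩
  obtain ⟨e₃, he3⟩ : ∃ x, x = e - q - 9 * q ^ 2 := ⟨_, rfl⟩
  obtain ⟨s₃, hs3⟩ : ∃ x, x = E - 1 + 504 * q + 16632 * q ^ 2 := ⟨_, rfl⟩
  obtain ⟨u, hu⟩ : ∃ x, x = P - 1 := ⟨_, rfl⟩
  have hr3 : 0 < r ^ 3 := by positivity
  have hr4 : r ^ 4 ≤ r ^ 3 * (1 / 10 ^ 5) := by
    have : r ^ 4 = r ^ 3 * r := by ring
    rw [this]
    exact mul_le_mul_of_nonneg_left hr hr3.le
  have n12 : ‖(12 : ℂ)‖ = 12 := by norm_num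
  have n27 : ‖(27 : ℂ)‖ = 27 := by norm_num
  have n122 : ‖(-122976 : ℂ)‖ = 122976 := by norm_num
  have nu3 : ‖u₃‖ ≤ 13 * r ^ 3 := by
    have h1 : u₃ = (P - (1 + 12 * q + 36 * q ^ 2 + 12 * q ^ 3)) + 12 * q ^ 3 := by rw [hu3]; ring
    rw [h1]
    refine (norm_add_le _ _).trans ?_
    rw [norm_mul, norm_pow, hq, n12]
    linarith
  have ne3 : ‖e₃‖ ≤ 30 * r ^ 3 := by
    have h1 : e₃ = (e - (q + 9 * q ^ 2 + 27 * q ^ 3)) + 27 * q ^ 3 := by rw [he3]; ring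
    rw [h1]
    refine (norm_add_le _ _).trans ?_
    rw [norm_mul, norm_pow, hq, n27]
    linarith
  have ns3 : ‖s₃‖ ≤ 292100 * r ^ 3 := by
    have h1 : s₃ = (E - (1 + -504 * q + -16632 * q ^ 2 + -122976 * q ^ 3)) + -122976 * q ^ 3 := by
      rw [hs3]; ring
    rw [h1]
    refine (norm_add_le _ _).trans ?_
    rw [norm_mul, norm_pow, hq, n122]
    linarith
  have hr2 : r ^ 2 ≤ r * (1 / 10 ^ 5) := by
    rw [pow_two]
    exact mul_le_mul_of_nonneg_left hr hr0.le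
  have hr3' : r ^ 3 ≤ r * (1 / 10 ^ 5) := by
    have : r ^ 3 = r ^ 2 * r := by ring
    rw [this]
    have h1 : r ^ 2 * r ≤ r ^ 2 * 1 := mul_le_mul_of_nonneg_left (by linarith) (by positivity)
    linarith
  have nu : ‖u‖ ≤ 13 * r := by
    have h1 : u = (12 * q + 36 * q ^ 2) + u₃ := by rw [hu, hu3]; ring
    rw [h1]
    refine (norm_add_le _ _).trans ?_
    have h2 := norm_add_le (12 * q) (36 * q ^ 2)
    rw [norm_mul, norm_mul, norm_pow, hq, n12] at h2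
    have n36 : ‖(36 : ℂ)‖ = 36 := by norm_num
    rw [n36] at h2
    linarith
  refine ⟨by rw [← hu3]; exact nu3, ?_⟩
  have key : D - q + 6 * q ^ 2 = 492 * q ^ 3 + 1116 * q ^ 4 +
      7 / 2 * ((q + 9 * q ^ 2) * u₃ + e₃ * (1 + u)) -
      1 / 216 * (3 * u₃ * (1 + 2 * u - u₃) + u ^ 3 - s₃) := by
    have h1 : P = 1 + (12 * q + 36 * q ^ 2 + u₃) := by rw [hu3]; ring
    have h2 : e = q + 9 * q ^ 2 + e₃ := by rw [he3]; ring
    have h3 : E = s₃ + 1 - 504 * q - 16632 * q ^ 2 := by rw [hs3]; ring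
    have h4 : u = 12 * q + 36 * q ^ 2 + u₃ := by rw [hu, h1]; ring
    rw [hD, h4, h1, h2, h3]
    ring
  have n1 : ‖(492 : ℂ) * q ^ 3‖ = 492 * r ^ 3 := by
    rw [norm_mul, norm_pow, hq]; norm_num
  have n2 : ‖(1116 : ℂ) * q ^ 4‖ = 1116 * r ^ 4 := by
    rw [norm_mul, norm_pow, hq]; norm_num
  have n3 : ‖(q + 9 * q ^ 2) * u₃‖ ≤ r ^ 3 := by
    rw [norm_mul]
    have h1 : ‖q + 9 * q ^ 2‖ ≤ 2 * r := by
      refine (norm_add_le _ _).trans ?_
      rw [norm_mul, norm_pow, hq]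
      have : ‖(9 : ℂ)‖ = 9 := by norm_num
      rw [this]
      linarith
    calc ‖q + 9 * q ^ 2‖ * ‖u₃‖ ≤ (2 * r) * (13 * r ^ 3) :=
          mul_le_mul h1 nu3 (norm_nonneg _) (by positivity)
      _ = 26 * r ^ 4 := by ring
      _ ≤ r ^ 3 := by linarith
  have n4 : ‖e₃ * (1 + u)‖ ≤ 60 * r ^ 3 := by
    rw [norm_mul]
    have h1 : ‖1 + u‖ ≤ 2 := by
      refine (norm_add_le _ _).trans ?_
      rw [norm_one]
      linarith
    calc ‖e₃‖ * ‖1 + u‖ ≤ (30 * r ^ 3) * 2 := mul_le_mul ne3 h1 (norm_nonneg _) (by positivity)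
      _ = 60 * r ^ 3 := by ring
  have n5 : ‖3 * u₃ * (1 + 2 * u - u₃)‖ ≤ 78 * r ^ 3 := by
    rw [norm_mul, norm_mul]
    have h1 : ‖1 + 2 * u - u₃‖ ≤ 2 := by
      refine (norm_sub_le _ _).trans ?_
      have h2 := norm_add_le (1 : ℂ) (2 * u)
      rw [norm_one, norm_mul] at h2
      have : ‖(2 : ℂ)‖ = 2 := by norm_num
      rw [this] at h2
      linarith
    have h3 : ‖(3 : ℂ)‖ = 3 := by norm_num
    rw [h3]
    calc 3 * ‖u₃‖ * ‖1 + 2 * u - u₃‖ ≤ (3 * (13 * r ^ 3)) * 2 :=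
          mul_le_mul (mul_le_mul_of_nonneg_left nu3 (by norm_num)) h1 (norm_nonneg _) (by positivity)
      _ = 78 * r ^ 3 := by ring
  have n6 : ‖u ^ 3‖ ≤ 2197 * r ^ 3 := by
    rw [norm_pow]
    calc ‖u‖ ^ 3 ≤ (13 * r) ^ 3 := pow_le_pow_left₀ (norm_nonneg _) nu 3
      _ = 2197 * r ^ 3 := by ring
  rw [key]
  have m1 := norm_sub_le (492 * q ^ 3 + 1116 * q ^ 4 +
      7 / 2 * ((q + 9 * q ^ 2) * u₃ + e₃ * (1 + u)))
      (1 / 216 * (3 * u₃ * (1 + 2 * u - u₃) + u ^ 3 - s₃))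
  have m2 := norm_add_le (492 * q ^ 3 + 1116 * q ^ 4)
    (7 / 2 * ((q + 9 * q ^ 2) * u₃ + e₃ * (1 + u)))
  have m3 := norm_add_le (492 * q ^ 3) (1116 * q ^ 4)
  have m4 : ‖7 / 2 * ((q + 9 * q ^ 2) * u₃ + e₃ * (1 + u))‖ =
      7 / 2 * ‖(q + 9 * q ^ 2) * u₃ + e₃ * (1 + u)‖ := by
    rw [norm_mul]; norm_num
  have m5 := norm_add_le ((q + 9 * q ^ 2) * u₃) (e₃ * (1 + u))
  have m6 : ‖1 / 216 * (3 * u₃ * (1 + 2 * u - u₃) + u ^ 3 - s₃)‖ =
      1 / 216 * ‖3 * u₃ * (1 + 2 * u - u₃) + u ^ 3 - s₃‖ := by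
    rw [norm_mul]; norm_num
  have m7 := norm_sub_le (3 * u₃ * (1 + 2 * u - u₃) + u ^ 3) s₃
  have m8 := norm_add_le (3 * u₃ * (1 + 2 * u - u₃)) (u ^ 3)
  linarith

/-- algebra: the main estimate -/
theorem main_bd (q P D : ℂ) (r : ℝ) (hr0 : 0 < r) (hr : r ≤ 1 / 10 ^ 5) (hq : ‖q‖ = r)
    (hP : ‖P - 1 - 12 * q - 36 * q ^ 2‖ ≤ 13 * r ^ 3) (hD : ‖D - q + 6 * q ^ 2‖ ≤ 2100 * r ^ 3) :
    ‖P ^ 3 / D - q⁻¹ - 42‖ < 1 / 4 := by
  have hq0 : q ≠ 0 := by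
    intro h; rw [h, norm_zero] at hq; linarith
  obtain ⟨w, hw⟩ : ∃ x, x = (D - q + 6 * q ^ 2) / q := ⟨_, rfl⟩
  obtain ⟨v, hv⟩ : ∃ x, x = -6 * q + w := ⟨_, rfl⟩
  obtain ⟨u, hu⟩ : ∃ x, x = P - 1 := ⟨_, rfl⟩
  obtain ⟨u₂, hu2⟩ : ∃ x, x = P - 1 - 12 * q := ⟨_, rfl⟩
  have hr2' : 0 < r ^ 2 := by positivity
  have hr2 : r ^ 2 ≤ r * (1 / 10 ^ 5) := by
    rw [pow_two]
    exact mul_le_mul_of_nonneg_left hr hr0.le
  have hr3 : r ^ 3 ≤ r ^ 2 * (1 / 10 ^ 5) := by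
    have : r ^ 3 = r ^ 2 * r := by ring
    rw [this]
    exact mul_le_mul_of_nonneg_left hr hr2'.le
  have nw : ‖w‖ ≤ 2100 * r ^ 2 := by
    rw [hw, norm_div, hq, div_le_iff₀ hr0]
    calc ‖D - q + 6 * q ^ 2‖ ≤ 2100 * r ^ 3 := hD
      _ = 2100 * r ^ 2 * r := by ring
  have nv : ‖v‖ ≤ 7 * r := by
    rw [hv]
    refine (norm_add_le _ _).trans ?_
    rw [norm_mul, hq]
    have : ‖(-6 : ℂ)‖ = 6 := by norm_num
    rw [this]
    linarith
  have nu2 : ‖u₂‖ ≤ 37 * r ^ 2 := by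
    have h1 : u₂ = (P - 1 - 12 * q - 36 * q ^ 2) + 36 * q ^ 2 := by rw [hu2]; ring
    rw [h1]
    refine (norm_add_le _ _).trans ?_
    rw [norm_mul, norm_pow, hq]
    have : ‖(36 : ℂ)‖ = 36 := by norm_num
    rw [this]
    linarith
  have nu : ‖u‖ ≤ 13 * r := by
    have h1 : u = 12 * q + u₂ := by rw [hu, hu2]; ring
    rw [h1]
    refine (norm_add_le _ _).trans ?_
    rw [norm_mul, hq]
    have : ‖(12 : ℂ)‖ = 12 := by norm_num
    rw [this]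
    linarith
  have hv1 : 1 / 2 ≤ ‖1 + v‖ := by
    have := norm_sub_norm_le (1 : ℂ) (-v)
    rw [norm_neg, norm_one, sub_neg_eq_add] at this
    linarith
  have hv0 : 1 + v ≠ 0 := by
    intro h; rw [h, norm_zero] at hv1; linarith
  have hDv : D = q * (1 + v) := by
    rw [hv, hw]; field_simp; ring
  have key : P ^ 3 / D - q⁻¹ - 42 =
      (3 * u₂ + 3 * u ^ 2 + u ^ 3 - w - 42 * (q * v)) / (q * (1 + v)) := by
    rw [eq_div_iff (mul_ne_zero hq0 hv0), hDv]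
    have h1 : P ^ 3 / (q * (1 + v)) * (q * (1 + v)) = P ^ 3 := by
      field_simp
    have h2 : q⁻¹ * (q * (1 + v)) = 1 + v := by
      field_simp
    have h3 : P = 1 + u := by rw [hu]; ring
    have h4 : u₂ = u - 12 * q := by rw [hu, hu2]
    have h5 : w = v + 6 * q := by rw [hv]; ring
    calc (P ^ 3 / (q * (1 + v)) - q⁻¹ - 42) * (q * (1 + v))
        = P ^ 3 / (q * (1 + v)) * (q * (1 + v)) - q⁻¹ * (q * (1 + v)) - 42 * (q * (1 + v)) := by ring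
      _ = P ^ 3 - (1 + v) - 42 * (q * (1 + v)) := by rw [h1, h2]
      _ = _ := by rw [h3, h4, h5]; ring
  rw [key, norm_div, norm_mul, hq, div_lt_iff₀ (by positivity)]
  have nuu : ‖u ^ 2‖ ≤ 169 * r ^ 2 := by
    rw [norm_pow]
    calc ‖u‖ ^ 2 ≤ (13 * r) ^ 2 := pow_le_pow_left₀ (norm_nonneg _) nu 2
      _ = 169 * r ^ 2 := by ring
  have nuuu : ‖u ^ 3‖ ≤ 2197 * r ^ 3 := by
    rw [norm_pow]
    calc ‖u‖ ^ 3 ≤ (13 * r) ^ 3 := pow_le_pow_left₀ (norm_nonneg _) nu 3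
      _ = 2197 * r ^ 3 := by ring
  have nqv : ‖q * v‖ ≤ 7 * r ^ 2 := by
    rw [norm_mul, hq]
    calc r * ‖v‖ ≤ r * (7 * r) := mul_le_mul_of_nonneg_left nv hr0.le
      _ = 7 * r ^ 2 := by ring
  have m1 := norm_sub_le (3 * u₂ + 3 * u ^ 2 + u ^ 3 - w) (42 * (q * v))
  have m2 := norm_sub_le (3 * u₂ + 3 * u ^ 2 + u ^ 3) w
  have m3 := norm_add_le (3 * u₂ + 3 * u ^ 2) (u ^ 3)
  have m4 := norm_add_le (3 * u₂) (3 * u ^ 2)
  have m5 : ‖3 * u₂‖ = 3 * ‖u₂‖ := by rw [norm_mul]; norm_num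
  have m6 : ‖3 * u ^ 2‖ = 3 * ‖u ^ 2‖ := by rw [norm_mul]; norm_num
  have m7 : ‖42 * (q * v)‖ = 42 * ‖q * v‖ := by rw [norm_mul]; norm_num
  have m8 : ‖3 * u₂ + 3 * u ^ 2 + u ^ 3 - w - 42 * (q * v)‖ ≤ 3100 * r ^ 2 := by linarith
  have m9 := mul_le_mul_of_nonneg_left hv1 hr0.le
  linarith

end Num3

open Num3 in
theorem t_NUM3 (hE : S_EXP3) (hS : S_EIS) : S_NUM3 := by
  obtain ⟨he, -, hP, -⟩ := hE
  have hE6 := hS.2.1.2.1
  obtain ⟨r, hr⟩ : ∃ r, r = (Real.exp (Real.pi * Real.sqrt 123 / 3))⁻¹ := ⟨_, rfl⟩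
  have hlow := exp_lower
  have hup := exp_upper
  have hpos : 0 < Real.exp (Real.pi * Real.sqrt 123 / 3) := Real.exp_pos _
  have hr0 : 0 < r := by rw [hr]; positivity
  have hr9 : r ≤ 1 / 10 ^ 5 := by
    rw [hr, inv_le_comm₀ hpos (by norm_num)]
    norm_num
    linarith
  obtain ⟨q, hqd⟩ : ∃ q, q = qq (tauL : ℂ) := ⟨_, rfl⟩
  have hqv := qq_tauL
  rw [← hqd] at hqv
  have hq : ‖q‖ = r := by
    rw [hqv, norm_neg, norm_inv, Complex.norm_real, Real.norm_eq_abs, abs_of_pos hpos, hr]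
  have hqi : q⁻¹ = -((Real.exp (Real.pi * Real.sqrt 123 / 3) : ℝ) : ℂ) := by
    rw [hqv, inv_neg, inv_inv]
  have hsum : ∀ (g : ℍ → ℂ) (c : PowerSeries ℂ), QExp g 0 c →
      HasSum (fun i : ℕ => PowerSeries.coeff i c * q ^ i) (g tauL) := by
    intro g c h
    have := h tauL
    rw [pow_zero, one_mul, ← hqd] at this
    exact this
  have bP := tail (fun i => PowerSeries.coeff i dP) q (gP tauL) 4 48 (4 * r) (by norm_num)
    (by positivity) (by linarith) (hsum _ _ hP)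
    (fun i => coef_bd _ q 48 4 r i (dP_bd i) hq)
  have be := tail (fun i => PowerSeries.coeff i de) q (ge tauL) 4 2 (16 * r) (by norm_num)
    (by positivity) (by linarith) (hsum _ _ he)
    (fun i => coef_bd _ q 2 16 r i (de_bd i) hq)
  have bE := tail (fun i => PowerSeries.coeff i (eis 6)) q (E₆ tauL) 4 504 (64 * r) (by norm_num)
    (by positivity) (by linarith) (hsum _ _ hE6)
    (fun i => coef_bd _ q 504 64 r i (eis6_bd i) hq)
  simp only [Finset.sum_range_succ, Finset.sum_range_zero, zero_add, pow_zero, pow_one, mul_one,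
    de0, de1, de2, de3, dP0, dP1, dP2, dP3, eis6_zero, ei1, ei2, ei3, one_mul] at bP be bE
  have hDD : gD tauL = 7 / 2 * (ge tauL * gP tauL) - (gP tauL ^ 3 - E₆ tauL) / 216 := by
    unfold gD gF
    ring
  obtain ⟨h1, h2⟩ := D_bd q (gP tauL) (ge tauL) (E₆ tauL) (gD tauL) r hr0 hr9 hq
    (bP.trans (le_of_eq (by ring))) (be.trans (le_of_eq (by ring))) (bE.trans (le_of_eq (by ring)))
    hDD
  have m := main_bd q (gP tauL) (gD tauL) r hr0 hr9 hq h1 h2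
  unfold S_NUM3
  have hdiff : gy tauL + 110592 = (gP tauL ^ 3 / gD tauL - q⁻¹ - 42) +
      (((110634 - Real.exp (Real.pi * Real.sqrt 123 / 3) : ℝ)) : ℂ) := by
    unfold gy
    rw [hqi]
    push_cast
    ring
  rw [hdiff]
  refine (norm_add_le _ _).trans_lt ?_
  have hn : ‖(((110634 - Real.exp (Real.pi * Real.sqrt 123 / 3) : ℝ)) : ℂ)‖ < 1 / 2 := by
    rw [Complex.norm_real, Real.norm_eq_abs, abs_lt]
    constructor <;> linarith
  linarith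

end Pool.Agent.HS37.C4
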