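import Pool.Agent.HS37.C3.UDV3
import Pool.Agent.HS37.CQ.PAR

/-!
# Project C4, piece PAR3 (helper71), port of `CQ/PAR`
-/

set_option autoImplicit false

open PowerSeries
open Pool.Agent.HS37.SP Pool.Agent.HS37.CQ Pool.Agent.HS37.CQ.Par Pool.Agent.HS37.C3

namespace Pool.Agent.HS37.C4

namespace Par3

/-- the differential equation -/
theorem ode (P A e F q t E Q : PowerSeries ℂ) (hF : e ^ 2 = P * F) (hE : E = e * P - 27 * F)
    (hP : 3 * tht P = P * A - P ^ 2 + 54 * e) (he : 3 * tht e = 2 * A * e + e * P + 27 * F)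
    (hFd : tht F = F * (A + P)) (hA : 6 * tht A = A ^ 2 - P ^ 2)
    (hQ : Q = P ^ 2 - 54 * e) (hq : Q * q = 1) (ht : t * P ^ 3 = E) (hP0 : P ≠ 0)
    (D : PowerSeries ℂ → PowerSeries ℂ) (hD : ∀ f, D f = P * q * tht f) :
    D (D (D P)) - 108 * t * (D (D (D P)) + C (3 / 2 : ℂ) * D (D P) + C (13 / 18 : ℂ) * D P +
      C (1 / 9 : ℂ) * P) = 0 := by
  obtain ⟨a, ha⟩ : ∃ a, a = P * A - P ^ 2 + 54 * e := ⟨_, rfl⟩
  obtain ⟨b, hb⟩ : ∃ b, b = 2 * A * e + e * P + 27 * F := ⟨_, rfl⟩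
  obtain ⟨r, hr⟩ : ∃ r, r = 2 * P * a - 54 * b := ⟨_, rfl⟩
  obtain ⟨w, hw⟩ : ∃ w, w = A ^ 2 - P ^ 2 := ⟨_, rfl⟩
  obtain ⟨a1, ha1⟩ : ∃ a1, a1 = 2 * a * A + P * w - 4 * P * a + 108 * b := ⟨_, rfl⟩
  obtain ⟨d1, hd1⟩ : ∃ d1, d1 = 2 * A * w - 4 * P * a := ⟨_, rfl⟩
  obtain ⟨b1, hb1⟩ : ∃ b1, b1 = 2 * w * e + 4 * A * b + 2 * b * P + 2 * a * e +
    162 * F * (A + P) := ⟨_, rfl⟩
  obtain ⟨a2, ha2⟩ : ∃ a2, a2 = 2 * (a1 * A + a * w) + (2 * a * w + P * d1) -
    4 * (2 * a * a + P * a1) + 108 * b1 := ⟨_, rfl⟩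
  obtain ⟨m1, hm1⟩ : ∃ m1, m1 = P * a := ⟨_, rfl⟩
  obtain ⟨c1, hc1⟩ : ∃ c1, c1 = 2 * a * a + P * a1 := ⟨_, rfl⟩
  obtain ⟨cr, hcr⟩ : ∃ cr, cr = 2 * (2 * a * a + P * a1) - 54 * b1 := ⟨_, rfl⟩
  obtain ⟨cc, hcc⟩ : ∃ cc, cc = 4 * a * a1 + 2 * a * a1 + P * a2 := ⟨_, rfl⟩
  obtain ⟨m2, hm2⟩ : ∃ m2, m2 = P * (c1 * Q - 2 * m1 * r) := ⟨_, rfl⟩
  obtain ⟨c2, hc2⟩ : ∃ c2, c2 = 2 * a * (c1 * Q - 2 * m1 * r) + P * (cc * Q - 2 * m1 * cr) :=
    ⟨_, rfl⟩
  obtain ⟨m3, hm3⟩ : ∃ m3, m3 = P * (c2 * Q - 6 * m2 * r) := ⟨_, rfl⟩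
  rw [← ha] at hP
  rw [← hb] at he
  rw [← hw] at hA
  -- derivatives
  have dP2 : 3 * tht (P ^ 2) = 2 * P * a := by
    rw [tht_pow]; push_cast; linear_combination 2 * P * hP
  have dA2 : 6 * tht (A ^ 2) = 2 * A * w := by
    rw [tht_pow]; push_cast; linear_combination 2 * A * hA
  have dw : 6 * tht w = d1 := by
    rw [hw, tht_sub, hd1]
    linear_combination dA2 - 2 * dP2
  have dQ : 3 * tht Q = r := by
    rw [hQ, tht_sub, tht_mul, tht_ofNat, hr]
    linear_combination dP2 - 54 * he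
  have da : 6 * tht a = a1 := by
    rw [ha, tht_add, tht_sub, tht_mul, tht_mul, tht_ofNat, ha1]
    linear_combination 2 * A * hP + P * hA - 2 * dP2 + 108 * he
  have db : 6 * tht b = b1 := by
    have e1 : b = 2 * (A * e) + e * P + 27 * F := by rw [hb]; ring
    rw [e1, tht_add, tht_add, tht_mul 2, tht_mul 27, tht_mul A e, tht_mul e P, tht_ofNat, tht_ofNat, hFd, hb1]
    linear_combination 2 * e * hA + (4 * A + 2 * P) * he + 2 * e * hP
  have da1 : 6 * tht a1 = a2 := by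
    have e1 : a1 = 2 * (a * A) + P * w - 4 * (P * a) + 108 * b := by rw [ha1]; ring
    rw [e1, tht_add, tht_sub, tht_add, tht_mul 2, tht_mul 4, tht_mul 108, tht_mul P w,
      tht_mul P a, tht_mul a A, tht_ofNat, tht_ofNat, tht_ofNat, ha2]
    linear_combination (2 * A) * da + (2 * a) * hA + (2 * w) * hP + P * dw - (8 * a) * hP -
      (4 * P) * da + 108 * db
  have dm1 : 6 * tht m1 = c1 := by
    rw [hm1, tht_mul, hc1]
    linear_combination 2 * a * hP + P * da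
  have dr : 6 * tht r = cr := by
    have e1 : r = 2 * (P * a) - 54 * b := by rw [hr]; ring
    rw [e1, tht_sub, tht_mul 2, tht_mul 54, tht_mul P a, tht_ofNat, tht_ofNat, hcr]
    linear_combination 4 * a * hP + 2 * P * da - 54 * db
  have dc1 : 6 * tht c1 = cc := by
    have e1 : c1 = 2 * (a * a) + P * a1 := by rw [hc1]; ring
    rw [e1, tht_add, tht_mul 2, tht_mul a a, tht_mul P a1, tht_ofNat, hcc]
    linear_combination 4 * a * da + 2 * a1 * hP + P * da1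
  have dm2 : 6 * tht m2 = c2 := by
    have e1 : m2 = P * (c1 * Q - 2 * (m1 * r)) := by rw [hm2]; ring
    rw [e1, tht_mul P, tht_sub, tht_mul c1 Q, tht_mul 2, tht_mul m1 r, tht_ofNat, hc2]
    linear_combination 2 * (c1 * Q - 2 * (m1 * r)) * hP + P * Q * dc1 + 2 * P * c1 * dQ -
      2 * P * r * dm1 - 2 * P * m1 * dr
  have dq : 3 * tht q = - r * q ^ 2 := by
    have h1 : tht (Q * q) = 0 := by
      rw [hq]
      have := tht_C 1
      rwa [map_one] at this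
    rw [tht_mul] at h1
    linear_combination 3 * q * h1 - 3 * (tht q) * hq - q ^ 2 * dQ
  -- the operators
  have D1 : 3 * D P = m1 * q := by
    rw [hD, hm1]
    linear_combination P * q * hP
  have D2 : 18 * D (D P) = m2 * q ^ 3 := by
    have h1 : 3 * tht (D P) = tht m1 * q + m1 * tht q := by
      rw [← tht_mul, ← D1, tht_mul, tht_ofNat]
      ring
    rw [hD (D P), hm2]
    linear_combination 6 * P * q * h1 + P * q ^ 2 * dm1 + 2 * P * q * m1 * dq - (P * c1 * q ^ 2) * hq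
  have D3 : 108 * D (D (D P)) = m3 * q ^ 5 := by
    have h1 : 18 * tht (D (D P)) = tht m2 * q ^ 3 + m2 * (3 * q ^ 2 * tht q) := by
      have h2 : tht (q ^ 3) = 3 * q ^ 2 * tht q := by
        rw [tht_pow]; push_cast; ring
      rw [← h2, ← tht_mul, ← D2, tht_mul, tht_ofNat]
      ring
    rw [hD (D (D P)), hm3]
    linear_combination 6 * P * q * h1 + P * q ^ 4 * dm2 + 6 * P * q ^ 3 * m2 * dq - (P * c2 * q ^ 4) * hq
  have key : m3 = 108 * P * E * (9 * m2 + 26 * m1 * Q ^ 2 + 12 * P * Q ^ 3) := by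
    rw [hm3, hc2, hm2, hcc, hcr, hc1, hm1, ha2, hb1, hd1, ha1, hr, hw, hb, ha, hQ, hE]
    linear_combination (23328 * P ^ 7 - 69984 * P ^ 6 * A - 34992 * P ^ 5 * A ^ 2 -
      4408992 * P ^ 4 * A * e + 1889568 * P ^ 3 * A ^ 2 * e - 102036672 * P ^ 3 * A * F -
      102036672 * P ^ 3 * e ^ 2 + 238085568 * P ^ 2 * A * e ^ 2 + 1836660096 * P * e ^ 3) * hF
  have hQ2 : P ^ 4 - 108 * (P * E) = Q ^ 2 := by
    rw [hE, hQ]
    linear_combination (-2916) * hF
  have h108 : (108 : PowerSeries ℂ) = C (108 : ℂ) := by rw [map_ofNat]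
  have c1' : (108 : PowerSeries ℂ) * C (3 / 2 : ℂ) = 162 := by
    rw [h108, ← map_mul, show (108 : ℂ) * (3 / 2) = 162 by norm_num, map_ofNat]
  have c2' : (108 : PowerSeries ℂ) * C (13 / 18 : ℂ) = 78 := by
    rw [h108, ← map_mul, show (108 : ℂ) * (13 / 18) = 78 by norm_num, map_ofNat]
  have c3' : (108 : PowerSeries ℂ) * C (1 / 9 : ℂ) = 12 := by
    rw [h108, ← map_mul, show (108 : ℂ) * (1 / 9) = 12 by norm_num, map_ofNat]
  have hQ0 : Q ≠ 0 := by
    intro h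
    rw [h, zero_mul] at hq
    exact zero_ne_one hq
  have h1080 : (108 : PowerSeries ℂ) ≠ 0 := by
    rw [h108]
    intro h
    have := congrArg (constantCoeff (R := ℂ)) h
    rw [constantCoeff_C, map_zero] at this
    norm_num at this
  have hne : (108 : PowerSeries ℂ) * P ^ 4 * Q ^ 5 ≠ 0 :=
    mul_ne_zero (mul_ne_zero h1080 (pow_ne_zero _ hP0)) (pow_ne_zero _ hQ0)
  apply mul_left_cancel₀ hne
  rw [mul_zero]
  have q5 : q ^ 5 * Q ^ 5 = 1 := by rw [← mul_pow, mul_comm q Q, hq, one_pow]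
  have q3 : q ^ 3 * Q ^ 3 = 1 := by rw [← mul_pow, mul_comm q Q, hq, one_pow]
  have f1 : 108 * P ^ 4 * Q ^ 5 * (D (D (D P)) - 108 * t * (D (D (D P)) +
      C (3 / 2 : ℂ) * D (D P) + C (13 / 18 : ℂ) * D P + C (1 / 9 : ℂ) * P)) =
      P ^ 4 * Q ^ 5 * (108 * D (D (D P))) - 108 * P * (t * P ^ 3) * Q ^ 5 * ((108 * D (D (D P))) +
      (108 * C (3 / 2 : ℂ)) * D (D P) + (108 * C (13 / 18 : ℂ)) * D P +
      (108 * C (1 / 9 : ℂ)) * P) := by ring
  rw [f1, c1', c2', c3', ht, D3]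
  have f2 : P ^ 4 * Q ^ 5 * (m3 * q ^ 5) - 108 * P * E * Q ^ 5 * (m3 * q ^ 5 +
      162 * D (D P) + 78 * D P + 12 * P) =
      (P ^ 4 - 108 * (P * E)) * m3 * (q ^ 5 * Q ^ 5) - 108 * (P * E) * Q ^ 5 *
      (9 * (18 * D (D P)) + 26 * (3 * D P) + 12 * P) := by ring
  rw [f2, D1, D2, q5, hQ2, key]
  linear_combination (-108 * (P * E) * Q ^ 2 * 9 * m2) * q3 -
    (108 * (P * E) * Q ^ 4 * 26 * m1) * hq

end Par3

open Par3 in
/-- **PAR3**: `P = ∑ v_n t^n` -/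
theorem t_PAR3 (hRAM : S_RAM3) (hEXP : S_EXP3) : S_PAR3 := by
  obtain ⟨hs, hF, hPs, hes, hDD, hP, hD, he, hFd, hA⟩ := hRAM
  obtain ⟨-, -, -, -, -, -, -, -, -, -, ze, -, -, -, zP, -, -, zF, -, -, -, zD, -⟩ := hEXP
  rw [coeff_zero_eq_constantCoeff_apply] at ze zP zF zD
  -- the series
  obtain ⟨Q, hQ⟩ : ∃ Q, Q = dP ^ 2 - 54 * de := ⟨_, rfl⟩
  have hQc : constantCoeff Q = 1 := by
    rw [hQ, map_sub, map_pow, map_mul, zP, ze]
    simp
  have hq : Q * Q⁻¹ = 1 := PowerSeries.mul_inv_cancel Q (by rw [hQc]; exact one_ne_zero)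
  have hqc : constantCoeff Q⁻¹ = 1 := by
    have := congrArg (constantCoeff (R := ℂ)) hq
    rw [map_mul, hQc, one_mul, map_one] at this
    exact this
  have hP0 : dP ≠ 0 := by
    intro h
    rw [h, map_zero] at zP
    exact zero_ne_one zP
  have ht : dt * dP ^ 3 = dD := by
    unfold dt
    rw [mul_assoc, PowerSeries.inv_mul_cancel _ (by rw [map_pow, zP]; norm_num), mul_one]
  have hE : dD = de * dP - 27 * dF := rfl
  have dt' : dP * tht dt = dt * Q := by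
    have h1 : tht (dt * dP ^ 3) = tht dD := by rw [ht]
    rw [tht_mul, hD, tht_pow] at h1
    push_cast at h1
    have h2 : dP ^ 2 ≠ 0 := pow_ne_zero _ hP0
    apply mul_left_cancel₀ h2
    rw [hQ]
    linear_combination h1 - dt * dP ^ 2 * hP - dA * ht
  -- the operator
  obtain ⟨u, hu⟩ : ∃ u, u = dP * Q⁻¹ := ⟨_, rfl⟩
  have huc : constantCoeff u = 1 := by rw [hu, map_mul, zP, hqc, one_mul]
  let D : PowerSeries ℂ → PowerSeries ℂ := fun f => u * tht f
  have hD : ∀ f, D f = u * tht f := fun f => rfl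
  have hDadd : ∀ f g, D (f + g) = D f + D g := by
    intro f g
    rw [hD, hD, hD, tht_add]; ring
  have hDC : ∀ (z : ℂ) f, D (C z * f) = C z * D f := by
    intro z f
    rw [hD, hD, tht_mul, tht_C]; ring
  have hDt : D dt = dt := by
    rw [hD, hu]
    linear_combination Q⁻¹ * dt' + dt * hq
  have hDtn : ∀ n : ℕ, D (dt ^ n) = C (n : ℂ) * dt ^ n := by
    intro n
    rw [hD] at hDt ⊢
    rw [tht_pow, map_natCast]
    cases n with
    | zero => simp
    | succ n =>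
      rw [Nat.add_sub_cancel]
      linear_combination ((n + 1 : ℕ) : PowerSeries ℂ) * dt ^ n * hDt
  let Lo : PowerSeries ℂ → PowerSeries ℂ := fun f => D (D (D f)) - 108 * dt * (D (D (D f)) +
    C (3 / 2 : ℂ) * D (D f) + C (13 / 18 : ℂ) * D f + C (1 / 9 : ℂ) * f)
  have hLo : ∀ f, Lo f = D (D (D f)) - 108 * dt * (D (D (D f)) +
    C (3 / 2 : ℂ) * D (D f) + C (13 / 18 : ℂ) * D f + C (1 / 9 : ℂ) * f) := fun f => rfl
  have hLadd : ∀ f g, Lo (f + g) = Lo f + Lo g := by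
    intro f g
    rw [hLo, hLo, hLo, hDadd f g, hDadd (D f), hDadd (D (D f))]
    ring
  have hLP : Lo dP = 0 := Par3.ode dP dA de dF Q⁻¹ dt dD Q hF hE hP he hFd hA hQ hq ht hP0 D (fun f => by
    rw [hD, hu])
  have hLt : ∀ (n : ℕ) (z : ℂ), Lo (C z * dt ^ n) = C (z * n ^ 3) * dt ^ n -
      C (z * (108 * ((n : ℂ) + 1 / 2) * (n + 1 / 3) * (n + 2 / 3))) * dt ^ (n + 1) := by
    intro n z
    have h108 : (108 : PowerSeries ℂ) = C (108 : ℂ) := by rw [map_ofNat]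
    have k1 : D (C z * dt ^ n) = C z * (C (n : ℂ) * dt ^ n) := by rw [hDC, hDtn]
    have k2 : D (D (C z * dt ^ n)) = C z * (C (n : ℂ) * (C (n : ℂ) * dt ^ n)) := by
      rw [k1, hDC, hDC, hDtn]
    have k3 : D (D (D (C z * dt ^ n))) =
        C z * (C (n : ℂ) * (C (n : ℂ) * (C (n : ℂ) * dt ^ n))) := by
      rw [k2, hDC, hDC, hDC, hDtn]
    rw [hLo, k3, k2, k1]
    have e1 : C (z * (n : ℂ) ^ 3) = C z * (C (n : ℂ) * (C (n : ℂ) * C (n : ℂ))) := by
      rw [← map_mul, ← map_mul, ← map_mul]; congr 1; ring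
    have e2 : C (z * (108 * ((n : ℂ) + 1 / 2) * (n + 1 / 3) * (n + 2 / 3))) =
        C (108 : ℂ) * C z * (C (n : ℂ) * (C (n : ℂ) * C (n : ℂ)) +
          C (3 / 2 : ℂ) * (C (n : ℂ) * C (n : ℂ)) + C (13 / 18 : ℂ) * C (n : ℂ) +
          C (1 / 9 : ℂ)) := by
      rw [← map_mul, ← map_mul, ← map_mul, ← map_mul, ← map_mul, ← map_add, ← map_add,
        ← map_add, ← map_mul]
      congr 1
      ring
    rw [e1, e2, h108]
    ring
  -- partial sums
  let F : ℕ → PowerSeries ℂ := fun N => ∑ n ∈ Finset.range N, C (vv n : ℂ) * dt ^ n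
  have hF : ∀ N, F (N + 1) = F N + C (vv N : ℂ) * dt ^ N := fun N =>
    Finset.sum_range_succ _ N
  have hLF : ∀ N : ℕ, Lo (F N) = - (C ((vv N : ℂ) * (N : ℂ) ^ 3) * dt ^ N) := by
    intro N
    induction N with
    | zero =>
      have h0 : F 0 = 0 := Finset.sum_range_zero _
      have hD0 : D 0 = 0 := by rw [hD, tht_zero, mul_zero]
      rw [h0, hLo, hD0, hD0, hD0]
      simp
    | succ N ih =>
      rw [hF, hLadd, ih, hLt]
      have h1 : ((vv (N + 1) : ℕ) : ℂ) * ((N + 1 : ℕ) : ℂ) ^ 3 =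
          (vv N : ℂ) * (108 * ((N : ℂ) + 1 / 2) * (N + 1 / 3) * (N + 2 / 3)) := by
        have h2 : ((((N + 1) ^ 3 * vv (N + 1) : ℕ)) : ℂ) =
            ((6 * (2 * N + 1) * (3 * N + 1) * (3 * N + 2) * vv N : ℕ) : ℂ) := by
          rw [t_UDV3.2.2.2.2 N]
        push_cast at h2 ⊢
        linear_combination h2
      rw [h1]
      ring
  -- lowest terms
  have htX : X ∣ dt := by
    rw [X_dvd_iff]
    unfold dt
    rw [map_mul, zD, zero_mul]
  intro N
  rcases Nat.eq_zero_or_pos N with rfl | hN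
  · rw [pow_zero]
    exact one_dvd _
  obtain ⟨g, hg⟩ : ∃ g, g = dP - F N := ⟨_, rfl⟩
  have hgL : Lo g = C ((vv N : ℂ) * (N : ℂ) ^ 3) * dt ^ N := by
    have h1 : Lo (g + F N) = 0 := by
      rw [hg, sub_add_cancel, hLP]
    rw [hLadd, hLF] at h1
    linear_combination h1
  have hXN : X ^ N ∣ Lo g := by
    rw [hgL]
    exact (pow_dvd_pow_of_dvd htX N).mul_left _
  have hg0 : constantCoeff g = 0 := by
    obtain ⟨M, rfl⟩ : ∃ M, N = M + 1 := ⟨N - 1, by omega⟩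
    have h1 : F (M + 1) = ∑ n ∈ Finset.range M, C (vv (n + 1) : ℂ) * dt ^ (n + 1) +
        C (vv 0 : ℂ) * dt ^ 0 := Finset.sum_range_succ' _ M
    rw [hg, h1, map_sub, map_add, map_sum, zP]
    have h2 : ∑ n ∈ Finset.range M, constantCoeff (C (vv (n + 1) : ℂ) * dt ^ (n + 1)) = 0 := by
      refine Finset.sum_eq_zero fun n _ => ?_
      rw [map_mul, map_pow, X_dvd_iff.1 htX]
      simp
    rw [h2]
    simp [vv]
  have main : ∀ m, m ≤ N → X ^ m ∣ g := by
    intro m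
    induction m with
    | zero =>
      intro _
      rw [pow_zero]
      exact one_dvd _
    | succ m ih =>
      intro hm
      rcases Nat.eq_zero_or_pos m with rfl | hm0
      · rw [zero_add, pow_one]
        exact X_dvd_iff.2 hg0
      have h0 := ih (by omega)
      obtain ⟨d1, e1⟩ := low u huc m g h0
      obtain ⟨d2, e2⟩ := low u huc m (D g) d1
      obtain ⟨d3, e3⟩ := low u huc m (D (D g)) d2
      have h1 : coeff m (Lo g) = 0 := by
        exact (X_pow_dvd_iff.1 hXN) m (by omega)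
      have h2 : X ^ (m + 1) ∣ 108 * dt * (D (D (D g)) +
          C (3 / 2 : ℂ) * D (D g) + C (13 / 18 : ℂ) * D g + C (1 / 9 : ℂ) * g) := by
        rw [pow_succ']
        refine mul_dvd_mul (htX.mul_left _) ?_
        exact dvd_add (dvd_add (dvd_add d3 (d2.mul_left _)) (d1.mul_left _)) (h0.mul_left _)
      have h3 := (X_pow_dvd_iff.1 h2) m (by omega)
      rw [hLo, map_sub, h3, sub_zero] at h1
      have h4 : coeff m g = 0 := by
        have h5 : (m : ℂ) * (m * (m * coeff m g)) = 0 := by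
          rw [← e1]
          change (m : ℂ) * (m * coeff m (D g)) = 0
          rw [← e2]
          change (m : ℂ) * coeff m (D (D g)) = 0
          rw [← e3]
          exact h1
        have hm' : (m : ℂ) ≠ 0 := by exact_mod_cast hm0.ne'
        have h6 := (mul_eq_zero.1 h5).resolve_left hm'
        have h7 := (mul_eq_zero.1 h6).resolve_left hm'
        exact (mul_eq_zero.1 h7).resolve_left hm'
      rw [X_pow_dvd_iff]
      intro i hi
      rcases Nat.lt_succ_iff_lt_or_eq.1 hi with h | h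
      · exact (X_pow_dvd_iff.1 h0) i h
      · rw [h, h4]
  have hfin := main N le_rfl
  rw [hg] at hfin
  exact hfin

end Pool.Agent.HS37.C4
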