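import Pool.Agent.HS37.C4.Stm
import Pool.Agent.HS37.CQ.Gex

/-!
# Project C4, piece PRY: the function `y = P³ / D`
-/

set_option autoImplicit false

open UpperHalfPlane
open Pool.Agent.HS37.SP Pool.Agent.HS37.CQ Pool.Agent.HS37.C3

namespace Pool.Agent.HS37.C4

noncomputable section

namespace PRY

/-- the expansion of `y` -/
theorem gy_exp (hPRE : S_PRE3) (hEXP : S_EXP3) :
    ∃ c : PowerSeries ℂ, QExp gy 1 c ∧ IsInt c ∧ PowerSeries.coeff 0 c = 1 := by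
  obtain ⟨c, hc1, hc2, -, hc3⟩ := hPRE.2.2.2.2.2.2.2.2.2.1
  have hP : QExp gP 0 dP := hEXP.2.2.1
  have hPi : IsInt dP := hEXP.2.2.2.2.2.2.2.2.1
  have hP0 : PowerSeries.coeff 0 dP = 1 := hEXP.2.2.2.2.2.2.2.2.2.2.2.2.2.2.1
  refine ⟨dP ^ 3 * c, ?_, ?_, ?_⟩
  · have h1 := GEX.qexp_pow hP 3
    have h3 := t_QMUL.1 _ _ _ _ _ _ h1 hc1
    have h4 : (fun τ => gP τ ^ 3 * (gD τ)⁻¹) = gy := by
      funext τ
      unfold gy
      rw [div_eq_mul_inv]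
    rw [h4] at h3
    simpa using h3
  · rw [isInt_iff] at *
    exact mul_mem (pow_mem hPi 3) hc2
  · rw [PowerSeries.coeff_zero_eq_constantCoeff_apply] at *
    rw [map_mul, map_pow, hP0, hc3]
    norm_num

theorem gy_pt (hPRE : S_PRE3) (hREL : S_REL3) (hBAS : S_BAS3) (hCLO : S_CLO3) : Pt 0 gy gy := by
  have h1 := hCLO.2.2.2.2.1 2 gP gP 3 hBAS.2.1
  have hD : Pt 6 gD gD := hPRE.2.2.2.2.1
  have hD0 : ∀ τ, gD τ ≠ 0 := hREL.2.2.2.2.2.2.2.2.2.2.2.2.1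
  have h2 := hCLO.2.2.2.2.2.1 6 gD gD hD hD0 hD0
  have h3 := hCLO.1 _ _ _ _ _ _ h1 h2
  have h4 : (fun τ => gP τ ^ 3 * (gD τ)⁻¹) = gy := by
    funext τ
    unfold gy
    rw [div_eq_mul_inv]
  rw [h4] at h3
  simpa using h3

end PRY

/-- **PRY** -/
theorem t_PRY (hPRE : S_PRE3) (hREL : S_REL3) (hBAS : S_BAS3) (hCLO : S_CLO3) (hEXP : S_EXP3) : S_PRY := by
  refine ⟨PRY.gy_pt hPRE hREL hBAS hCLO, PRY.gy_exp hPRE hEXP, ?_, ?_⟩
  · intro τ
    obtain ⟨-, -, -, -, -, -, -, -, -, -, -, -, hD0, -, hG0⟩ := hREL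
    unfold gh
    exact div_ne_zero (hG0 τ) (hD0 τ)
  · intro τ
    obtain ⟨r1, -, -, -, -, -, -, r8, r9, -, -, -, hD0, -, hG0⟩ := hREL
    have h1 := r1 τ
    have h8 := r8 τ
    have h9 := r9 τ
    have hD := hD0 τ
    have key : gP τ ^ 3 * gG τ = (gG τ + 27 * gD τ) ^ 2 := by
      have hs : gs τ ^ 2 = gP τ * gG τ := by
        linear_combination (-gs τ) * h1 + gP τ * h9 - 27 * h8
      rw [← h9]
      linear_combination (-gP τ ^ 2) * hs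
    unfold gy gh
    field_simp
    linear_combination key

end

end Pool.Agent.HS37.C4
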