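import Pool.Agent.HS37.C3.Stm

/-!
# Project C4, piece REL3: the relations between `e`, `s`, `P`, `F`, `G`, `D`, `E₄`, `E₆`, `Δ` (level 3)
-/

set_option autoImplicit false

open UpperHalfPlane ModularForm ModularFormClass MatrixGroups EisensteinSeries Complex
open Pool.Agent.HS37.SP Pool.Agent.HS37.CQ

namespace Pool.Agent.HS37.C3

namespace RelAux3

theorem low (c p : PowerSeries ℂ) (n : ℕ)
    (h : ∀ m < n, PowerSeries.coeff m c = PowerSeries.coeff m p) :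
    ∃ d, c = p + PowerSeries.X ^ n * d := by
  have h1 : PowerSeries.X ^ n ∣ c - p :=
    PowerSeries.X_pow_dvd_iff.mpr fun m hm => by rw [map_sub, h m hm, sub_self]
  obtain ⟨d, hd⟩ := h1
  exact ⟨d, by rw [← hd]; ring⟩

theorem eis_coeff0 (k : ℕ) : PowerSeries.coeff 0 (eis k) = 1 := by
  rw [eis, PowerSeries.coeff_mk, if_pos rfl]

theorem eis6_coeff1 : PowerSeries.coeff 1 (eis 6) = -504 := by
  rw [eis, PowerSeries.coeff_mk, if_neg one_ne_zero, show bernoulli 6 = 1 / 42 by decide +kernel]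
  simp
  norm_num

theorem vps3 (c : PowerSeries ℂ) (h : PowerSeries.coeff 0 c = 1) :
    ∃ d, vps 3 c = 1 + PowerSeries.X ^ 3 * d := by
  refine low _ _ 3 fun m hm => ?_
  rw [vps, PowerSeries.coeff_mk]
  interval_cases m
  · simp only [dvd_zero, if_true, Nat.zero_div, h]
    simp
  · simp [PowerSeries.coeff_one]
  · simp [PowerSeries.coeff_one]

theorem qpow (hQ : S_QMUL) {g : ℍ → ℂ} {e : ℕ} {c : PowerSeries ℂ} (h : QExp g e c) (n : ℕ) :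
    QExp (fun τ => g τ ^ (n + 1)) ((n + 1) * e) (c ^ (n + 1)) := by
  induction n with
  | zero => simpa using h
  | succ n ih =>
    have h1 := hQ.1 _ _ _ _ _ _ ih h
    have e1 : (n + 1) * e + e = (n + 1 + 1) * e := by ring
    rw [e1] at h1
    simpa only [pow_succ] using h1

theorem qshift (hQ : S_QMUL) {g : ℍ → ℂ} {e : ℕ} {c d : PowerSeries ℂ} (h : QExp g e c)
    (hc : c = PowerSeries.X ^ e * d) : QExp g 0 d :=
  hQ.2.2.2.2.2 g 0 e d (by rw [zero_add, ← hc]; exact h)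

theorem Pt_congr {k : ℤ} {g g' f f' : ℍ → ℂ} (h : Pt k g g') (e : ∀ τ, f τ = g τ)
    (e' : ∀ τ, f' τ = g' τ) : Pt k f f' := by
  rw [show f = g from funext e, show f' = g' from funext e']
  exact h

theorem Pt_w {k l : ℤ} {g g' : ℍ → ℂ} (h : Pt k g g') (e : k = l) : Pt l g g' := e ▸ h

theorem QExp_congr {m : ℕ} {g f : ℍ → ℂ} {c : PowerSeries ℂ} (h : QExp g m c)
    (e : ∀ τ, f τ = g τ) : QExp f m c := by
  rw [show f = g from funext e]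
  exact h

theorem coeff0_X_mul (c : PowerSeries ℂ) : PowerSeries.coeff 0 (PowerSeries.X * c) = 0 := by
  rw [PowerSeries.coeff_zero_eq_constantCoeff_apply, map_mul, PowerSeries.constantCoeff_X, zero_mul]

theorem vanish (hCON : S_CON3) (hBAS : S_BAS3) (hCLO : S_CLO3) (hEIS : S_EIS) (hQ : S_QMUL)
    {k : ℤ} {F F' : ℍ → ℂ} (N M a : ℕ) (b b' : PowerSeries ℂ)
    (hk : ((N + 1 : ℕ) : ℤ) * k = 12 * ((M + 1 : ℕ) : ℤ)) (h3 : 3 * (M + 1) ≤ a * (N + 1))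
    (hP : Pt k F F') (hF : QExp F 0 (PowerSeries.X ^ a * b))
    (hF' : QExp F' 0 (PowerSeries.X ^ a * b')) : ∀ τ, F τ = 0 := by
  obtain ⟨cΔ, hw, hqΔ, _, _⟩ := hEIS.2.2.2.2
  obtain ⟨hmul, _, _, _, hpow, _, _⟩ := hCLO
  obtain ⟨j, hj⟩ : ∃ j, a * (N + 1) = 3 * (M + 1) + j := Nat.exists_eq_add_of_le h3
  have hΔ : Pt (2 * (-6)) (fun τ => (discriminant τ)⁻¹)
      (fun τ => (-3 : ℂ) ^ (-6 : ℤ) * (discriminant (trp τ))⁻¹) :=
    hBAS.1 (-6) (fun τ => (discriminant τ)⁻¹) (by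
      have e : (2 * (-6) : ℤ) = -12 := by norm_num
      rw [e]
      exact hw)
  have hPr := hmul _ _ _ _ _ _ (hpow k F F' (N + 1) hP) (hpow _ _ _ (M + 1) hΔ)
  have e0 : ((N + 1 : ℕ) : ℤ) * k + ((M + 1 : ℕ) : ℤ) * (2 * (-6)) = 0 := by
    rw [hk]
    ring
  rw [e0] at hPr
  -- expansions
  have q1 := hQ.1 _ _ _ _ _ _ (qpow hQ hF N) (qpow hQ hqΔ M)
  have q2 : QExp (fun τ => F τ ^ (N + 1) * (discriminant τ)⁻¹ ^ (M + 1)) 0
      (PowerSeries.X * (PowerSeries.X ^ (2 * M + 1 + j) * b ^ (N + 1) * cΔ ^ (M + 1))) := by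
    refine qshift hQ q1 ?_
    rw [mul_pow, ← pow_mul, hj]
    ring
  have d1 := hBAS.2.2 (fun τ => (discriminant τ)⁻¹) 1 cΔ hqΔ
  have d2 := hQ.2.2.2.1 _ _ _ ((-3 : ℂ) ^ (-6 : ℤ)) d1
  have q3 := hQ.1 _ _ _ _ _ _ (qpow hQ hF' N) (qpow hQ d2 M)
  have q4 : QExp (fun τ => F' τ ^ (N + 1) *
      ((-3 : ℂ) ^ (-6 : ℤ) * (discriminant (trp τ))⁻¹) ^ (M + 1)) 0
      (PowerSeries.X ^ j * b' ^ (N + 1) *
        (PowerSeries.C ((-3 : ℂ) ^ (-6 : ℤ)) * vps 3 cΔ) ^ (M + 1)) := by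
    refine qshift hQ q3 ?_
    rw [mul_pow (PowerSeries.X ^ a) b', ← pow_mul, hj]
    ring
  intro τ
  have h := hCON _ _ _ _ hPr q2 q4 τ
  rw [coeff0_X_mul] at h
  have h' : F τ ^ (N + 1) = 0 := by
    rcases mul_eq_zero.mp h with h1 | h1
    · exact h1
    · exact absurd h1 (pow_ne_zero _ (inv_ne_zero (discriminant_ne_zero τ)))
  exact (pow_eq_zero_iff (Nat.succ_ne_zero N)).mp h'

end RelAux3

open RelAux3

theorem t_REL3 (hCON : S_CON3) (hBAS : S_BAS3) (hEXP : S_EXP3) (hCLO : S_CLO3) (hEIS : S_EIS)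
    (hQ : S_QMUL) : S_REL3 := by
  obtain ⟨⟨hw4, hq4, _⟩, ⟨hw6, hq6, _⟩, _⟩ := id hEIS
  obtain ⟨hmul, hadd, hsc, hconst, hpow, hinv, hswap⟩ := id hCLO
  obtain ⟨qe, qs, qP, qF, _, _, _, _, _, _, ce0, ce1, _, _, cP0, cP1, _, cF0, cF1, cF2, _⟩ := hEXP
  obtain ⟨hBw, pP, hBd⟩ := id hBAS
  obtain ⟨qmul, qadd, _, qsc, _, _⟩ := id hQ
  -- low order terms of the expansions
  obtain ⟨u, hu⟩ : ∃ d, eis 6 = (1 - 504 * PowerSeries.X) + PowerSeries.X ^ 2 * d := by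
    refine low _ _ 2 fun m hm => ?_
    have e504 : (504 : PowerSeries ℂ) = PowerSeries.C (504 : ℂ) := by rw [map_ofNat]
    interval_cases m
    · rw [eis_coeff0, e504]
      simp
    · rw [eis6_coeff1, e504, map_sub, PowerSeries.coeff_C_mul, PowerSeries.coeff_one_X,
        PowerSeries.coeff_one]
      norm_num
  obtain ⟨u4, hu4⟩ : ∃ d, eis 4 = 1 + PowerSeries.X ^ 1 * d := by
    refine low _ _ 1 fun m hm => ?_
    interval_cases m
    rw [eis_coeff0]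
    simp
  obtain ⟨w6, hw6'⟩ := vps3 (eis 6) (eis_coeff0 6)
  obtain ⟨w4, hw4'⟩ := vps3 (eis 4) (eis_coeff0 4)
  obtain ⟨p2, hp2⟩ : ∃ d, dP = (1 + 12 * PowerSeries.X) + PowerSeries.X ^ 2 * d := by
    refine low _ _ 2 fun m hm => ?_
    have e12 : (12 : PowerSeries ℂ) = PowerSeries.C (12 : ℂ) := by rw [map_ofNat]
    interval_cases m
    · rw [cP0, e12]
      simp
    · rw [cP1, e12, map_add, PowerSeries.coeff_C_mul, PowerSeries.coeff_one_X,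
        PowerSeries.coeff_one]
      norm_num
  obtain ⟨e2, he2⟩ : ∃ d, de = PowerSeries.X + PowerSeries.X ^ 2 * d := by
    refine low _ _ 2 fun m hm => ?_
    interval_cases m
    · rw [ce0]
      simp
    · rw [ce1, PowerSeries.coeff_one_X]
  obtain ⟨f3, hf3⟩ : ∃ d, dF = PowerSeries.X ^ 2 + PowerSeries.X ^ 3 * d := by
    refine low _ _ 3 fun m hm => ?_
    rw [PowerSeries.coeff_X_pow]
    interval_cases m
    · rw [cF0]
      simp
    · rw [cF1]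
      simp
    · rw [cF2]
      simp
  -- forms of level one
  have p4 : Pt 4 (fun τ => E₄ τ) (fun τ => 9 * E₄ (trp τ)) := by
    have h := hBw 2 (fun τ => E₄ τ) (by
      have e : (2 * 2 : ℤ) = 4 := by norm_num
      rw [e]
      exact hw4)
    exact Pt_w (Pt_congr h (fun τ => rfl) (fun τ => by norm_num)) (by norm_num)
  have p6 : Pt 6 (fun τ => E₆ τ) (fun τ => -27 * E₆ (trp τ)) := by
    have h := hBw 3 (fun τ => E₆ τ) (by
      have e : (2 * 3 : ℤ) = 6 := by norm_num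
      rw [e]
      exact hw6)
    exact Pt_w (Pt_congr h (fun τ => rfl) (fun τ => by norm_num)) (by norm_num)
  have p4d : Pt 4 (fun τ => E₄ (trp τ)) (fun τ => (1 / 9) * E₄ τ) :=
    Pt_congr (hsc 4 _ _ (1 / 9) (hswap _ _ _ p4)) (fun τ => by ring) (fun τ => rfl)
  have p6d : Pt 6 (fun τ => E₆ (trp τ)) (fun τ => (-1 / 27) * E₆ τ) :=
    Pt_congr (hsc 6 _ _ (-1 / 27) (hswap _ _ _ p6)) (fun τ => by ring) (fun τ => rfl)
  have q4d : QExp (fun τ => E₄ (trp τ)) 0 (vps 3 (eis 4)) := hBd (fun τ => E₄ τ) 0 _ hq4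
  have q6d : QExp (fun τ => E₆ (trp τ)) 0 (vps 3 (eis 6)) := hBd (fun τ => E₆ τ) 0 _ hq6
  have pP2 : Pt 4 (fun τ => gP τ ^ 2) (fun τ => gP τ ^ 2) :=
    Pt_w (hpow 2 _ _ 2 pP) (by norm_num)
  have pP3 : Pt 6 (fun τ => gP τ ^ 3) (fun τ => gP τ ^ 3) :=
    Pt_w (hpow 2 _ _ 3 pP) (by norm_num)
  have qP2 : QExp (fun τ => gP τ ^ 2) 0 (dP ^ 2) := qpow hQ qP 1
  have qP3 : QExp (fun τ => gP τ ^ 3) 0 (dP ^ 3) := qpow hQ qP 2
  -- the first relation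
  have pR1 : Pt 4 (fun τ => 10 * gP τ ^ 2 + ((-1) * E₄ τ + (-9) * E₄ (trp τ)))
      (fun τ => 10 * gP τ ^ 2 + ((-1) * E₄ τ + (-9) * E₄ (trp τ))) :=
    Pt_congr (hadd 4 _ _ _ _ (hsc _ _ _ 10 pP2) (hadd 4 _ _ _ _ (hsc _ _ _ (-1) p4)
      (hsc _ _ _ (-9) p4d))) (fun τ => rfl) (fun τ => by ring)
  have qR1 : QExp (fun τ => 10 * gP τ ^ 2 + ((-1) * E₄ τ + (-9) * E₄ (trp τ))) 0
      (PowerSeries.C 10 * dP ^ 2 + (PowerSeries.C (-1) * eis 4 +
        PowerSeries.C (-9) * vps 3 (eis 4))) :=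
    qadd _ _ _ _ _ (qsc _ _ _ 10 qP2) (qadd _ _ _ _ _ (qsc _ _ _ (-1) hq4) (qsc _ _ _ (-9) q4d))
  have eR1 : PowerSeries.C 10 * dP ^ 2 + (PowerSeries.C (-1) * eis 4 +
        PowerSeries.C (-9) * vps 3 (eis 4)) = PowerSeries.X ^ 1 *
      (10 * (2 * (12 + PowerSeries.X * p2) + PowerSeries.X * (12 + PowerSeries.X * p2) ^ 2) -
        u4 - 9 * (PowerSeries.X ^ 2 * w4)) := by
    rw [hw4', hu4, hp2]
    have c1 : (PowerSeries.C (10 : ℂ) : PowerSeries ℂ) = 10 := by rw [map_ofNat]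
    have c2 : (PowerSeries.C (-1 : ℂ) : PowerSeries ℂ) = -1 := by rw [map_neg, map_one]
    have c3 : (PowerSeries.C (-9 : ℂ) : PowerSeries ℂ) = -9 := by rw [map_neg, map_ofNat]
    rw [c1, c2, c3]
    ring
  rw [eR1] at qR1
  have R1 : ∀ τ, 10 * gP τ ^ 2 + ((-1) * E₄ τ + (-9) * E₄ (trp τ)) = 0 :=
    vanish hCON hBAS hCLO hEIS hQ 2 0 1 _ _ (by norm_num) (by norm_num) pR1 qR1 qR1
  have rP : ∀ τ, gP τ ^ 2 = gs τ + 27 * ge τ := by
    intro τ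
    unfold gs ge
    linear_combination (1 / 10) * R1 τ
  have rs : ∀ τ, gs τ = gP τ ^ 2 - 27 * ge τ := fun τ => by rw [rP]; ring
  have r4 : ∀ τ, E₄ τ = gP τ ^ 2 + 216 * ge τ := by
    intro τ
    rw [rP]
    unfold gs ge
    ring
  have r4d : ∀ τ, E₄ (trp τ) = gP τ ^ 2 - 24 * ge τ := by
    intro τ
    rw [rP]
    unfold gs ge
    ring
  -- the second relation
  have pe : Pt 4 ge (fun τ => gs τ / 27) := by
    have h1 := hadd 4 _ _ _ _ (hsc _ _ _ (1 / 240) p4) (hsc _ _ _ (-1 / 240) p4d)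
    refine Pt_congr h1 (fun τ => ?_) (fun τ => ?_)
    · unfold ge
      ring
    · unfold gs
      ring
  have peP : Pt 6 (fun τ => ge τ * gP τ) (fun τ => gs τ / 27 * gP τ) :=
    Pt_w (hmul _ _ _ _ _ _ pe pP) (by norm_num)
  have qeP : QExp (fun τ => ge τ * gP τ) 0 (de * dP) := qmul _ _ 0 0 _ _ qe qP
  have pR2 : Pt 6 (fun τ => 27 * E₆ (trp τ) + (E₆ τ + ((-28) * gP τ ^ 3 +
        1512 * (ge τ * gP τ))))
      (fun τ => (-1) * (27 * E₆ (trp τ) + (E₆ τ + ((-28) * gP τ ^ 3 +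
        1512 * (ge τ * gP τ))))) := by
    refine Pt_congr (hadd 6 _ _ _ _ (hsc _ _ _ 27 p6d) (hadd 6 _ _ _ _ p6
      (hadd 6 _ _ _ _ (hsc _ _ _ (-28) pP3) (hsc _ _ _ 1512 peP)))) (fun τ => rfl)
      (fun τ => ?_)
    linear_combination (56 * gP τ) * rP τ
  have qR2 : QExp (fun τ => 27 * E₆ (trp τ) + (E₆ τ + ((-28) * gP τ ^ 3 +
        1512 * (ge τ * gP τ)))) 0
      (PowerSeries.C 27 * vps 3 (eis 6) + (eis 6 + (PowerSeries.C (-28) * dP ^ 3 +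
        PowerSeries.C 1512 * (de * dP)))) :=
    qadd _ _ _ _ _ (qsc _ _ _ 27 q6d) (qadd _ _ _ _ _ hq6 (qadd _ _ _ _ _
      (qsc _ _ _ (-28) qP3) (qsc _ _ _ 1512 qeP)))
  obtain ⟨b2, hb2⟩ : ∃ b, PowerSeries.C 27 * vps 3 (eis 6) + (eis 6 +
      (PowerSeries.C (-28) * dP ^ 3 + PowerSeries.C 1512 * (de * dP))) =
        PowerSeries.X ^ 2 * b := by
    refine ⟨27 * PowerSeries.X * w6 + u - 28 * (432 + 1728 * PowerSeries.X +
      3 * (1 + 12 * PowerSeries.X) ^ 2 * p2 +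
      3 * (1 + 12 * PowerSeries.X) * PowerSeries.X ^ 2 * p2 ^ 2 + PowerSeries.X ^ 4 * p2 ^ 3) +
      1512 * (12 + PowerSeries.X * p2 + e2 * (1 + 12 * PowerSeries.X + PowerSeries.X ^ 2 * p2)),
      ?_⟩
    rw [hw6', hu, hp2, he2]
    have c1 : (PowerSeries.C (27 : ℂ) : PowerSeries ℂ) = 27 := by rw [map_ofNat]
    have c2 : (PowerSeries.C (-28 : ℂ) : PowerSeries ℂ) = -28 := by rw [map_neg, map_ofNat]
    have c3 : (PowerSeries.C (1512 : ℂ) : PowerSeries ℂ) = 1512 := by rw [map_ofNat]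
    rw [c1, c2, c3]
    ring
  rw [hb2] at qR2
  have qR2' : QExp (fun τ => (-1) * (27 * E₆ (trp τ) + (E₆ τ + ((-28) * gP τ ^ 3 +
        1512 * (ge τ * gP τ))))) 0 (PowerSeries.X ^ 2 * (PowerSeries.C (-1) * b2)) := by
    have h := qsc _ _ _ (-1) qR2
    have e : PowerSeries.C (-1 : ℂ) * (PowerSeries.X ^ 2 * b2) =
      PowerSeries.X ^ 2 * (PowerSeries.C (-1) * b2) := by ring
    rw [e] at h
    exact h
  have R2 : ∀ τ, 27 * E₆ (trp τ) + (E₆ τ + ((-28) * gP τ ^ 3 + 1512 * (ge τ * gP τ))) = 0 :=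
    vanish hCON hBAS hCLO hEIS hQ 1 0 2 _ _ (by norm_num) (by norm_num) pR2 qR2 qR2'
  have r6 : ∀ τ, E₆ τ = gP τ ^ 3 - 540 * ge τ * gP τ - 5832 * gF τ := by
    intro τ
    unfold gF
    ring
  have r6d : ∀ τ, E₆ (trp τ) = gP τ ^ 3 - 36 * ge τ * gP τ + 216 * gF τ := by
    intro τ
    linear_combination (1 / 27) * R2 τ - (1 / 27) * r6 τ
  -- the third relation
  have pF : Pt 6 gF (fun τ => gG τ / 729) := by
    have h1 := hsc _ _ _ (1 / 5832) (hadd 6 _ _ _ _ pP3 (hadd 6 _ _ _ _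
      (hsc _ _ _ (-540) peP) (hsc _ _ _ (-1) p6)))
    refine Pt_congr h1 (fun τ => ?_) (fun τ => ?_)
    · unfold gF
      ring
    · rw [r6d, rs]
      unfold gG
      ring
  have pe2 : Pt 8 (fun τ => ge τ ^ 2) (fun τ => (gs τ / 27) ^ 2) :=
    Pt_w (hpow 4 _ _ 2 pe) (by norm_num)
  have pPF : Pt 8 (fun τ => gP τ * gF τ) (fun τ => gP τ * (gG τ / 729)) :=
    Pt_w (hmul _ _ _ _ _ _ pP pF) (by norm_num)
  have pR3 : Pt 8 (fun τ => ge τ ^ 2 + (-1) * (gP τ * gF τ))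
      (fun τ => ge τ ^ 2 + (-1) * (gP τ * gF τ)) := by
    refine Pt_congr (hadd 8 _ _ _ _ pe2 (hsc _ _ _ (-1) pPF)) (fun τ => rfl) (fun τ => ?_)
    rw [rs]
    unfold gG
    ring
  have qR3 : QExp (fun τ => ge τ ^ 2 + (-1) * (gP τ * gF τ)) 0
      (de ^ 2 + PowerSeries.C (-1) * (dP * dF)) :=
    qadd _ _ _ _ _ (qpow hQ qe 1) (qsc _ _ _ (-1) (qmul _ _ 0 0 _ _ qP qF))
  obtain ⟨b3, hb3⟩ : ∃ b, de ^ 2 + PowerSeries.C (-1) * (dP * dF) = PowerSeries.X ^ 3 * b := by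
    refine ⟨2 * e2 + PowerSeries.X * e2 ^ 2 - f3 - (12 + PowerSeries.X * p2) -
      PowerSeries.X * (12 + PowerSeries.X * p2) * f3, ?_⟩
    rw [hp2, he2, hf3]
    have c2 : (PowerSeries.C (-1 : ℂ) : PowerSeries ℂ) = -1 := by rw [map_neg, map_one]
    rw [c2]
    ring
  rw [hb3] at qR3
  have R3 : ∀ τ, ge τ ^ 2 + (-1) * (gP τ * gF τ) = 0 :=
    vanish hCON hBAS hCLO hEIS hQ 2 1 3 _ _ (by norm_num) (by norm_num) pR3 qR3 qR3
  have re : ∀ τ, ge τ ^ 2 = gP τ * gF τ := fun τ => by linear_combination R3 τ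
  have rD : ∀ τ, discriminant τ = gD τ * gG τ := by
    intro τ
    rw [discriminant_eq_E₄_cube_sub_E₆_sq, r4, r6]
    unfold gD gG
    linear_combination ((10077696 * ge τ - 58320 * gP τ ^ 2) / 1728) * re τ
  have rDd : ∀ τ, discriminant (trp τ) = gD τ * gF τ := by
    intro τ
    rw [discriminant_eq_E₄_cube_sub_E₆_sq, r4d, r6d]
    unfold gD
    linear_combination ((432 * gP τ ^ 2 - 13824 * ge τ) / 1728) * re τ
  have nD : ∀ τ, gD τ ≠ 0 := fun τ h => by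
    have h1 := discriminant_ne_zero τ
    rw [rD, h, zero_mul] at h1
    exact h1 rfl
  have nG : ∀ τ, gG τ ≠ 0 := fun τ h => by
    have h1 := discriminant_ne_zero τ
    rw [rD, h, mul_zero] at h1
    exact h1 rfl
  have nF : ∀ τ, gF τ ≠ 0 := fun τ h => by
    have h1 := discriminant_ne_zero (trp τ)
    rw [rDd, h, mul_zero] at h1
    exact h1 rfl
  refine ⟨rP, r4, r4d, r6, r6d, re, fun τ => ?_, fun τ => ?_, fun τ => ?_, fun τ => ?_, rD, rDd,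
    nD, nF, nG⟩
  · unfold gD gG
    linear_combination gP τ ^ 2 * re τ
  · rw [rs]
    unfold gD
    linear_combination (-27) * re τ
  · rw [rs]
    unfold gD gG
    ring
  · unfold gD
    ring

end Pool.Agent.HS37.C3
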