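import Pool.Agent.HS37.C3.Stm
import Pool.Agent.HS37.CV.Stm

/-!
# Project C4: MP_225c33_nt Q1 (a), supercongruences modulo `p²` for `∑ C(2k,k)² C(3k,k) (-48)^(-3k)` (`D = -123`)

Level 3. Everything is a port of the finished projects CQ, CV (level 2; folders `Pool/Agent/HS37/CQ`, `Pool/Agent/HS37/CV`, which
prove MP_b6d9c9_nt Q2 and MP_7e705e_nt Q1) to level 3, with the notations of `Pool/Agent/HS37/C3/Stm.lean`.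
Finished pieces of C3 (may be used): `t_CLO3`, `t_PRE3`, `t_ODD3`, `t_EXT3`, `t_HYP3`, `t_CON3`, `t_TRC3`, `t_INR23`, `t_RAM3`,
`t_PR23`, `t_VR3`, `t_UDV3`, `t_INE3`, `t_LIN3`, `t_HK3`. Open pieces of C3 (statements in `C3/Stm.lean`): `S_EXP3`, `S_REL3`, `S_BAS3`,
`S_XIN3`, `S_PAR3`, `S_LUC3`, `S_INL3`, `S_BK3`.

`y = P³ / D = (h + 27)² / h` is a bijection `Γ₀(3)+ \ ℍ → ℂ`; `y((3 + √-123) / 6) = -48³ = -110592`.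

File `Pool/Agent/HS37/C4/XXX.lean`, theorem `t_XXX (h : S_YYY) ... : S_XXX`.
-/

set_option autoImplicit false

open UpperHalfPlane ModularForm ModularFormClass MatrixGroups EisensteinSeries Complex
open Pool.Agent.HS37.SP Pool.Agent.HS37.CQ Pool.Agent.HS37.C3

namespace Pool.Agent.HS37.C4

noncomputable section

/-- `y = P³ / D` -/
def gy (τ : ℍ) : ℂ := gP τ ^ 3 / gD τ

/-- `τ_L = (3 + √-123) / 6`, `3 τ² - 3 τ + 11 = 0` -/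
def tauL : ℍ := ofComplex ((3 + Complex.I * ((Real.sqrt 123 : ℝ) : ℂ)) / 6)

/-- **PRY** (from `S_PRE3`, `S_REL3`, `S_BAS3`, `S_CLO3`, `S_EXP3`, `S_QMUL`). `y`: weight `0`, its own partner, integral expansion `q⁻¹ + ...`;
`y = (h + 27)² / h` (`s² = P G`: `s P² = s² + 27 e s = s² + 27 P D`; `(P s)² = P³ G`, `G = h D`). -/
def S_PRY : Prop :=
  Pt 0 gy gy ∧ (∃ c, QExp gy 1 c ∧ IsInt c ∧ PowerSeries.coeff 0 c = 1) ∧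
  (∀ τ, gh τ ≠ 0) ∧ (∀ τ, gy τ * gh τ = (gh τ + 27) ^ 2)

/-- **INJ3** (port of `CV/INJ`; from `CV.S_LU`, `S_REL3`, `S_PRE3`, `S_PRY`). `y` is injective modulo `Γ₀(3)+`.
Proof: `y h = (h + 27)²`, so `h(τ₂) = h(τ₁)` or `729 / h(τ₁) = h(fri3 τ₁)`; let `τ` be `τ₁` or `fri3 τ₁`. Choose `l` with `D(τ₂) = l⁶ D(τ)`; then
`G`, `F = D² / G` and `P³ = y D` also are multiplied by `l⁶`; so `P(τ₂) = ω l² P(τ)`, `ω³ = 1`, replace `l` by `ω² l`: `P(τ₂) = l² P(τ)`. `e P = D + 27 F`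
and `e² = P F` give `e(τ₂) = l⁴ e(τ)` (also if `P = 0`). By REL3 `E₄`, `E₆` at `τ` and `3 τ` are polynomials in `P`, `e`, `F`. LU for both: `l = c τ + d`,
`l τ₂ = a τ + b`, `l = c' (3 τ) + d'`, so `c = 3 c'` and `τ₂ = γ • τ`. -/
def S_INJ3 : Prop :=
  ∀ τ₁ τ₂ : ℍ, gy τ₁ = gy τ₂ →
    ∃ γ : SL(2, ℤ), (3 : ℤ) ∣ γ 1 0 ∧ (τ₂ = γ • τ₁ ∨ τ₂ = γ • fri3 τ₁)

/-- **SUR3** (port of `CV/SUR`; from `S_CON3`, `S_PRE3`, `S_REL3`, `S_EXP3`, `S_CLO3`, `S_BAS3`, `S_QMUL`). `F = D / (P³ - z D)`. -/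
def S_SUR3 : Prop := ∀ z : ℂ, ∃ τ : ℍ, gy τ = z

/-- **SYM3** (port of `CV/Sym`; from `S_CON3`, `S_PRY`, `S_CLO3`). -/
def S_SYM3 : Prop :=
  ∀ (F : ℍ → ℂ) (m : ℕ) (c : PowerSeries ℂ), Pt 0 F F → QExp F m c → IsInt c →
    ∃ Q : Polynomial ℤ, ∀ τ, F τ = Polynomial.aeval (gy τ) Q

/-- **FN3** (port of `CV/Fn`; from `S_SYM3`, `S_HK3`, `S_PRY`, `S_CLO3`, `S_TRC3`). `val 0 = val3 0`. -/
def S_FN3 : Prop :=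
  ∀ N : ℕ, N.Prime → N ≠ 3 → ∃ F : Polynomial ℚ, F.natDegree = 2 * N ∧ F.leadingCoeff = -1 ∧
    (∀ τ : ℍ, Polynomial.aeval (gy τ) F = ∏ t ∈ reps N, (gy τ - val 0 gy (mat t) τ)) ∧
    ∀ m : ℕ, ∃ Q : Polynomial ℤ, ∀ τ : ℍ,
      ∑ t ∈ reps N, (gy τ - val 0 gy (mat t) τ) ^ m = Polynomial.aeval (gy τ) Q

/-- **YINT3** (port of `CV/YINT`; from `S_FN3`, `CV.S_INTP`, `S_SUR3`, `CQ.S_PSM`). -/
def S_YINT3 : Prop :=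
  ∀ N : ℕ, N.Prime → N ≠ 3 → ∀ τ : ℍ, (∃ t ∈ reps N, val 0 gy (mat t) τ = gy τ) → IsIntegral ℤ (gy τ)

/-- **SELF3** (port of `CV/Self`; from `S_VR3`, `S_PRY`). VR3 (3) and (4) with `k = 0`, `τ = τ_L`, `τ² = τ - 11/3`.
`N = 37`: `M = (4, -11; 3, 1)`, `l = 3 τ + 1` (type `(3)`). `N = 11`: `M = (1, 0; -3, 11)`, `l = - τ`; `N = 17`: `M = (1, 1; -6, 11)`,
`l = - (τ + 1)` (type (4): `M (τ, 1) = l (-1, 3 τ)`). -/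
def S_SELF3 : Prop :=
  ∀ N : ℕ, N = 11 ∨ N = 17 ∨ N = 37 → ∃ t ∈ reps N, val 0 gy (mat t) tauL = gy tauL

/-- **FD3** (port of `CV/FDK`; from `S_PRY`). `τ = γ⁻¹ • z`, `z` in Mathlib's fundamental domain; `γ⁻¹ = δ r`, `δ ∈ Γ₀(3)`,
`r ∈ {1, S, S T, S T⁻¹}`; `y(-1/(z + j)) = y((z + j) / 3)` (Fricke). -/
def S_FD3 : Prop :=
  ∀ τ : ℍ, ∃ τ' : ℍ, gy τ' = gy τ ∧ 1 / 12 ≤ τ'.im ^ 2 ∧ |τ'.re| ≤ 1 / 2

/-- **REL3N** (port of `t_REL2N` in `CV/Self`; from `S_INJ3`). Second case: `A = γ * (0, -1; 3, 0) * mat t = γ * (0, -d; 3 a, 3 b)`. -/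
def S_REL3N : Prop :=
  ∀ (N : ℕ) (τ : ℍ), N.Prime → N ≠ 3 → (∃ t ∈ reps N, val 0 gy (mat t) τ = gy τ) →
    ∃ A : Matrix (Fin 2) (Fin 2) ℤ, (3 : ℤ) ∣ A 1 0 ∧
      (A.det = N ∨ (A.det = 3 * N ∧ (3 : ℤ) ∣ A 0 0 ∧ (3 : ℤ) ∣ A 1 1)) ∧
      (A 1 0 : ℂ) * (τ : ℂ) ^ 2 + ((A 1 1 : ℂ) - A 0 0) * τ - A 0 1 = 0

/-- **ARI3** (port of `CV/ARIK`). `n_i = 4 det A - (tr A)²` for `N = 11, 17, 37`: `n₁ ∈ {44 - t²} ∪ {132 - t², 3 ∣ t}`,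
`n₂ ∈ {68 - t²} ∪ {204 - t², 3 ∣ t}`, `n₃ ∈ {148 - t²} ∪ {444 - t², 3 ∣ t}`, all positive, `n₁ n₂`, `n₁ n₃` squares. The only possibility
(checked by computer) is `n₁ = n₂ = n₃ = 123` (`132 - 3²`, `204 - 9²`, `148 - 5²`). So `y₁² |D| = 123`, `D = -123`, `y₁ = ±1`, and
`a = ± A 1 0` is divisible by `3`, so `3 ∣ b`. `Im τ² = 123 / (4 a²) ≥ 1/12` gives `a ≤ 19`, `|b| ≤ a`, `4 a ∣ b² + 123`: the only solutions are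
`a = 3`, `b = ±3`, `c = 11`. -/
def S_ARI3 : Prop :=
  ∀ τ : ℍ, 1 / 12 ≤ τ.im ^ 2 → |τ.re| ≤ 1 / 2 →
    (∀ N : ℕ, N = 11 ∨ N = 17 ∨ N = 37 → ∃ A : Matrix (Fin 2) (Fin 2) ℤ, (3 : ℤ) ∣ A 1 0 ∧
      (A.det = N ∨ (A.det = 3 * N ∧ (3 : ℤ) ∣ A 0 0 ∧ (3 : ℤ) ∣ A 1 1)) ∧
      (A 1 0 : ℂ) * (τ : ℂ) ^ 2 + ((A 1 1 : ℂ) - A 0 0) * τ - A 0 1 = 0) →
    (τ : ℂ) = (3 + Complex.I * ((Real.sqrt 123 : ℝ) : ℂ)) / 6 ∨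
      (τ : ℂ) = (-3 + Complex.I * ((Real.sqrt 123 : ℝ) : ℂ)) / 6

/-- **RAT3** (port of `CV/RATK`; from `S_FN3`, `S_YINT3`, `S_SUR3`, `S_SELF3`, `S_FD3`, `S_REL3N`, `S_ARI3`, `S_PRY`). -/
def S_RAT3 : Prop := ∃ z : ℤ, gy tauL = z

/-- **NUM3** (port of `CV/NUMK`; from `S_EXP3`). `q = - e^(-π √(41/3))`, `q⁻¹ = -110633.99…`, `y = q⁻¹ + 42 + 783 q + ...`. Only the distance
`< 1` is needed. `P = 1 + 12 q + ...`, `D = q - 6 q² + ...` (`D = e P - 27 F`, with the explicit series of `E₂`, `E₄`, `E₆`; `e`, `F` as in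
`C3/Stm.lean`). -/
def S_NUM3 : Prop := ‖gy tauL + 110592‖ < 1

/-- **BK3F** (the second type of `S_BK3`: `M (τ, 1) = l (-1, 3 τ)`, `3 l l̄ = p`, `μ = i √3 l`, `μ μ̄ = p`; VR3 (4)). The proof is that of
`S_BK3` (see `C3/Stm.lean` and `C3/Bk3a.lean`, which contains everything up to the linear sums `OS.lin`), with the data at the point:
`X_t* = ε ε' μ h (h + 27) h^δ (N - c^δ μ²)`, `x_t* = p^12 μ^(-12) 729 Δ(3τ) / Δ(τ) = μ̄^12 729 / h²` (BAS3 (1) with `j = 6`; `Δ(3τ)/Δ(τ) = F/G = 1/h²`),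
and `K = 729 (h + 27) (729 / h)^(δ + 1)`: `K X_t* = 729 ε ε' μ c h 729^(δ+1) (N - c^δ μ²)`, `729 x_t* = μ̄^12 (729/h)²` and
`∏_(t ≠ t*) x_t = ± p^12 / x_t* = ± μ^12 h² / 729`; at the end multiply by `(729/h)³` and constants. -/
def S_BK3F : Prop :=
  ∀ (p δ : ℕ) (τ : ℍ) (c : ℤ) (M : Matrix (Fin 2) (Fin 2) ℤ) (l μ : ℂ), p.Prime → p = 2 * δ + 1 → p ≠ 3 →
    gP τ ^ 3 = c * gD τ → M.det = p → (3 : ℤ) ∣ M 1 0 → μ = Complex.I * ((Real.sqrt 3 : ℝ) : ℂ) * l →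
    μ * (starRingEnd ℂ) μ = p → IsIntegral ℤ μ →
    (M 0 0 : ℂ) * τ + (M 0 1 : ℂ) = - l → (M 1 0 : ℂ) * τ + (M 1 1 : ℂ) = 3 * l * τ →
      ∃ w : ℂ, IsIntegral ℤ w ∧
        27 * c * 729 ^ (δ + 4) * μ ^ 13 * ((MM δ c : ℂ) - c ^ δ * μ ^ 2) = (starRingEnd ℂ) μ ^ 2 * w

end

end Pool.Agent.HS37.C4
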