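import Pool.Agent.HS37.C4.Stm
import Pool.Agent.HS37.CQ.Gex

/-!
# Project C4, piece SYM3 (helper66): self-partner functions with integral expansion (port of `CV/Sym`)
-/

set_option autoImplicit false

open UpperHalfPlane
open Pool.Agent.HS37.SP Pool.Agent.HS37.CQ Pool.Agent.HS37.C3

namespace Pool.Agent.HS37.C4

noncomputable section

theorem SYM3.aeval_pt (hCLO : S_CLO3) {a a' : ℍ → ℂ} (h : Pt 0 a a') (G : Polynomial ℤ) :
    Pt 0 (fun τ => Polynomial.aeval (a τ) G) (fun τ => Polynomial.aeval (a' τ) G) := by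
  obtain ⟨-, cadd, csm, -, cpow, -, -⟩ := hCLO
  induction G using Polynomial.induction_on' with
  | add p q hp hq =>
    have := cadd 0 _ _ _ _ hp hq
    simpa only [map_add] using this
  | monomial n z =>
    have h1 := cpow 0 _ _ n h
    rw [mul_zero] at h1
    have h2 := csm 0 _ _ (z : ℂ) h1
    simpa [Polynomial.aeval_monomial] using h2

theorem t_SYM3 (hCON : S_CON3) (hPRY : S_PRY) (hCLO : S_CLO3) : S_SYM3 := by
  intro F m c hF hc hci
  obtain ⟨hy, ⟨cy, h1, h2, h3⟩, -, -⟩ := hPRY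
  choose z hz using hci
  obtain ⟨G, g, -, e2, -, e4⟩ := GEX.presc h1 h2 h3 m z (m + 1) le_rfl
  have hG := SYM3.aeval_pt hCLO hy G
  have hD := hCLO.2.1 0 _ _ _ _ hF (hCLO.2.2.1 0 _ _ (-1) hG)
  have hq := t_QMUL.2.1 _ _ _ _ _ hc (t_QMUL.2.2.2.1 _ _ _ (-1) e2)
  obtain ⟨r, hr⟩ : PowerSeries.X ^ (m + 1) ∣ c + PowerSeries.C (-1 : ℂ) * g := by
    rw [PowerSeries.X_pow_dvd_iff]
    intro i hi
    rw [map_add, PowerSeries.coeff_C_mul, hz i, e4 i hi]
    ring
  rw [hr, pow_succ, mul_assoc] at hq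
  have hq0 := t_QMUL.2.2.2.2.2 _ 0 m (PowerSeries.X * r) (by rw [zero_add]; exact hq)
  have k1 := hCON _ _ _ _ hD hq0 hq0
  refine ⟨G, fun τ => ?_⟩
  have k2 := k1 τ
  rw [PowerSeries.coeff_zero_X_mul] at k2
  linear_combination k2

end

end Pool.Agent.HS37.C4
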