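import Pool.Agent.HS37.C3.Lin3

/-!
# Project C4, piece XIN3 (helper20): the numbers `x(Λ')` are algebraic integers
-/

set_option autoImplicit false

open UpperHalfPlane ModularForm ModularFormClass MatrixGroups EisensteinSeries Complex
open Pool.Agent.HS37.SP Pool.Agent.HS37.CQ

namespace Pool.Agent.HS37.C3

namespace XIN3P

open LIN3P

lemma chr_zpow12 {d : ℤ} (h : ¬ (3 : ℤ) ∣ d) (M : ℕ) : chr d ^ (12 * (M : ℤ)) = 1 := by
  have h1 : (12 * (M : ℤ)) = ((12 * M : ℕ) : ℤ) := by push_cast; ring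
  rw [h1, zpow_natCast, pow_mul, chr12 h, one_pow]

/-- the power sums as Hecke sums -/
lemma pow_eq {p : ℕ} (hp : p.Prime) (hp3 : p ≠ 3) (M : ℕ) (τ : ℍ) :
    ∑ t ∈ reps p, xx p t τ ^ M =
      (p : ℂ) ^ (12 * M) * (((discriminant τ)⁻¹) ^ M *
        hsum3 (12 * M) p (fun z => discriminant z ^ M) τ) := by
  rw [hsum3, Finset.mul_sum, Finset.mul_sum]
  refine Finset.sum_congr rfl fun t ht => ?_
  have hd : 0 < (mat t).det := by
    rw [det_mat_of_mem hp.pos ht]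
    exact_mod_cast hp.pos
  have h3 : ¬ (3 : ℤ) ∣ (mat t) 1 1 := by
    intro h
    have h5 : (mat t) 1 1 = (t.2.2 : ℤ) := by simp [mat]
    rw [h5] at h
    have h6 : (3 : ℕ) ∣ t.2.2 := by exact_mod_cast h
    unfold reps at ht
    have h7 := (Finset.mem_filter.1 ht).2.1
    have h8 : 3 ∣ p := h7 ▸ Dvd.dvd.mul_left h6 _
    exact hp3 ((Nat.prime_dvd_prime_iff_eq Nat.prime_three hp).1 h8).symm
  have h9 := val3_mul 0 (fun _ => 1) M hd h3 τ
  have h10 : val3 0 (fun _ => (1 : ℂ)) (mat t) τ = 1 := by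
    unfold val3
    simp
  rw [h10, one_mul] at h9
  have h11 : (0 + 12 * (M : ℤ)) = 12 * M := by ring
  rw [h11] at h9
  simp only [one_mul] at h9
  rw [h9, xx, div_eq_mul_inv, mul_pow, mul_pow, ← pow_mul]
  ring

/-- one cusp -/
lemma cusp1 (hT : S_TRC3) {p : ℕ} (hp : p.Prime) (hp3 : p ≠ 3) (M : ℕ)
    (hPt : ∃ A A' B B' : ℍ → ℂ, Pt (-(12 * (M : ℤ))) A A' ∧ Pt (12 * M) B B')
    (f g : ℍ → ℂ) (d e : PowerSeries ℂ) (u v : ℕ) (hqf : QExp f u d) (hqg : QExp g v e)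
    (hd : IsInt d) (he : IsInt e) :
    ∃ c : PowerSeries ℂ, QExp (fun τ => (p : ℂ) ^ (12 * M) *
        (f τ ^ M * hsum3 (12 * M) p (fun z => g z ^ M) τ)) (M * u + p * (M * v)) c ∧ IsInt c := by
  have hp0 : (p : ℂ) ≠ 0 := by exact_mod_cast hp.ne_zero
  obtain ⟨A1, A1', B1, B1', hA1, hB1⟩ := hPt
  have hi1 : IsInt (d ^ M) := isInt_iff.2 (pow_mem (isInt_iff.1 hd) M)
  have hi2 : IsInt (e ^ M) := isInt_iff.2 (pow_mem (isInt_iff.1 he) M)
  obtain ⟨r, hr, hq⟩ := (hT p hp hp3 _ _ _ _ _ hA1 hB1).2 _ _ _ _ _ _ (qx_pow hqf M) (qx_pow hqg M)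
      hi1 hi2
  refine ⟨_, t_QMUL.2.2.2.1 _ _ _ ((p : ℂ) ^ (12 * M)) hq, ?_⟩
  rw [mul_add]
  refine isInt_iff.2 (add_mem ?_ ?_)
  · have h1 : PowerSeries.C ((p : ℂ) ^ (12 * M)) = PowerSeries.C ((((p : ℤ) ^ (12 * M) : ℤ)) : ℂ) := by
      push_cast
      rfl
    rw [h1]
    exact mul_mem (isInt_C _) (mul_mem (isInt_iff.1 hi1) (isInt_iff.1 (vps_int hi2)))
  · rw [← mul_assoc, ← map_mul]
    have h1 : (p : ℂ) ^ (12 * M) * (p : ℂ) ^ (1 - 12 * (M : ℤ)) = (((p : ℤ)) : ℂ) := by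
      rw [← zpow_natCast (p : ℂ) (12 * M), ← zpow_add₀ hp0]
      have : ((12 * M : ℕ) : ℤ) + (1 - 12 * (M : ℤ)) = 1 := by push_cast; ring
      rw [this, zpow_one]
      push_cast
      rfl
    rw [h1]
    exact mul_mem (isInt_C _) (isInt_iff.1 hr)

end XIN3P

open LIN3P XIN3P in
theorem t_XIN3 (hT : S_TRC3) (hP : S_PR23) (hS : CQ.S_PSM) (hC : S_CLO3) (hB : S_BAS3) : S_XIN3 := by
  intro p hp hp3 τ₀ hu hv
  obtain ⟨-, -, ⟨w12, q12, i12, -, -⟩, -, ⟨e, -, qe, ie, -⟩⟩ := t_EIS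
  have hp0 : (p : ℂ) ≠ 0 := by exact_mod_cast hp.ne_zero
  have hp3' : ¬ (3 : ℤ) ∣ (p : ℤ) := by
    intro h
    have h6 : (3 : ℕ) ∣ p := by exact_mod_cast h
    exact hp3 ((Nat.prime_dvd_prime_iff_eq Nat.prime_three hp).1 h6).symm
  have hDel : Pt 12 discriminant (fun τ => 729 * discriminant (trp τ)) := by
    have h := hB.1 6 discriminant (by
      have : (2 * 6 : ℤ) = 12 := by norm_num
      rw [this]
      exact w12)
    refine pt_cast ?_ (by norm_num : (2 * 6 : ℤ) = 12)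
    have h7 : ((-3 : ℂ) ^ (6 : ℤ)) = 729 := by norm_num
    rw [h7] at h
    exact h
  have hDi : Pt (-12) (fun τ => (discriminant τ)⁻¹) (fun τ => (729 * discriminant (trp τ))⁻¹) :=
    hC.2.2.2.2.2.1 _ _ _ hDel (fun τ => discriminant_ne_zero τ)
      (fun τ => mul_ne_zero (by norm_num) (discriminant_ne_zero _))
  have q3 : QExp (fun τ => discriminant (trp τ)) 0 (vps 3 del) := by
    simpa using hB.2.2 _ _ _ q12
  have q3i : QExp (fun τ => (discriminant (trp τ))⁻¹) 3 (vps 3 e) := by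
    simpa using hB.2.2 _ _ _ qe
  refine hS (reps p) (fun t => xx p t τ₀) (gh τ₀) (729 / gh τ₀) hu hv ?_
  intro M _
  have hA2 : Pt (-(12 * (M : ℤ))) (fun τ => ((discriminant τ)⁻¹) ^ M)
      (fun τ => ((729 * discriminant (trp τ))⁻¹) ^ M) :=
    pt_cast (hC.2.2.2.2.1 _ _ _ M hDi) (by ring)
  have hB2 : Pt (12 * (M : ℤ)) (fun τ => discriminant τ ^ M)
      (fun τ => (729 * discriminant (trp τ)) ^ M) :=
    pt_cast (hC.2.2.2.2.1 _ _ _ M hDel) (by ring)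
  have hterm : Pt 0 (fun τ => (p : ℂ) ^ (12 * M) * (((discriminant τ)⁻¹) ^ M *
        hsum3 (12 * M) p (fun z => discriminant z ^ M) τ))
      (fun τ => (p : ℂ) ^ (12 * M) * (((discriminant (trp τ))⁻¹) ^ M *
        hsum3 (12 * M) p (fun z => discriminant (trp z) ^ M) τ)) := by
    have h := hC.2.2.1 _ _ _ ((p : ℂ) ^ (12 * M)) (hT p hp hp3 _ _ _ _ _ hA2 hB2).1
    convert h using 1
    funext τ
    have e1 : (fun z => (729 * discriminant (trp z)) ^ M) =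
        fun z => (729 : ℂ) ^ M * discriminant (trp z) ^ M := by
      funext z
      rw [mul_pow]
    rw [e1, hsum3_smul, chr_zpow12 hp3', one_mul, mul_inv, mul_pow]
    have e2 : ((729 : ℂ)⁻¹) ^ M * 729 ^ M = 1 := by
      rw [← mul_pow]
      norm_num
    calc _ = (p : ℂ) ^ (12 * M) * (((discriminant (trp τ))⁻¹) ^ M *
        hsum3 (12 * M) p (fun z => discriminant (trp z) ^ M) τ) * 1 := by ring
      _ = _ := by
        rw [← e2]
        ring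
  have hPt : ∃ A A' B B' : ℍ → ℂ, Pt (-(12 * (M : ℤ))) A A' ∧ Pt (12 * M) B B' :=
    ⟨_, _, _, _, hA2, hB2⟩
  obtain ⟨c, hc, hci⟩ := cusp1 hT hp hp3 M hPt (fun τ => (discriminant τ)⁻¹) discriminant e del 1 0
    qe q12 ie i12
  obtain ⟨c', hc', hci'⟩ := cusp1 hT hp hp3 M hPt (fun τ => (discriminant (trp τ))⁻¹)
    (fun τ => discriminant (trp τ)) (vps 3 e) (vps 3 del) 3 0 q3i q3 (vps_int ie) (vps_int i12)
  obtain ⟨Q₁, Q₂, hQ⟩ := hP _ _ _ _ _ _ hterm hc hc' (fun i _ => hci i) (fun i _ => hci' i)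
  exact ⟨Q₁, Q₂, by rw [pow_eq hp hp3 M τ₀]; exact hQ τ₀⟩

end Pool.Agent.HS37.C3
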